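import Pool.Agent.Helper87.BK.Cmp
import Pool.Agent.Helper87.BK.Pow

/-!
# Project BKF: the Kuenneth formula with finite families of classes in all degrees

Conventions of `Pool/Agent/Helper87/BK/Basic.lean`.  `FData G`: in every degree `j ≥ 2` the bounded
cohomology of `G` has the basis `e j i`, detected by the functionals `lam j i`, which are defined on all
continuous invariant cochains and depend only on the values on a compact set.  `UData G`: a chain map `U`
from continuous to bounded cochains (degrees `≥ 2`), homotopic to the identity.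
-/

open scoped Topology

namespace Pool.Agent.Helper87.BKF
open Pool.Agent.Helper11.BC (dl)
open Pool.Agent.Helper87.BCR
open Pool.Agent.Helper87.BK

/-- Families bounded and continuous in the second parameter, and continuous in the first parameter
uniformly in the second one. -/
def LPU {Z W : Type} [TopologicalSpace Z] [TopologicalSpace W] (F : Z → W → ℝ) : Prop :=
  (∀ z, ∃ M : ℝ, ∀ w, |F z w| ≤ M) ∧ (∀ z, Continuous (F z)) ∧
    ∀ z₀, ∀ ε > 0, ∀ᶠ z in 𝓝 z₀, ∀ w, |F z w - F z₀ w| ≤ ε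

/-- The class of the families `LPU`. -/
def LPUc (Z W : Type) [TopologicalSpace Z] [TopologicalSpace W] (F : Z → W → ℝ) : Prop := LPU F

section grp

variable {H G : Type} [Group H] [TopologicalSpace H] [Group G] [TopologicalSpace G]

/-- Continuous invariant cochains with `k` points, bounded if `β` holds. -/
structure Cb (β : Prop) (k : ℕ) (A : List H → ℝ) : Prop where
  cont : LC A
  bdd : β → ∃ M : ℝ, ∀ l, |A l| ≤ M
  inv : ∀ (g : H) l, A (l.map (g * ·)) = A l
  supp : ∀ l : List H, l.length ≠ k → A l = 0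

/-- Cochains of the double complex: jointly continuous, `LPU` on the lists of length `≥ 3` in the
second variable, and `PU` if `β` holds. -/
structure Kb (β : Prop) (k : ℕ) (Φ : List H → List G → ℝ) : Prop where
  regJ : InK JCc Φ
  regL : InK LPUc fun l m => if 3 ≤ m.length then Φ l m else 0
  regP : β → InK PUc Φ
  inv : ∀ (h : H) (g : G) l m, Φ (l.map (h * ·)) (m.map (g * ·)) = Φ l m
  supp : ∀ (l : List H) (m : List G), l = [] ∨ m = [] ∨ l.length + m.length ≠ k → Φ l m = 0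

/-- Cochains of the double complex: `LPU`, and `PU` if `β` holds. -/
structure Kl (β : Prop) (k : ℕ) (Φ : List H → List G → ℝ) : Prop where
  regL : InK LPUc Φ
  regP : β → InK PUc Φ
  inv : ∀ (h : H) (g : G) l m, Φ (l.map (h * ·)) (m.map (g * ·)) = Φ l m
  supp : ∀ (l : List H) (m : List G), l = [] ∨ m = [] ∨ l.length + m.length ≠ k → Φ l m = 0

end grp

/-- Finite dimensional bounded cohomology in every degree, detected on compact sets. -/
structure FData (G : Type) [Group G] [TopologicalSpace G] where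
  N : ℕ → ℕ
  e : (j : ℕ) → Fin (N j) → List G → ℝ
  lam : (j : ℕ) → Fin (N j) → (List G → ℝ) → ℝ
  C : ℕ → ℝ
  D : (j : ℕ) → Set (Fin (j + 1) → G)
  hD : ∀ j, IsCompact (D j)
  he : ∀ j i, Cy (j + 1) (e j i)
  lam_lin : ∀ j i (φ ψ : List G → ℝ) (a b : ℝ), Uo (j + 1) φ → Uo (j + 1) ψ →
    lam j i (fun m => a * φ m + b * ψ m) = a * lam j i φ + b * lam j i ψ
  lam_bd : ∀ j i (φ : List G → ℝ) (M : ℝ), 0 ≤ M → Uo (j + 1) φ →
    (∀ x ∈ D j, |φ (List.ofFn x)| ≤ M) → |lam j i φ| ≤ C j * M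
  lam_dl : ∀ j i (ψ : List G → ℝ), Uo j ψ → lam j i (dl ψ) = 0
  lam_e : ∀ j i i', lam j i (e j i') = if i = i' then 1 else 0
  prim : ∀ j, 2 ≤ j → ∀ φ : List G → ℝ, Cy (j + 1) φ → (∀ i, lam j i φ = 0) →
    ∃ ψ, Co j ψ ∧ ∀ m, φ m = dl ψ m
  hom0 : ∀ φ : List G → ℝ, Uo 2 φ → (∀ m, dl φ m = 0) → ∀ m, φ m = 0

/-- A chain map `U` from continuous invariant cochains to continuous invariant cochains, bounded in
degrees `≥ 2` in terms of the values on a compact set, and a homotopy `K` from the identity to `U`. -/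
structure UData (G : Type) [Group G] [TopologicalSpace G] where
  U : (List G → ℝ) → List G → ℝ
  K : (List G → ℝ) → List G → ℝ
  U_lin : ∀ j (φ ψ : List G → ℝ) (a b : ℝ), Uo j φ → Uo j ψ → ∀ m,
    U (fun t => a * φ t + b * ψ t) m = a * U φ m + b * U ψ m
  K_lin : ∀ j (φ ψ : List G → ℝ) (a b : ℝ), Uo j φ → Uo j ψ → ∀ m,
    K (fun t => a * φ t + b * ψ t) m = a * K φ m + b * K ψ m
  U_Uo : ∀ j (φ : List G → ℝ), Uo j φ → Uo j (U φ)
  K_Uo : ∀ j (φ : List G → ℝ), Uo (j + 1) φ → Uo j (K φ)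
  K_nil : ∀ φ : List G → ℝ, K φ [] = 0
  U_loc : ∀ j (E : Set (Fin j → G)), IsCompact E → ∃ (C : ℝ) (D : Set (Fin j → G)),
    IsCompact D ∧ ∀ (φ : List G → ℝ) (M : ℝ), 0 ≤ M → Uo j φ →
      (∀ x ∈ D, |φ (List.ofFn x)| ≤ M) → ∀ x ∈ E, |U φ (List.ofFn x)| ≤ C * M
  K_loc : ∀ j (E : Set (Fin j → G)), IsCompact E → ∃ (C : ℝ) (D : Set (Fin (j + 1) → G)),
    IsCompact D ∧ ∀ (φ : List G → ℝ) (M : ℝ), 0 ≤ M → Uo (j + 1) φ →
      (∀ x ∈ D, |φ (List.ofFn x)| ≤ M) → ∀ x ∈ E, |K φ (List.ofFn x)| ≤ C * M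
  U_bd : ∀ j, 3 ≤ j → ∃ (C : ℝ) (D : Set (Fin j → G)), IsCompact D ∧
    ∀ (φ : List G → ℝ) (M : ℝ), 0 ≤ M → Uo j φ → (∀ x ∈ D, |φ (List.ofFn x)| ≤ M) →
      ∀ m, |U φ m| ≤ C * M
  U_dl : ∀ j (φ : List G → ℝ), Uo (j + 1) φ → ∀ m, U (dl φ) m = dl (U φ) m
  homo : ∀ j (φ : List G → ℝ), Uo (j + 1) φ → ∀ m, m ≠ [] →
    U φ m - φ m = dl (K φ) m + K (dl φ) m

/-- The comparison map of `H` is surjective in degree `n`. -/
def CSur (H : Type) [Group H] [TopologicalSpace H] (n : ℕ) : Prop :=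
  ∀ f : List H → ℝ, Uo (n + 1) f → (∀ l, dl f l = 0) →
    ∃ b h : List H → ℝ, Cy (n + 1) b ∧ Uo n h ∧ ∀ l, f l = b l + dl h l

/-- The comparison map of `H` is bijective in every positive degree. -/
def Good (H : Type) [Group H] [TopologicalSpace H] : Prop :=
  ∀ n, 1 ≤ n → CInj H n ∧ CSur H n

end Pool.Agent.Helper87.BKF
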