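import Pool.Agent.Helper87.BKF.Basic
import Pool.Agent.Helper87.BK.Cnv

/-!
# Project BKF: tuples and lists (piece BKF-CNV)

As in `Pool/Agent/Helper87/BK/Cnv.lean` (the auxiliary lemmas `cnvLi` ... there are private; copy what is needed with
new names).  `fin_of_csur`: apply `h` to `cnvLi (n + 1) f`, and put `b x = b' (List.ofFn x)`, `u x = h' (List.ofFn x)`.
`uo_tuples`: the same translation in the other direction.
-/

open scoped Topology

namespace Pool.Agent.Helper87.BKF
open Pool.Agent.Helper11.BC (dl)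
open Pool.Agent.Helper87.BCR
open Pool.Agent.Helper87.BK

private lemma kfc_erase {X : Type} {n : ℕ} (x : Fin (n + 1) → X) (i : Fin (n + 1)) :
    (List.ofFn x).eraseIdx i = List.ofFn fun j : Fin n => x (Fin.succAbove i j) := by
  apply List.ext_getElem
  · rw [List.length_eraseIdx_of_lt (by rw [List.length_ofFn]; exact i.2), List.length_ofFn,
      List.length_ofFn]
    simp
  · intro m h1 h2
    rw [List.length_ofFn] at h2
    rw [List.getElem_eraseIdx]
    by_cases hm : m < (i : ℕ)
    · rw [dif_pos hm, List.getElem_ofFn, List.getElem_ofFn]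
      congr 1
      rw [Fin.succAbove_of_castSucc_lt _ _ (by simpa [Fin.lt_def] using hm)]
      rfl
    · rw [dif_neg hm, List.getElem_ofFn, List.getElem_ofFn]
      congr 1
      rw [Fin.succAbove_of_le_castSucc _ _ (by simpa [Fin.le_def] using hm)]
      rfl

private lemma kfc_dl_ofFn {X : Type} {n : ℕ} (A : List X → ℝ) (x : Fin (n + 1) → X) :
    dl A (List.ofFn x) = dF (fun y : Fin n → X => A (List.ofFn y)) x := by
  unfold dl dF
  rw [List.length_ofFn, Finset.sum_range]
  refine Finset.sum_congr rfl fun i _ => ?_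
  rw [kfc_erase, smul_eq_mul]

private lemma kfc_exists {X : Type} {k : ℕ} (l : List X) (h : l.length = k) :
    ∃ x : Fin k → X, l = List.ofFn x := by
  subst h
  exact ⟨fun j => l[j], by simp⟩

private lemma kfc_dl_zero {X : Type} {n : ℕ} (A : List X → ℝ)
    (hA : ∀ l : List X, l.length ≠ n → A l = 0) (l : List X) (hl : l.length ≠ n + 1) :
    dl A l = 0 := by
  unfold dl
  refine Finset.sum_eq_zero fun i hi' => ?_
  rw [Finset.mem_range] at hi'
  rw [hA, smul_zero]
  rw [List.length_eraseIdx_of_lt hi']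
  omega

variable {H : Type} [Group H] [TopologicalSpace H]

/-- The function on lists of a function of tuples. -/
private noncomputable def kfcLi (k : ℕ) (b : (Fin k → H) → ℝ) (l : List H) : ℝ :=
  if l.length = k then b (fun j : Fin k => l.getD (j : ℕ) 1) else 0

private lemma kfcLi_ofFn {k : ℕ} (b : (Fin k → H) → ℝ) (x : Fin k → H) :
    kfcLi k b (List.ofFn x) = b x := by
  unfold kfcLi
  rw [if_pos (List.length_ofFn)]
  congr 1
  funext j
  rw [List.getD_eq_getElem _ _ (by simp)]
  simp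

private lemma kfcLi_ne {k : ℕ} (b : (Fin k → H) → ℝ) (l : List H) (hl : l.length ≠ k) :
    kfcLi k b l = 0 := by
  unfold kfcLi
  rw [if_neg hl]

private lemma kfcLi_LC {k : ℕ} (b : (Fin k → H) → ℝ) (hc : Continuous b) : LC (kfcLi k b) := by
  intro m
  by_cases hk : m = k
  · subst hk
    simp_rw [kfcLi_ofFn]
    exact hc
  · have : (fun v : Fin m → H => kfcLi k b (List.ofFn v)) = fun _ => 0 := by
      funext v
      exact kfcLi_ne b _ (by rw [List.length_ofFn]; exact hk)
    rw [this]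
    exact continuous_const

private lemma kfcLi_inv {k : ℕ} (b : (Fin k → H) → ℝ)
    (hi : ∀ (g : H) x, b (fun j => g * x j) = b x) (g : H) (l : List H) :
    kfcLi k b (l.map (g * ·)) = kfcLi k b l := by
  by_cases hl : l.length = k
  · obtain ⟨x, rfl⟩ := kfc_exists l hl
    rw [List.map_ofFn, kfcLi_ofFn, kfcLi_ofFn]
    exact hi g x
  · rw [kfcLi_ne b l hl, kfcLi_ne b _ (by rw [List.length_map]; exact hl)]

private lemma kfcLi_Uo {k : ℕ} (b : (Fin k → H) → ℝ) (hc : Continuous b)
    (hi : ∀ (g : H) x, b (fun j => g * x j) = b x) : Uo k (kfcLi k b) :=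
  ⟨kfcLi_LC b hc, kfcLi_inv b hi, kfcLi_ne b⟩

private lemma kfc_inv {k : ℕ} {A : List H → ℝ} (h : ∀ (g : H) l, A (l.map (g * ·)) = A l)
    (g : H) (x : Fin k → H) : A (List.ofFn fun j => g * x j) = A (List.ofFn x) := by
  rw [← h g (List.ofFn x), List.map_ofFn]
  rfl

theorem fin_of_csur {n : ℕ} (h : CSur H n) (f : (Fin (n + 1) → H) → ℝ) (hc : Continuous f)
    (hi : ∀ (g : H) x, f (fun j => g * x j) = f x) (hz : ∀ x, dF f x = 0) :
    ∃ b : (Fin (n + 1) → H) → ℝ, Continuous b ∧ (∀ (g : H) x, b (fun j => g * x j) = b x) ∧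
      (∃ C : ℝ, ∀ x, |b x| ≤ C) ∧ ∃ u : (Fin n → H) → ℝ, Continuous u ∧
      (∀ (g : H) x, u (fun j => g * x j) = u x) ∧ ∀ x, f x = b x + dF u x := by
  obtain ⟨b, u, hb, hu, hfb⟩ := h (kfcLi (n + 1) f) (kfcLi_Uo f hc hi) (fun l => by
    by_cases hl : l.length = n + 1 + 1
    · obtain ⟨x, rfl⟩ := kfc_exists l hl
      rw [kfc_dl_ofFn]
      have : (fun y : Fin (n + 1) → H => kfcLi (n + 1) f (List.ofFn y)) = f :=
        funext fun y => kfcLi_ofFn f y
      rw [this, hz]
    · exact kfc_dl_zero _ (kfcLi_ne f) l hl)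
  refine ⟨fun x => b (List.ofFn x), hb.1.cont _, fun g x => kfc_inv hb.1.inv g x, ?_,
    fun x => u (List.ofFn x), hu.cont _, fun g x => kfc_inv hu.inv g x, fun x => ?_⟩
  · obtain ⟨M, hM⟩ := hb.1.bdd
    exact ⟨M, fun x => hM _⟩
  · rw [← kfcLi_ofFn f x, hfb, kfc_dl_ofFn]

end Pool.Agent.Helper87.BKF
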