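import Pool.Agent.Helper87.BKF.Basic

/-!
# Project BKF: the homotopy without boundedness (piece BKF-AWS)

* `aw_sh_Uo`: as in `to_double` (`Pool/Agent/Helper87/BK/Kun.lean`), without boundedness: `f l = awsh f l -
  dl (hm awsh f) l - hm awsh (dl f) l` (`hm_homotopy` with `awsh_sub`, `awsh_dl`, `awsh_nil`), `hm awsh (dl f) = 0` because
  `dl f = 0`, `awsh f l = aw (sh f) l` (`f [] = 0`); `r' = - hm awsh f` cut to length `n`; `LC` from `LC_InC_JC`,
  `InC.hm cls_JC`, `InC_JC_LC`; invariance `hm_map`, `awsh_map`.
* `sh_DD`: `sh_dl`, `f [] = 0`, `sh` of the zero function is `0`.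
-/

open scoped Topology

namespace Pool.Agent.Helper87.BKF
open Pool.Agent.Helper11.BC (dl)
open Pool.Agent.Helper87.BCR
open Pool.Agent.Helper87.BK

variable {H G : Type} [Group H] [TopologicalSpace H] [Group G] [TopologicalSpace G]

omit [Group H] [Group G] in
private theorem Aws_cut {A : List (H × G) → ℝ} (n : ℕ) (hc : LC A) :
    LC (fun l => if l.length = n then A l else 0) := by
  intro k
  by_cases h : k = n
  · refine (hc k).congr fun v => ?_
    show _ = if (List.ofFn v).length = n then A (List.ofFn v) else 0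
    rw [if_pos (by rw [List.length_ofFn, h])]
  · refine (continuous_const (y := (0 : ℝ))).congr fun v => ?_
    show _ = if (List.ofFn v).length = n then A (List.ofFn v) else 0
    rw [if_neg (by rw [List.length_ofFn]; exact h)]

omit [Group H] [TopologicalSpace H] [Group G] [TopologicalSpace G] in
private theorem Aws_zero (l : List (H × G)) : dl (fun _ : List (H × G) => (0 : ℝ)) l = 0 := by
  have h := dl_smul 0 (fun _ : List (H × G) => (0 : ℝ)) l
  simpa using h

omit [Group H] [TopologicalSpace H] [Group G] [TopologicalSpace G] in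
private theorem Aws_dl_cut (A : List (H × G) → ℝ) (n : ℕ) (l : List (H × G)) :
    dl (fun l => if l.length = n then A l else 0) l = if l.length = n + 1 then dl A l else 0 := by
  split_ifs with h
  · refine dl_congr _ _ l fun t ht => ?_
    rw [if_pos (by omega)]
  · refine Eq.trans (dl_congr _ _ l fun t ht => ?_) (Aws_zero l)
    rw [if_neg (by omega)]

omit [Group H] [TopologicalSpace H] [Group G] [TopologicalSpace G] in
private theorem Aws_aw_zero (Φ : List H → List G → ℝ) (l : List (H × G))
    (h : ∀ a b, a ≠ [] → b ≠ [] → a.length + b.length = l.length + 1 → Φ a b = 0) :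
    aw Φ l = 0 := by
  have h1 : aw Φ l = aw (fun a b => 0 * Φ a b) l := by
    refine aw_congr _ _ l fun a b ha hb hab => ?_
    rw [h a b ha hb hab, mul_zero]
  rw [h1, aw_smul, zero_mul]

omit [Group H] [TopologicalSpace H] [Group G] [TopologicalSpace G] in
private theorem Aws_sh_zero (f : List (H × G) → ℝ) (l : List H) (m : List G)
    (h : ∀ t : List (H × G), t.length + 1 = l.length + m.length → f t = 0) :
    sh f l m = 0 := by
  have h1 : sh f l m = sh (fun t => 0 * f t) l m := by
    refine sh_congr _ _ l m fun t ht => ?_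
    rw [h t ht, mul_zero]
  rw [h1, sh_smul, zero_mul]

theorem sh_DD {n : ℕ} {f : List (H × G) → ℝ} (hf : Uo (n + 1) f) (hd : ∀ l, dl f l = 0)
    (l : List H) (m : List G) : DD (sh f) l m = 0 := by
  have hnil : f [] = 0 := hf.supp [] (by simp)
  have hdl0 : (dl f) = fun _ => 0 := funext hd
  have h1 := sh_dl f l m
  rw [hnil, ite_self, add_zero] at h1
  rw [← h1, hdl0]
  exact Aws_sh_zero _ _ _ fun _ _ => rfl

theorem aw_sh_Uo {n : ℕ} {f : List (H × G) → ℝ} (hf : Uo (n + 1) f) (hd : ∀ l, dl f l = 0) :
    ∃ r' : List (H × G) → ℝ, Uo n r' ∧ ∀ l, f l = aw (sh f) l + dl r' l := by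
  have hnil : f [] = 0 := hf.supp [] (by simp)
  have hdl0 : (dl f) = fun _ => 0 := funext hd
  have hinvf : ∀ g : H × G, (fun m : List (H × G) => f (m.map (g * ·))) = f := fun g =>
    funext fun m => hf.inv g m
  have hLC : LC (hm awsh f) := InC_JC_LC ((LC_InC_JC hf.cont).hm cls_JC)
  have hhm : Uo n (fun l => if l.length = n then - hm awsh f l else 0) := by
    refine ⟨Aws_cut (A := fun l => - hm awsh f l) n fun k => (hLC k).neg, ?_,
      fun l h => if_neg h⟩
    intro g l
    show (if (l.map (g * ·)).length = n then - hm awsh f (l.map (g * ·)) else 0) = _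
    have h3 := hm_map awsh (g * ·) (fun u t => awsh_map u (g.1 * ·) (g.2 * ·) t) f l
    rw [← h3, hinvf, List.length_map]
  refine ⟨_, hhm, ?_⟩
  intro l
  rw [Aws_dl_cut]
  split_ifs with h
  · have e1 : dl (fun l => - hm awsh f l) l = - dl (hm awsh f) l := by
      have := dl_smul (-1) (hm awsh f) l
      simpa using this
    have e2 := hm_homotopy awsh awsh_sub awsh_dl awsh_nil f l
    have e3 : hm awsh (dl f) l = 0 := by
      have h3 := hm_sub awsh awsh_sub f f l
      have h4 : (fun t => f t - f t) = fun _ => (0 : ℝ) := funext fun t => sub_self _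
      rw [sub_self, h4] at h3
      rw [hdl0]
      exact h3
    have e4 : awsh f l = aw (sh f) l := by
      unfold awsh
      rw [hnil, ite_self, zero_add]
    rw [e1]
    rw [e3, e4, add_zero] at e2
    linarith
  · rw [hf.supp l h, Aws_aw_zero, add_zero]
    intro a b _ _ hab
    exact Aws_sh_zero _ _ _ fun t ht => hf.supp t (by omega)

end Pool.Agent.Helper87.BKF
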