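import Pool.Agent.Helper87.BKF.KReg

/-!
# Project BKF: the operators `U`, `K` and the total differential (piece BKF-UHOM)

`U_row`: `dl (fun a => U (Φ a) m) l = U (fun t => dl (fun a => Φ a t) l) m`: unfold `dl` into finite sums over
`r < l.length` of `(-1)^r • Φ (l.eraseIdx r) t`; all the rows `Φ (l.eraseIdx r)` are in the same `Uo k`
(`k = n + 2 - (l.length - 1)`, `Vo_row`), so linearity (induction on the finite set) applies.  The same for `K`.
`U_DD`: for `l ≠ []`, `m ≠ []`, `DD_of_ne`: `DD (U Φ) l m = dl (fun a => U (Φ a) m) l + (-1)^(|l|+1) * dl (U (Φ l)) m`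
`= U (fun t => dl (fun a => Φ a t) l) m + (-1)^(|l|+1) * U (dl (Φ l)) m` (`U_dl`; if `Φ l = 0`, trivial)
`= U (fun t => dl (fun a => Φ a t) l + (-1)^(|l|+1) * dl (Φ l) t) m`, and this function of `t` is zero: for `t ≠ []` it is
`DD Φ l t`, for `t = []` it is `0` (`Φ a [] = 0`).  Both functions are `Uo (n + 3 - l.length)`.
`K_DD`: let `Θ a b = (-1)^(|a|+1) * K (Φ a) b`.  `DD Θ l m = dl (fun a => Θ a m) l + (-1)^(|l|+1) * dl (Θ l) m`; the faces
`a` of `l` have length `|l| - 1`, so the first term is `(-1)^|l| * dl (fun a => K (Φ a) m) l =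
(-1)^|l| * K (fun t => dl (fun a => Φ a t) l) m = (-1)^|l| * K (fun t => - (-1)^(|l|+1) * dl (Φ l) t) m = K (dl (Φ l)) m`, the
second term is `dl (K (Φ l)) m`; by `homo` the sum is `U (Φ l) m - Φ l m` (for `m ≠ []`; if `Φ l = 0` trivial).
If `l = []` or `m = []` both sides are `0` (support).
-/

open scoped Topology

namespace Pool.Agent.Helper87.BKF
open Pool.Agent.Helper11.BC (dl)
open Pool.Agent.Helper87.BCR
open Pool.Agent.Helper87.BK

variable {H G : Type} [Group H] [TopologicalSpace H] [Group G] [TopologicalSpace G]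
  [IsTopologicalGroup G] [LocallyCompactSpace G]

/-- A linear operator commutes with finite linear combinations. -/
private theorem UHom_sum {T : (List G → ℝ) → List G → ℝ} {j : ℕ}
    (hT : ∀ (φ ψ : List G → ℝ) (a b : ℝ), Uo j φ → Uo j ψ → ∀ m,
      T (fun t => a * φ t + b * ψ t) m = a * T φ m + b * T ψ m)
    {ι : Type} (s : Finset ι) (c : ι → ℝ) (φ : ι → List G → ℝ) (hφ : ∀ i ∈ s, Uo j (φ i))
    (m : List G) : T (fun t => ∑ i ∈ s, c i * φ i t) m = ∑ i ∈ s, c i * T (φ i) m := by
  classical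
  have h0 : T (fun _ => 0) m = 0 := by
    have h := hT (fun _ => 0) (fun _ => 0) 0 0 (Uo_zero j) (Uo_zero j) m
    simpa using h
  induction s using Finset.induction_on with
  | empty => simpa using h0
  | insert a s ha ih =>
    have h1 : ∀ i ∈ s, Uo j (φ i) := fun i hi => hφ i (Finset.mem_insert_of_mem hi)
    have h2 := hT (φ a) (fun t => ∑ i ∈ s, c i * φ i t) (c a) 1
      (hφ a (Finset.mem_insert_self a s)) (Uo_sum s c φ h1) m
    have h3 : (fun t => ∑ i ∈ insert a s, c i * φ i t) =
        fun t => c a * φ a t + 1 * ∑ i ∈ s, c i * φ i t := by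
      funext t
      rw [Finset.sum_insert ha, one_mul]
    rw [h3, h2, ih h1, Finset.sum_insert ha, one_mul]

private theorem UHom_smul {T : (List G → ℝ) → List G → ℝ} {j : ℕ}
    (hT : ∀ (φ ψ : List G → ℝ) (a b : ℝ), Uo j φ → Uo j ψ → ∀ m,
      T (fun t => a * φ t + b * ψ t) m = a * T φ m + b * T ψ m)
    (c : ℝ) {φ : List G → ℝ} (hφ : Uo j φ) (m : List G) :
    T (fun t => c * φ t) m = c * T φ m := by
  have h := hT φ φ c 0 hφ hφ m
  have h1 : (fun t => c * φ t + 0 * φ t) = fun t => c * φ t := by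
    funext t
    ring
  rw [h1] at h
  rw [h]
  ring

/-- A linear operator commutes with the differential in the other variable. -/
private theorem UHom_row {T : (List G → ℝ) → List G → ℝ} {n : ℕ} {Φ : List H → List G → ℝ}
    (h : Vo n Φ) (l : List H)
    (hT : ∀ (φ ψ : List G → ℝ) (a b : ℝ), Uo (n - (l.length - 1)) φ → Uo (n - (l.length - 1)) ψ →
      ∀ m, T (fun t => a * φ t + b * ψ t) m = a * T φ m + b * T ψ m) (m : List G) :
    dl (fun a => T (Φ a) m) l = T (fun t => dl (fun a => Φ a t) l) m := by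
  have h1 : ∀ i ∈ Finset.range l.length, Uo (n - (l.length - 1)) (Φ (l.eraseIdx i)) := by
    intro i hi
    have hi' := Finset.mem_range.1 hi
    have h2 := Vo_row h (l.eraseIdx i)
    rwa [List.length_eraseIdx_of_lt hi'] at h2
  have h3 := UHom_sum hT (Finset.range l.length) (fun i => (-1 : ℝ) ^ i)
    (fun i => Φ (l.eraseIdx i)) h1 m
  unfold Helper11.BC.dl
  simp only [smul_eq_mul]
  exact h3.symm

private theorem UHom_rowUo {n : ℕ} {Φ : List H → List G → ℝ} (h : Vo n Φ) (l : List H) :
    Uo (n - (l.length - 1)) (fun t => dl (fun a => Φ a t) l) := by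
  have h1 : ∀ i ∈ Finset.range l.length, Uo (n - (l.length - 1)) (Φ (l.eraseIdx i)) := by
    intro i hi
    have hi' := Finset.mem_range.1 hi
    have h2 := Vo_row h (l.eraseIdx i)
    rwa [List.length_eraseIdx_of_lt hi'] at h2
  have h3 := Uo_sum (Finset.range l.length) (fun i => (-1 : ℝ) ^ i)
    (fun i => Φ (l.eraseIdx i)) h1
  unfold Helper11.BC.dl
  simpa only [smul_eq_mul] using h3

private theorem UHom_dl0 {X : Type} (l : List X) : dl (fun _ : List X => (0 : ℝ)) l = 0 := by
  unfold Helper11.BC.dl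
  exact Finset.sum_eq_zero fun i _ => by rw [smul_zero]

/-- The cocycle condition on all lists of the second variable. -/
private theorem UHom_coc {n : ℕ} {Φ : List H → List G → ℝ} (h : Vo n Φ)
    (hD : ∀ l m, DD Φ l m = 0) {l : List H} (hl : l ≠ []) (t : List G) :
    dl (fun a => Φ a t) l + (-1) ^ (l.length + 1) * dl (Φ l) t = 0 := by
  by_cases ht : t = []
  · subst ht
    have h1 : (fun a => Φ a ([] : List G)) = fun _ => 0 := by
      funext a
      exact h.supp a [] (Or.inr (Or.inl rfl))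
    rw [h1, UHom_dl0, dl_nil, mul_zero, add_zero]
  · rw [← DD_of_ne Φ hl ht]
    exact hD l t

theorem U_DD (E : UData G) {n : ℕ} {Φ : List H → List G → ℝ} (h : Vo (n + 2) Φ)
    (hD : ∀ l m, DD Φ l m = 0) (l : List H) (m : List G) :
    DD (fun a b => E.U (Φ a) b) l m = 0 := by
  by_cases hl : l = []
  · unfold DD
    rw [if_pos (Or.inl hl)]
  by_cases hm : m = []
  · unfold DD
    rw [if_pos (Or.inr hm)]
  have hpos : 0 < l.length := List.length_pos_iff.mpr hl
  rw [DD_of_ne _ hl hm]
  have h1 := UHom_row h l (fun φ ψ a b hφ hψ t => E.U_lin _ φ ψ a b hφ hψ t) m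
  rw [h1]
  by_cases hn : l.length ≤ n + 1
  · have h2 : Uo ((n + 1 - l.length) + 1) (Φ l) := by
      have h3 := Vo_row h l
      rwa [show n + 2 - l.length = (n + 1 - l.length) + 1 by omega] at h3
    have h4 : dl (E.U (Φ l)) m = E.U (dl (Φ l)) m := (E.U_dl _ _ h2 m).symm
    have h5 : Uo (n + 2 - (l.length - 1)) (dl (Φ l)) := by
      have h6 := Uo_dl h2
      rwa [show (n + 1 - l.length) + 1 + 1 = n + 2 - (l.length - 1) by omega] at h6
    have h7 := E.U_lin _ _ _ 1 ((-1) ^ (l.length + 1)) (UHom_rowUo h l) h5 m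
    have h8 : (fun t => 1 * dl (fun a => Φ a t) l + (-1) ^ (l.length + 1) * dl (Φ l) t) =
        fun _ => 0 := by
      funext t
      rw [one_mul]
      exact UHom_coc h hD hl t
    rw [h8, E.U_zero, one_mul] at h7
    show _ + (-1) ^ (l.length + 1) * dl (E.U (Φ l)) m = 0
    rw [h4]
    exact h7.symm
  · have h2 : Φ l = fun _ => 0 := by
      funext t
      exact Vo_row_zero h l (Or.inr (by omega)) t
    have h3 : (fun t => dl (fun a => Φ a t) l) = fun _ => 0 := by
      funext t
      have h4 := UHom_coc h hD hl t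
      rw [h2, UHom_dl0, mul_zero, add_zero] at h4
      exact h4
    have h5 : E.U (Φ l) = fun _ => 0 := by
      funext t
      rw [h2, E.U_zero]
    show _ + (-1) ^ (l.length + 1) * dl (E.U (Φ l)) m = 0
    rw [h3, E.U_zero, h5, UHom_dl0, mul_zero, add_zero]

theorem K_DD (E : UData G) {n : ℕ} {Φ : List H → List G → ℝ} (h : Vo (n + 2) Φ)
    (hD : ∀ l m, DD Φ l m = 0) (l : List H) (m : List G) :
    DD (fun a b => (-1) ^ (a.length + 1) * E.K (Φ a) b) l m = E.U (Φ l) m - Φ l m := by
  by_cases hl : l = []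
  · have h1 : Φ l = fun _ => 0 := by
      funext t
      exact Vo_row_zero h l (Or.inl hl) t
    unfold DD
    rw [if_pos (Or.inl hl), h1, E.U_zero, sub_zero]
  by_cases hm : m = []
  · unfold DD
    rw [if_pos (Or.inr hm)]
    by_cases hn : n + 2 ≤ l.length
    · have h1 : Φ l = fun _ => 0 := by
        funext t
        exact Vo_row_zero h l (Or.inr hn) t
      rw [h1, E.U_zero, sub_zero]
    · have h1 := (E.U_Uo _ _ (Vo_row h l)).supp m (by
        rw [hm, List.length_nil]
        omega)
      rw [h1, h.supp l m (Or.inr (Or.inl hm)), sub_zero]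
  have hpos : 0 < l.length := List.length_pos_iff.mpr hl
  rw [DD_of_ne _ hl hm]
  have hs : ∀ k : ℕ, ((-1 : ℝ) ^ k) * (-1) ^ k = 1 := by
    intro k
    rw [← mul_pow]
    norm_num
  -- the first term
  have e1 : dl (fun a => (-1) ^ (a.length + 1) * E.K (Φ a) m) l =
      (-1) ^ l.length * dl (fun a => E.K (Φ a) m) l := by
    rw [← dl_smul]
    refine dl_congr _ _ l fun t ht => ?_
    rw [ht]
  have e2 : dl (fun b => (-1) ^ (l.length + 1) * E.K (Φ l) b) m =
      (-1) ^ (l.length + 1) * dl (E.K (Φ l)) m := dl_smul _ _ _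
  have e3 := UHom_row h l (fun φ ψ a b hφ hψ t => E.K_lin _ φ ψ a b hφ hψ t) m
  show dl (fun a => (-1) ^ (a.length + 1) * E.K (Φ a) m) l +
    (-1) ^ (l.length + 1) * dl (fun b => (-1) ^ (l.length + 1) * E.K (Φ l) b) m = _
  rw [e1, e2, e3, ← mul_assoc, hs, one_mul]
  by_cases hn : l.length ≤ n + 1
  · have h2 : Uo ((n + 1 - l.length) + 1) (Φ l) := by
      have h3 := Vo_row h l
      rwa [show n + 2 - l.length = (n + 1 - l.length) + 1 by omega] at h3
    have h5 : Uo (n + 2 - (l.length - 1)) (dl (Φ l)) := by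
      have h6 := Uo_dl h2
      rwa [show (n + 1 - l.length) + 1 + 1 = n + 2 - (l.length - 1) by omega] at h6
    have h6 : (fun t => dl (fun a => Φ a t) l) =
        fun t => (-1) ^ l.length * dl (Φ l) t := by
      funext t
      have h7 := UHom_coc h hD hl t
      rw [pow_succ] at h7
      linarith
    have h8 := UHom_smul (fun φ ψ a b hφ hψ t => E.K_lin _ φ ψ a b hφ hψ t)
      ((-1) ^ l.length) h5 m
    rw [h6, h8, ← mul_assoc, hs, one_mul, E.homo _ _ h2 m hm]
    ring
  · have h2 : Φ l = fun _ => 0 := by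
      funext t
      exact Vo_row_zero h l (Or.inr (by omega)) t
    have h3 : (fun t => dl (fun a => Φ a t) l) = fun _ => 0 := by
      funext t
      have h4 := UHom_coc h hD hl t
      rw [h2, UHom_dl0, mul_zero, add_zero] at h4
      exact h4
    have h5 : E.K (Φ l) = fun _ => 0 := by
      funext t
      rw [h2, E.K_zero]
    rw [h3, E.K_zero, h5, UHom_dl0, h2, E.U_zero]
    ring

end Pool.Agent.Helper87.BKF
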