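import Pool.Agent.Helper87.BKF.Dec
import Pool.Agent.Helper87.BKF.UHom
import Pool.Agent.Helper87.BKF.Aws

/-!
# Project BKF: surjectivity of the comparison map for a product (piece BKF-SUR)

* `csur_prodF`: `Φ = sh f` is `Vo (n + 2)` (`sh_Vo`), `DD Φ = 0`.  `Φ' a b = U (Φ a) b` is `Kb False (n + 2)` (`U_Kb`),
  `DD Φ' = 0` (`U_DD`), `Θ` from `K_Vo`, `Φ' - Φ = DD Θ` (`K_DD`).  `normal_formF` with `β = False`: `Φ' = DD Ψ + μ₀ ⊗ 1 +
  ∑ μ j i ⊗ e j i`.  Surjectivity for `H` in degree `n`: `μ₀ = b₀ + dl h₀`, `Cy (n + 1) b₀`, `Uo n h₀`.  For `2 ≤ j < n`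
  degree `n - j ≥ 1`: `μ j i = b j i + dl (h j i)`, `Cy (n - j + 1) (b j i)`, `Uo (n - j) (h j i)`, `h j i [] = 0`.  For
  `j = n`: `μ n i` is supported on lists of length one and invariant, so bounded: `b n i = μ n i`, `h n i = 0`.
  `f = aw (sh f) + dl r' = aw Φ' - aw (DD Θ) + dl r' = dl (aw Ψ) + μ₀ ∘ fst + ∑ aw (μ j i ⊗ e) - dl (aw Θ) + dl r'`
  (`aw_normal`, `aw_dl`), and `aw (dl h ⊗ e) = dl (aw (h ⊗ e))` (`aw_mul_dl`).  So `b = b₀ ∘ fst + ∑ aw (b j i ⊗ e j i)`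
  (`fst_Co`, `Kl_mul` with `β = True`, `Ko_of_Kl`, `aw_Ko`; cocycle: `fst_dl`, `aw_mul_dl`-like: `dl (aw (b ⊗ e)) =
  aw (dl b ⊗ e) = 0`) and `h = aw Ψ + h₀ ∘ fst + ∑ aw (h j i ⊗ e) - aw Θ + r'` (`aw_Vo`, `fst_Uo`; `h ⊗ e` is `Vo (n + 1)`:
  `Kl_mul` with `β = False`, `Kl.toVo`).
-/

open scoped Topology

namespace Pool.Agent.Helper87.BKF
open Pool.Agent.Helper11.BC (dl)
open Pool.Agent.Helper87.BCR
open Pool.Agent.Helper87.BK

variable {H G : Type} [Group H] [TopologicalSpace H] [Group G] [TopologicalSpace G]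

private theorem sur_dl_sum {X ι : Type} (s : Finset ι) (F : ι → List X → ℝ) (l : List X) :
    dl (fun t => ∑ i ∈ s, F i t) l = ∑ i ∈ s, dl (F i) l := by
  unfold Helper11.BC.dl
  rw [Finset.sum_comm]
  refine Finset.sum_congr rfl fun r _ => ?_
  rw [Finset.smul_sum]

private theorem sur_Co_sum {ι : Type} {k : ℕ} (s : Finset ι) (F : ι → List H → ℝ)
    (h : ∀ i ∈ s, Co k (F i)) : Co k (fun l => ∑ i ∈ s, F i l) where
  cont := fun r => continuous_finset_sum s fun i hi => (h i hi).cont r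
  bdd := by
    choose! M hM using fun i (hi : i ∈ s) => (h i hi).bdd
    refine ⟨∑ i ∈ s, M i, fun l => (Finset.abs_sum_le_sum_abs _ _).trans ?_⟩
    exact Finset.sum_le_sum fun i hi => hM i hi l
  inv := fun g l => Finset.sum_congr rfl fun i hi => (h i hi).inv g l
  supp := fun l hl => Finset.sum_eq_zero fun i hi => (h i hi).supp l hl

private theorem sur_Uo_sum {ι : Type} {k : ℕ} (s : Finset ι) (F : ι → List H → ℝ)
    (h : ∀ i ∈ s, Uo k (F i)) : Uo k (fun l => ∑ i ∈ s, F i l) where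
  cont := fun r => continuous_finset_sum s fun i hi => (h i hi).cont r
  inv := fun g l => Finset.sum_congr rfl fun i hi => (h i hi).inv g l
  supp := fun l hl => Finset.sum_eq_zero fun i hi => (h i hi).supp l hl

private theorem sur_Co_add {k : ℕ} {A B : List H → ℝ} (hA : Co k A) (hB : Co k B) :
    Co k (fun l => A l + B l) where
  cont := fun r => (hA.cont r).add (hB.cont r)
  bdd := by
    obtain ⟨M, hM⟩ := hA.bdd
    obtain ⟨M', hM'⟩ := hB.bdd
    exact ⟨M + M', fun l => (abs_add_le _ _).trans (add_le_add (hM l) (hM' l))⟩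
  inv := fun g l => by
    show A (l.map (g * ·)) + B (l.map (g * ·)) = _
    rw [hA.inv, hB.inv]
  supp := fun l h => by
    show A l + B l = 0
    rw [hA.supp l h, hB.supp l h, add_zero]

private theorem sur_Uo_add {k : ℕ} {A B : List H → ℝ} (hA : Uo k A) (hB : Uo k B) :
    Uo k (fun l => A l + B l) where
  cont := fun r => (hA.cont r).add (hB.cont r)
  inv := fun g l => by
    show A (l.map (g * ·)) + B (l.map (g * ·)) = _
    rw [hA.inv, hB.inv]
  supp := fun l h => by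
    show A l + B l = 0
    rw [hA.supp l h, hB.supp l h, add_zero]

private theorem sur_Uo_sub {k : ℕ} {A B : List H → ℝ} (hA : Uo k A) (hB : Uo k B) :
    Uo k (fun l => A l - B l) where
  cont := fun r => (hA.cont r).sub (hB.cont r)
  inv := fun g l => by
    show A (l.map (g * ·)) - B (l.map (g * ·)) = _
    rw [hA.inv, hB.inv]
  supp := fun l h => by
    show A l - B l = 0
    rw [hA.supp l h, hB.supp l h, sub_zero]

private theorem sur_Uo_of_Cb {β : Prop} {k : ℕ} {A : List H → ℝ} (hA : Cb β k A) : Uo k A :=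
  ⟨hA.cont, hA.inv, hA.supp⟩

private theorem sur_Cb_of_Uo {k : ℕ} {A : List H → ℝ} (hA : Uo k A) : Cb False k A :=
  ⟨hA.cont, fun h => h.elim, hA.inv, hA.supp⟩

private theorem sur_Cb_of_Co {k : ℕ} {A : List H → ℝ} (hA : Co k A) : Cb True k A :=
  ⟨hA.cont, fun _ => hA.bdd, hA.inv, hA.supp⟩

private theorem sur_aw_Ko {k : ℕ} {Ψ : List H → List G → ℝ} (h : Ko (k + 1) Ψ) :
    Co k (aw Ψ) := by
  obtain ⟨h1, h2⟩ := InC_PU_LC (h.reg.aw cls_PU)
  have hs : ∀ l : List (H × G), l.length ≠ k → aw Ψ l = 0 := by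
    intro l hl
    have h3 := aw_smul 0 Ψ l
    rw [zero_mul] at h3
    rw [← h3]
    refine aw_congr _ _ l fun a b _ _ hab => ?_
    rw [zero_mul]
    exact h.supp a b (Or.inr (Or.inr (by omega)))
  refine ⟨h1, ?_, ?_, hs⟩
  · obtain ⟨M, hM⟩ := h2 k
    refine ⟨max M 0, fun l => ?_⟩
    by_cases hl : l.length = k
    · exact (hM l hl).trans (le_max_left _ _)
    · rw [hs l hl, abs_zero]
      exact le_max_right _ _
  · intro g l
    have h3 := aw_map Ψ (g.1 * ·) (g.2 * ·) l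
    have h4 : (fun (s : List H) (t : List G) => Ψ (s.map (g.1 * ·)) (t.map (g.2 * ·))) = Ψ := by
      funext s t
      exact h.inv g.1 g.2 s t
    rw [h4] at h3
    exact h3.symm

/-- An invariant cochain with one point is bounded. -/
private theorem sur_one {A : List H → ℝ} (hA : Uo 1 A) : Co 1 A := by
  refine ⟨hA.cont, ⟨|A [1]|, fun l => ?_⟩, hA.inv, hA.supp⟩
  by_cases h : l.length = 1
  · obtain ⟨x, rfl⟩ := List.length_eq_one_iff.mp h
    have h1 := hA.inv x [1]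
    rw [List.map_cons, List.map_nil, mul_one] at h1
    rw [h1]
  · rw [hA.supp l h, abs_zero]
    exact abs_nonneg _

/-- The splitting of the coefficient of a class of degree `j`. -/
private theorem sur_split {n : ℕ} (h : ∀ j, 1 ≤ j → j ≤ n → CSur H j) {j : ℕ} (hj : j ≤ n)
    (h2 : 2 ≤ j) {μ : List H → ℝ} (hμ : Cb False (n + 1 - j) μ) (hd : ∀ l, dl μ l = 0) :
    ∃ b u : List H → ℝ, Cy (n - j + 1) b ∧ Uo (n - j) u ∧ u [] = 0 ∧
      ∀ l, μ l = b l + dl u l := by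
  rcases hj.lt_or_eq with hlt | rfl
  · have hμ' : Uo (n - j + 1) μ := by
      have h1 := sur_Uo_of_Cb hμ
      rwa [Nat.sub_add_comm hj] at h1
    obtain ⟨b, u, hb, hu, hbu⟩ := h (n - j) (by omega) (by omega) μ hμ' hd
    refine ⟨b, u, hb, hu, hu.supp [] ?_, hbu⟩
    rw [List.length_nil]
    omega
  · have hμ' : Uo 1 μ := by
      have h1 := sur_Uo_of_Cb hμ
      rwa [Nat.add_sub_cancel_left] at h1
    refine ⟨μ, fun _ => 0, ?_, ?_, rfl, fun l => ?_⟩
    · rw [Nat.sub_self]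
      exact ⟨sur_one hμ', hd⟩
    · exact ⟨fun _ => continuous_const, fun _ _ => rfl, fun _ _ => rfl⟩
    · have h1 : dl (fun _ : List H => (0 : ℝ)) l = 0 := by
        have h2 := dl_smul (0 : ℝ) (fun _ : List H => (0 : ℝ)) l
        simpa using h2
      rw [h1, add_zero]

theorem csur_prodF [IsTopologicalGroup G] [LocallyCompactSpace G] (D : FData G) (E : UData G)
    {n : ℕ} (hn : 1 ≤ n) (h : ∀ j, 1 ≤ j → j ≤ n → CSur H j) : CSur (H × G) n := by
  intro f hf hd
  obtain ⟨r', hr', hfr⟩ := aw_sh_Uo hf hd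
  have hV : Vo (n + 2) (sh f) := sh_Vo hf
  have hDD : ∀ l m, DD (sh f) l m = 0 := sh_DD hf hd
  have hΘ := K_Vo E hV
  have hΘD := K_DD E hV hDD
  obtain ⟨Θ, hΘe⟩ : ∃ Θ : List H → List G → ℝ,
      Θ = fun a b => (-1) ^ (a.length + 1) * E.K (sh f a) b := ⟨_, rfl⟩
  rw [← hΘe] at hΘ hΘD
  obtain ⟨Ψ, μ₀, μ, hΨ, hμ₀, hμ₀d, hμ, hμd, hμn, hnf⟩ :=
    normal_formF D hn (fun a b => E.U (sh f a) b) (U_Kb E hV) (U_DD E hV hDD)
  obtain ⟨b₀, h₀, hb₀, hh₀, hμ₀e⟩ := h n hn le_rfl μ₀ (sur_Uo_of_Cb hμ₀) hμ₀d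
  have key : ∀ j (i : Fin (D.N j)), ∃ b u : List H → ℝ, j ∈ Finset.Icc 2 n →
      Cy (n - j + 1) b ∧ Uo (n - j) u ∧ u [] = 0 ∧ ∀ l, μ j i l = b l + dl u l := by
    intro j i
    by_cases hj : j ∈ Finset.Icc 2 n
    · obtain ⟨b, u, hbu⟩ := sur_split h (Finset.mem_Icc.mp hj).2 (Finset.mem_Icc.mp hj).1
        (hμ j i) (hμd j i)
      exact ⟨b, u, fun _ => hbu⟩
    · exact ⟨fun _ => 0, fun _ => 0, fun h => absurd h hj⟩
  choose b u hbu using key
  have he0 : ∀ j i, D.e j i [] = 0 := fun j i => (D.he j i).1.supp [] (by simp)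
  have hed : ∀ j i m, dl (D.e j i) m = 0 := fun j i => (D.he j i).2
  -- the bounded part
  have hb0 : ∀ j ∈ Finset.Icc 2 n, ∀ i, b j i [] = 0 := fun j hj i =>
    (hbu j i hj).1.1.supp [] (by simp)
  have hbC : ∀ j ∈ Finset.Icc 2 n, ∀ i,
      Co (n + 1) (aw fun (a : List H) (c : List G) => b j i a * D.e j i c) := by
    intro j hj i
    have hj' := Finset.mem_Icc.mp hj
    have h1 := Ko_of_Kl (Kl_mul (sur_Cb_of_Co (hbu j i hj).1.1) (hb0 j hj i) (D.he j i).1)
    have h2 : n - j + 1 + (j + 1) = n + 1 + 1 := by omega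
    rw [h2] at h1
    exact sur_aw_Ko h1
  have hbd : ∀ j ∈ Finset.Icc 2 n, ∀ i l,
      dl (aw fun (a : List H) (c : List G) => b j i a * D.e j i c) l = 0 := by
    intro j hj i l
    rw [← aw_dl (fun (a : List H) (c : List G) => b j i a * D.e j i c)
      (fun m => by simp only [hb0 j hj i, zero_mul]) (fun l => by simp only [he0, mul_zero])]
    have h1 := aw_smul 0 (DD fun (a : List H) (c : List G) => b j i a * D.e j i c) l
    rw [zero_mul] at h1
    rw [← h1]
    refine aw_congr _ _ l fun a c _ _ _ => ?_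
    rw [zero_mul, DD_mul_zero (hbu j i hj).1.2 (hed j i)]
  -- the primitive
  have huV : ∀ j ∈ Finset.Icc 2 n, ∀ i,
      Uo n (aw fun (a : List H) (c : List G) => u j i a * D.e j i c) := by
    intro j hj i
    have hj' := Finset.mem_Icc.mp hj
    have h1 := (Kl_mul (sur_Cb_of_Uo (hbu j i hj).2.1) (hbu j i hj).2.2.1 (D.he j i).1).toVo
    have h2 : n - j + (j + 1) = n + 1 := by omega
    rw [h2] at h1
    exact aw_Vo h1
  refine ⟨fun l => b₀ (l.map Prod.fst) + ∑ j ∈ Finset.Icc 2 n, ∑ i,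
      aw (fun (a : List H) (c : List G) => b j i a * D.e j i c) l,
    fun l => (aw Ψ l + (h₀ (l.map Prod.fst) + ∑ j ∈ Finset.Icc 2 n, ∑ i,
      aw (fun (a : List H) (c : List G) => u j i a * D.e j i c) l)) + (r' l - aw Θ l),
    ⟨?_, ?_⟩, ?_, ?_⟩
  · exact sur_Co_add (fst_Co hb₀.1)
      (sur_Co_sum _ _ fun j hj => sur_Co_sum _ _ fun i _ => hbC j hj i)
  · intro l
    rw [dl_add, fst_dl, hb₀.2, zero_add, sur_dl_sum]
    refine Finset.sum_eq_zero fun j hj => ?_
    rw [sur_dl_sum]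
    exact Finset.sum_eq_zero fun i _ => hbd j hj i l
  · exact sur_Uo_add (sur_Uo_add (aw_Vo hΨ.toVo) (sur_Uo_add (fst_Uo hh₀)
      (sur_Uo_sum _ _ fun j hj => sur_Uo_sum _ _ fun i _ => huV j hj i)))
      (sur_Uo_sub hr' (aw_Vo hΘ))
  · intro l
    have e1 : aw (sh f) l = aw (fun a c => E.U (sh f a) c) l - dl (aw Θ) l := by
      rw [← aw_dl Θ (fun m => hΘ.supp [] m (Or.inl rfl))
        (fun l => hΘ.supp l [] (Or.inr (Or.inl rfl)))]
      have h1 : aw (sh f) l = aw (fun a c => E.U (sh f a) c + (-1) * DD Θ a c) l := by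
        refine aw_congr _ _ l fun a c _ _ _ => ?_
        rw [hΘD]
        ring
      rw [h1, aw_add, aw_smul]
      ring
    have e2 := aw_normal D (n := n) (hμ₀.supp [] (by simp))
      (fun m => hΨ.supp [] m (Or.inl rfl)) (fun l => hΨ.supp l [] (Or.inr (Or.inl rfl))) hnf l
    have e3 : ∀ j ∈ Finset.Icc 2 n, ∀ i, aw (fun a c => μ j i a * D.e j i c) l =
        aw (fun a c => b j i a * D.e j i c) l +
          dl (aw fun (a : List H) (c : List G) => u j i a * D.e j i c) l := by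
      intro j hj i
      rw [← aw_mul_dl (u j i) (D.e j i) (hbu j i hj).2.2.1 (hed j i) (he0 j i), ← aw_add]
      refine aw_congr _ _ l fun a c _ _ _ => ?_
      rw [(hbu j i hj).2.2.2 a]
      ring
    have e4 : ∑ j ∈ Finset.Icc 2 n, ∑ i, aw (fun a c => μ j i a * D.e j i c) l =
        (∑ j ∈ Finset.Icc 2 n, ∑ i, aw (fun a c => b j i a * D.e j i c) l) +
          ∑ j ∈ Finset.Icc 2 n, ∑ i,
            dl (aw fun (a : List H) (c : List G) => u j i a * D.e j i c) l := by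
      rw [← Finset.sum_add_distrib]
      refine Finset.sum_congr rfl fun j hj => ?_
      rw [← Finset.sum_add_distrib]
      exact Finset.sum_congr rfl fun i _ => e3 j hj i
    have e5 : dl (fun l : List (H × G) => ∑ j ∈ Finset.Icc 2 n, ∑ i,
        aw (fun (a : List H) (c : List G) => u j i a * D.e j i c) l) l =
        ∑ j ∈ Finset.Icc 2 n, ∑ i,
            dl (aw fun (a : List H) (c : List G) => u j i a * D.e j i c) l := by
      rw [sur_dl_sum]
      exact Finset.sum_congr rfl fun j _ => sur_dl_sum _ _ _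
    rw [dl_add, dl_add, dl_add, dl_sub, fst_dl, e5, hfr l, e1, e2, e4, hμ₀e (l.map Prod.fst)]
    ring

end Pool.Agent.Helper87.BKF
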