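import Pool.Agent.Helper87.BKF.Inj
import Pool.Agent.Helper87.BKF.Sur
import Pool.Agent.Helper87.BK.LCS

/-!
# Project BKF: finite products (piece BKF-PI)

* `csur_congr`: as `cinj_congr` in `Pool/Agent/Helper87/BK/Pow.lean` (the auxiliary lemmas there are private).
* `good_unit`: `CInj`: `van_unit`.  `CSur`: a function on lists of a group with one element takes finitely many
  values on the lists of length `n + 1` (one value), so it is bounded: `b = f`, `h = 0`.
* `good_prod`: `cinj_prodF` with `exists_smt`, `csur_prodF`.
* `good_pi`: induction on `k`; `(i : Fin (k + 1)) → G i` is isomorphic to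
  `((i : Fin k) → G i.succ) × G 0` (`powEquiv` in `BK/Pow.lean` for the constant family; `Fin.cons`), continuous in
  both directions.
-/

open scoped Topology

namespace Pool.Agent.Helper87.BKF
open Pool.Agent.Helper11.BC (dl)
open Pool.Agent.Helper87.BCR
open Pool.Agent.Helper87.BK

private theorem pi_dl_map {X Y : Type} (f : X → Y) (μ : List Y → ℝ) (l : List X) :
    dl (fun a => μ (a.map f)) l = dl μ (l.map f) := by
  unfold dl
  rw [List.length_map]
  refine Finset.sum_congr rfl fun i _ => ?_
  rw [List.eraseIdx_map]

private theorem pi_LC {X Y : Type} [TopologicalSpace X] [TopologicalSpace Y] {f : X → Y}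
    (hf : Continuous f) {μ : List Y → ℝ} (h : LC μ) : LC fun l : List X => μ (l.map f) := by
  intro k
  have h1 : Continuous fun v : Fin k → X => μ (List.ofFn (f ∘ v)) :=
    (h k).comp (continuous_pi fun i => hf.comp (continuous_apply i))
  have h2 : (fun v : Fin k → X => μ ((List.ofFn v).map f)) =
      fun v : Fin k → X => μ (List.ofFn (f ∘ v)) := by
    funext v
    rw [List.map_ofFn]
  change Continuous fun v : Fin k → X => μ ((List.ofFn v).map f)
  rw [h2]
  exact h1

private theorem pi_map_map {H H' : Type} [Group H] [Group H'] (e : H ≃* H') (g : H)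
    (l : List H) : (l.map (g * ·)).map e = (l.map e).map (e g * ·) := by
  rw [List.map_map, List.map_map]
  refine List.map_congr_left fun x _ => ?_
  exact map_mul e g x

private theorem pi_Co {H H' : Type} [Group H] [TopologicalSpace H] [Group H']
    [TopologicalSpace H'] (e : H ≃* H') (he : Continuous e) {k : ℕ} {μ : List H' → ℝ}
    (h : Co k μ) : Co k fun l : List H => μ (l.map e) where
  cont := pi_LC he h.cont
  bdd := by
    obtain ⟨M, hM⟩ := h.bdd
    exact ⟨M, fun l => hM _⟩
  inv g l := by
    change μ ((l.map (g * ·)).map e) = μ (l.map e)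
    rw [pi_map_map, h.inv]
  supp l hl := h.supp _ (by rwa [List.length_map])

private theorem pi_Uo {H H' : Type} [Group H] [TopologicalSpace H] [Group H']
    [TopologicalSpace H'] (e : H ≃* H') (he : Continuous e) {k : ℕ} {μ : List H' → ℝ}
    (h : Uo k μ) : Uo k fun l : List H => μ (l.map e) where
  cont := pi_LC he h.cont
  inv g l := by
    change μ ((l.map (g * ·)).map e) = μ (l.map e)
    rw [pi_map_map, h.inv]
  supp l hl := h.supp _ (by rwa [List.length_map])

private theorem pi_Cy {H H' : Type} [Group H] [TopologicalSpace H] [Group H']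
    [TopologicalSpace H'] (e : H ≃* H') (he : Continuous e) {k : ℕ} {μ : List H' → ℝ}
    (h : Cy k μ) : Cy k fun l : List H => μ (l.map e) :=
  ⟨pi_Co e he h.1, fun l => by rw [pi_dl_map]; exact h.2 _⟩

private theorem pi_map_symm {H H' : Type} [Group H] [Group H'] (e : H ≃* H') (l : List H') :
    (l.map e.symm).map e = l := by
  rw [List.map_map]
  conv_rhs => rw [← List.map_id l]
  refine List.map_congr_left fun x _ => ?_
  exact e.apply_symm_apply x

theorem csur_congr {H H' : Type} [Group H] [TopologicalSpace H] [Group H'] [TopologicalSpace H']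
    (e : H ≃* H') (he : Continuous e) (he' : Continuous e.symm) {n : ℕ} (h : CSur H n) :
    CSur H' n := by
  intro f hf hd
  obtain ⟨b, u, hb, hu, hbu⟩ := h (fun l => f (l.map e)) (pi_Uo e he hf) fun l => by
    rw [pi_dl_map]
    exact hd _
  refine ⟨fun l => b (l.map e.symm), fun l => u (l.map e.symm), pi_Cy e.symm he' hb,
    pi_Uo e.symm he' hu, fun l => ?_⟩
  rw [pi_dl_map, ← hbu, pi_map_symm]

theorem good_congr {H H' : Type} [Group H] [TopologicalSpace H] [Group H'] [TopologicalSpace H']
    (e : H ≃* H') (he : Continuous e) (he' : Continuous e.symm) (h : Good H) : Good H' :=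
  fun n hn => ⟨cinj_congr e he he' (h n hn).1, csur_congr e he he' (h n hn).2⟩

theorem good_unit (H : Type) [Group H] [TopologicalSpace H] [Subsingleton H] : Good H := by
  intro n hn
  refine ⟨fun μ hμ _ => van_unit H hn μ hμ, fun f hf hd => ?_⟩
  refine ⟨f, fun _ => 0, ⟨⟨hf.cont, ⟨|f (List.replicate (n + 1) 1)|, fun l => ?_⟩, hf.inv,
    hf.supp⟩, hd⟩, ⟨fun k => continuous_const, fun _ _ => rfl, fun _ _ => rfl⟩, fun l => ?_⟩
  · by_cases hl : l.length = n + 1
    · have h1 : l = List.replicate (n + 1) 1 :=
        List.ext_getElem (by rw [hl, List.length_replicate]) fun i _ _ => Subsingleton.elim _ _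
      rw [h1]
    · rw [hf.supp l hl, abs_zero]
      exact abs_nonneg _
  · have h2 : dl (fun _ : List H => (0 : ℝ)) l = 0 := by
      unfold dl
      simp
    rw [h2, add_zero]

theorem good_prod {H G : Type} [Group H] [TopologicalSpace H] [IsTopologicalGroup H]
    [LocallyCompactSpace H] [FirstCountableTopology H] [T2Space H] [Group G] [TopologicalSpace G]
    [IsTopologicalGroup G] [LocallyCompactSpace G] [FirstCountableTopology G] (D : FData G)
    (E : UData G) (h : Good H) : Good (H × G) := by
  obtain ⟨T, hT⟩ := exists_smt H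
  exact fun n hn => ⟨cinj_prodF D hT hn fun j hj _ => (h j hj).1,
    csur_prodF D E hn fun j hj _ => (h j hj).2⟩

private def piEquiv (k : ℕ) (G : Fin (k + 1) → Type) [∀ i, Group (G i)] :
    (((i : Fin k) → G i.succ) × G 0) ≃* ((i : Fin (k + 1)) → G i) where
  toFun p := Fin.cons p.2 p.1
  invFun w := (fun i => w i.succ, w 0)
  left_inv p := rfl
  right_inv w := by
    funext i
    refine Fin.cases ?_ (fun i => ?_) i
    · rfl
    · rfl
  map_mul' p q := by
    funext i
    refine Fin.cases ?_ (fun i => ?_) i
    · rfl
    · rfl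

private theorem piEquiv_cont (k : ℕ) (G : Fin (k + 1) → Type) [∀ i, Group (G i)]
    [∀ i, TopologicalSpace (G i)] : Continuous (piEquiv k G) := by
  refine continuous_pi fun i => ?_
  refine Fin.cases ?_ (fun i => ?_) i
  · exact continuous_snd
  · exact (continuous_apply i).comp continuous_fst

private theorem piEquiv_cont_symm (k : ℕ) (G : Fin (k + 1) → Type) [∀ i, Group (G i)]
    [∀ i, TopologicalSpace (G i)] : Continuous (piEquiv k G).symm := by
  refine Continuous.prodMk ?_ ?_
  · exact continuous_pi fun i => continuous_apply _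
  · exact continuous_apply _

theorem good_pi (k : ℕ) (G : Fin k → Type) [∀ i, Group (G i)] [∀ i, TopologicalSpace (G i)]
    [∀ i, IsTopologicalGroup (G i)] [∀ i, LocallyCompactSpace (G i)]
    [∀ i, FirstCountableTopology (G i)] [∀ i, T2Space (G i)] (D : ∀ i, FData (G i))
    (E : ∀ i, UData (G i)) : Good ((i : Fin k) → G i) := by
  induction k with
  | zero => exact good_unit _
  | succ k ih =>
    exact good_congr (piEquiv k G) (piEquiv_cont k G) (piEquiv_cont_symm k G)
      (good_prod (D 0) (E 0) (ih (fun i => G i.succ) (fun i => D i.succ) fun i => E i.succ))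

end Pool.Agent.Helper87.BKF
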