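import Pool.Agent.Helper87.BKF.Basic

/-!
# Project BKF: linearity of the functionals (piece BKF-FD)

* `Uo_lin`, `Uo_sum`: continuity of sums and products with constants; invariance, support.
* `lam_zero`: `lam_lin` with `a = b = 0` and `φ = ψ = 0`.
* `lam_sum`: induction on the finite set (see `lam_sum` in `Pool/Agent/Helper87/BK/Chase2.lean`).
* `lam_row`: `dl (fun a => Φ a m) l = ∑ r ∈ range l.length, (-1)^r • Φ (l.eraseIdx r) m` (unfold `dl`), and the same
  for `dl (fun a => lam (Φ a)) l`; use `lam_sum`.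
* `Uo_dl`: for `Uo j ψ` the function `dl ψ` is `Uo (j + 1)` (see `Sel_Cy_dl`, `Sel_LC_dl` in
  `Pool/Agent/Helper87/BK/Sel.lean`; a face of a list of length `≠ j + 1` has length `≠ j`).
-/

open scoped Topology

namespace Pool.Agent.Helper87.BKF
open Pool.Agent.Helper11.BC (dl)
open Pool.Agent.Helper87.BCR
open Pool.Agent.Helper87.BK

variable {G : Type} [Group G] [TopologicalSpace G]

private lemma FD_erase {n : ℕ} (x : Fin (n + 1) → G) (i : Fin (n + 1)) :
    (List.ofFn x).eraseIdx i = List.ofFn fun j : Fin n => x (Fin.succAbove i j) := by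
  apply List.ext_getElem
  · rw [List.length_eraseIdx_of_lt (by rw [List.length_ofFn]; exact i.2), List.length_ofFn,
      List.length_ofFn]
    simp
  · intro m h1 h2
    rw [List.length_ofFn] at h2
    rw [List.getElem_eraseIdx]
    by_cases hm : m < (i : ℕ)
    · rw [dif_pos hm, List.getElem_ofFn, List.getElem_ofFn]
      congr 1
      rw [Fin.succAbove_of_castSucc_lt _ _ (by simpa [Fin.lt_def] using hm)]
      rfl
    · rw [dif_neg hm, List.getElem_ofFn, List.getElem_ofFn]
      congr 1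
      rw [Fin.succAbove_of_le_castSucc _ _ (by simpa [Fin.le_def] using hm)]
      rfl

private lemma FD_LC_dl {Φ : List G → ℝ} (h : LC Φ) : LC (dl Φ) := by
  intro n
  rcases n with _ | n
  · have : (fun v : Fin 0 → G => dl Φ (List.ofFn v)) = fun _ => 0 := by
      funext v
      rw [List.ofFn_zero, dl_nil]
    rw [this]
    exact continuous_const
  · have : (fun v : Fin (n + 1) → G => dl Φ (List.ofFn v)) = fun v =>
        ∑ i : Fin (n + 1), (-1 : ℝ) ^ (i : ℕ) *
          Φ (List.ofFn fun j : Fin n => v (Fin.succAbove i j)) := by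
      funext v
      unfold dl
      rw [List.length_ofFn, Finset.sum_range]
      refine Finset.sum_congr rfl fun i _ => ?_
      rw [FD_erase, smul_eq_mul]
    rw [this]
    refine continuous_finsetSum _ fun i _ => continuous_const.mul ?_
    exact (h n).comp (continuous_pi fun j => continuous_apply _)

theorem Uo_of_Co {k : ℕ} {φ : List G → ℝ} (h : Co k φ) : Uo k φ :=
  ⟨h.cont, h.inv, h.supp⟩

theorem Uo_zero (k : ℕ) : Uo k (fun _ : List G => (0 : ℝ)) :=
  ⟨fun _ => continuous_const, fun _ _ => rfl, fun _ _ => rfl⟩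

theorem Uo_lin {k : ℕ} {φ ψ : List G → ℝ} (a b : ℝ) (hφ : Uo k φ) (hψ : Uo k ψ) :
    Uo k (fun m => a * φ m + b * ψ m) := by
  refine ⟨fun r => ?_, fun g l => ?_, fun l hl => ?_⟩
  · exact (continuous_const.mul (hφ.cont r)).add (continuous_const.mul (hψ.cont r))
  · show a * φ (l.map (g * ·)) + b * ψ (l.map (g * ·)) = a * φ l + b * ψ l
    rw [hφ.inv, hψ.inv]
  · show a * φ l + b * ψ l = 0
    rw [hφ.supp l hl, hψ.supp l hl, mul_zero, mul_zero, add_zero]

theorem Uo_sum {k : ℕ} {ι : Type} (s : Finset ι) (c : ι → ℝ) (φ : ι → List G → ℝ)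
    (hφ : ∀ i ∈ s, Uo k (φ i)) : Uo k (fun m => ∑ i ∈ s, c i * φ i m) := by
  refine ⟨fun r => ?_, fun g l => ?_, fun l hl => ?_⟩
  · exact continuous_finsetSum _ fun i hi => continuous_const.mul ((hφ i hi).cont r)
  · refine Finset.sum_congr rfl fun i hi => ?_
    rw [(hφ i hi).inv]
  · refine Finset.sum_eq_zero fun i hi => ?_
    rw [(hφ i hi).supp l hl, mul_zero]

theorem Uo_dl {k : ℕ} {φ : List G → ℝ} (hφ : Uo k φ) : Uo (k + 1) (dl φ) := by
  refine ⟨FD_LC_dl hφ.cont, fun g l => ?_, fun l hl => ?_⟩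
  · unfold dl
    rw [List.length_map]
    refine Finset.sum_congr rfl fun i _ => ?_
    rw [List.eraseIdx_map, hφ.inv]
  · unfold dl
    refine Finset.sum_eq_zero fun i hi => ?_
    rw [Finset.mem_range] at hi
    rw [hφ.supp, smul_zero]
    rw [List.length_eraseIdx_of_lt hi]
    omega

theorem FData.lam_zero (D : FData G) (j : ℕ) (i : Fin (D.N j)) : D.lam j i (fun _ => 0) = 0 := by
  have h := D.lam_lin j i (fun _ => 0) (fun _ => 0) 0 0 (Uo_zero _) (Uo_zero _)
  simpa using h

theorem FData.lam_sum (D : FData G) (j : ℕ) (i : Fin (D.N j)) {ι : Type} (s : Finset ι)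
    (c : ι → ℝ) (φ : ι → List G → ℝ) (hφ : ∀ a ∈ s, Uo (j + 1) (φ a)) :
    D.lam j i (fun m => ∑ a ∈ s, c a * φ a m) = ∑ a ∈ s, c a * D.lam j i (φ a) := by
  classical
  induction s using Finset.induction_on with
  | empty =>
    simp only [Finset.sum_empty]
    exact D.lam_zero j i
  | insert a s ha ih =>
    have h1 : (fun m => ∑ i ∈ insert a s, c i * φ i m) =
        fun m => c a * φ a m + 1 * (∑ i ∈ s, c i * φ i m) := by
      funext m
      rw [Finset.sum_insert ha, one_mul]
    have h2 : ∀ b ∈ s, Uo (j + 1) (φ b) := fun b hb => hφ b (Finset.mem_insert_of_mem hb)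
    rw [h1, D.lam_lin _ _ _ _ _ _ (hφ a (Finset.mem_insert_self _ _)) (Uo_sum s c φ h2), ih h2,
      Finset.sum_insert ha, one_mul]

theorem FData.lam_smul (D : FData G) (j : ℕ) (i : Fin (D.N j)) (c : ℝ) (φ : List G → ℝ)
    (hφ : Uo (j + 1) φ) : D.lam j i (fun m => c * φ m) = c * D.lam j i φ := by
  have h := D.lam_lin j i φ (fun _ => 0) c 0 hφ (Uo_zero _)
  simpa using h

theorem FData.lam_row {X : Type} (D : FData G) (j : ℕ) (i : Fin (D.N j))
    (Φ : List X → List G → ℝ) (hΦ : ∀ a, Uo (j + 1) (Φ a)) (l : List X) :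
    D.lam j i (fun m => dl (fun a => Φ a m) l) = dl (fun a => D.lam j i (Φ a)) l := by
  have h := D.lam_sum j i (Finset.range l.length) (fun r => (-1 : ℝ) ^ r)
    (fun r => Φ (l.eraseIdx r)) fun r _ => hΦ _
  exact h

end Pool.Agent.Helper87.BKF
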