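import Pool.Agent.Helper87.BKF.Reg
import Pool.Agent.Helper87.BKF.FD

/-!
# Project BKF: the coefficients of the classes (piece BKF-MU)

`mu_Cb`.  For every `l` the function `Φ l` is `Uo (k + 1)` (`InK_LPU_right`, invariance with `h = 1`, support).
* support: `Φ l = 0` for `l.length ≠ p`, `lam_zero`.  Invariance: `Φ (l.map (h * ·)) = Φ l` (`hinv` with `g = 1`).
* continuity (`LC`): for `v₀ : Fin r → H`; if `r ≠ p` the function is zero.  For `r = p` apply `hL` with
  `Z = (Fin p → H)`, `W = (Fin (k + 1) → G)`, `l = List.ofFn (fun i v => v i)`, `m = List.ofFn (fun i w => w i)`: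
  for `v` near `v₀`, `|Φ (ofFn v) (ofFn w) - Φ (ofFn v₀) (ofFn w)| ≤ δ` for all `w`, so (`lam_bd` applied to the
  difference, `lam_lin` with `a = 1`, `b = -1`) `|lam (Φ (ofFn v)) - lam (Φ (ofFn v₀))| ≤ |C k| * δ`.
* bound: if `β`, `hP` gives `M` with `|Φ (ofFn v) (ofFn w)| ≤ M` for `v : Fin p → H`, so
  `|lam (Φ l)| ≤ |C k| * |M|` for `l.length = p`, and `0` otherwise.
See also `Pool/Agent/Helper87/BK/Chase2.lean`, where this is done for one functional.
-/

open scoped Topology

namespace Pool.Agent.Helper87.BKF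
open Pool.Agent.Helper11.BC (dl)
open Pool.Agent.Helper87.BCR
open Pool.Agent.Helper87.BK

variable {H G : Type} [Group H] [TopologicalSpace H] [Group G] [TopologicalSpace G]

/-- the coordinates form a list -/
private theorem mu_one {X : Type} (k : ℕ) (z : Fin k → X) :
    (List.ofFn fun i : Fin k => fun z : Fin k → X => z i).map (fun e => e z) = List.ofFn z := by
  rw [List.map_ofFn]
  rfl

private theorem mu_onec {X : Type} [TopologicalSpace X] (k : ℕ) :
    ∀ e ∈ (List.ofFn fun i : Fin k => fun z : Fin k → X => z i), Continuous e := by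
  intro e he
  obtain ⟨i, rfl⟩ := (List.mem_ofFn' _ _).1 he
  exact continuous_apply i

/-- every list of length `k` is a list of values -/
private theorem mu_exists {A : Type} {k : ℕ} (l : List A) (hl : l.length = k) :
    ∃ v : Fin k → A, List.ofFn v = l := by
  subst hl
  exact ⟨l.get, List.ofFn_get l⟩

theorem row_Uo {k : ℕ} {Φ : List H → List G → ℝ} (hJ : InK JCc Φ)
    (hinv : ∀ (h : H) (g : G) l m, Φ (l.map (h * ·)) (m.map (g * ·)) = Φ l m)
    (hsupp : ∀ (l : List H) (m : List G), m.length ≠ k → Φ l m = 0) (l : List H) :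
    Uo k (Φ l) := by
  refine ⟨InK_JC_right hJ l, fun g m => ?_, fun m hm => hsupp l m hm⟩
  have h := hinv 1 g l m
  have h1 : l.map ((1 : H) * ·) = l := by
    simp
  rwa [h1] at h

theorem mu_Cb (D : FData G) {β : Prop} {k p : ℕ} (Φ : List H → List G → ℝ) (hL : InK LPUc Φ)
    (hP : β → InK PUc Φ)
    (hinv : ∀ (h : H) (g : G) l m, Φ (l.map (h * ·)) (m.map (g * ·)) = Φ l m)
    (hsupp : ∀ (l : List H) (m : List G), l.length ≠ p ∨ m.length ≠ k + 1 → Φ l m = 0)
    (i : Fin (D.N k)) : Cb β p (fun l => D.lam k i (Φ l)) := by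
  have hrow : ∀ l, Uo (k + 1) (Φ l) := fun l =>
    row_Uo (InK_LPU_JC hL) hinv (fun l m hm => hsupp l m (Or.inr hm)) l
  have hz : ∀ l : List H, l.length ≠ p → D.lam k i (Φ l) = 0 := by
    intro l hl
    have h1 : Φ l = fun _ => 0 := by
      funext m
      exact hsupp l m (Or.inl hl)
    rw [h1]
    exact D.lam_zero k i
  have hbd : ∀ (φ : List G → ℝ) (M : ℝ), 0 ≤ M → Uo (k + 1) φ →
      (∀ w : Fin (k + 1) → G, |φ (List.ofFn w)| ≤ M) → |D.lam k i φ| ≤ |D.C k| * M := by
    intro φ M hM hφ hb
    refine (D.lam_bd k i φ M hM hφ fun x _ => hb x).trans ?_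
    exact mul_le_mul_of_nonneg_right (le_abs_self _) hM
  refine ⟨fun r => ?_, fun hβ => ?_, fun g l => ?_, hz⟩
  · by_cases hr : r = p
    · subst hr
      rw [continuous_iff_continuousAt]
      intro v₀
      rw [ContinuousAt, Metric.tendsto_nhds]
      intro ε hε
      have hC : 0 < |D.C k| + 1 := by positivity
      have hδ : 0 < ε / (2 * (|D.C k| + 1)) := by positivity
      obtain ⟨-, -, hu⟩ := hL (Fin r → H) (Fin (k + 1) → G) _ _ (mu_onec r) (mu_onec (k + 1))
      filter_upwards [hu v₀ _ hδ] with v hv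
      have hv' : ∀ w : Fin (k + 1) → G,
          |Φ (List.ofFn v) (List.ofFn w) - Φ (List.ofFn v₀) (List.ofFn w)| ≤
            ε / (2 * (|D.C k| + 1)) := by
        intro w
        have h := hv w
        beta_reduce at h
        rwa [mu_one, mu_one, mu_one] at h
      have h1 := D.lam_lin k i (Φ (List.ofFn v)) (Φ (List.ofFn v₀)) 1 (-1) (hrow _) (hrow _)
      have h2 := hbd (fun m => 1 * Φ (List.ofFn v) m + (-1) * Φ (List.ofFn v₀) m) _ hδ.le
        (Uo_lin 1 (-1) (hrow _) (hrow _)) (fun w => by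
          have h3 := hv' w
          have h4 : 1 * Φ (List.ofFn v) (List.ofFn w) + (-1) * Φ (List.ofFn v₀) (List.ofFn w) =
              Φ (List.ofFn v) (List.ofFn w) - Φ (List.ofFn v₀) (List.ofFn w) := by ring
          beta_reduce
          rwa [h4])
      rw [h1] at h2
      rw [Real.dist_eq]
      have h5 : D.lam k i (Φ (List.ofFn v)) - D.lam k i (Φ (List.ofFn v₀)) =
          1 * D.lam k i (Φ (List.ofFn v)) + (-1) * D.lam k i (Φ (List.ofFn v₀)) := by ring
      rw [h5]
      refine h2.trans_lt ?_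
      rw [← mul_div_assoc, div_lt_iff₀ (by positivity)]
      nlinarith [abs_nonneg (D.C k)]
    · have h1 : (fun v : Fin r → H => D.lam k i (Φ (List.ofFn v))) = fun _ => 0 := by
        funext v
        exact hz _ (by rw [List.length_ofFn]; exact hr)
      show Continuous fun v : Fin r → H => D.lam k i (Φ (List.ofFn v))
      rw [h1]
      exact continuous_const
  · obtain ⟨⟨M, hM⟩, -, -⟩ :=
      hP hβ (Fin p → H) (Fin (k + 1) → G) _ _ (mu_onec p) (mu_onec (k + 1))
    refine ⟨|D.C k| * |M|, fun l => ?_⟩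
    by_cases hl : l.length = p
    · obtain ⟨v, rfl⟩ := mu_exists l hl
      refine hbd _ _ (abs_nonneg M) (hrow _) fun w => ?_
      have h := hM v w
      beta_reduce at h
      rw [mu_one, mu_one] at h
      exact h.trans (le_abs_self M)
    · beta_reduce
      rw [hz l hl, abs_zero]
      positivity
  · have h1 : Φ (l.map (g * ·)) = Φ l := by
      funext m
      have h := hinv g 1 l m
      have h2 : m.map ((1 : G) * ·) = m := by
        simp
      rwa [h2] at h
    beta_reduce
    rw [h1]

end Pool.Agent.Helper87.BKF
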