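import Pool.Agent.Helper87.BKF.Cut
import Pool.Agent.Helper87.BKF.Mu

/-!
# Project BKF: compactness (piece BKF-CPT)

* `cpt_near`: `InK JCc Φ` with `W = (Fin r → G)` and `m = List.ofFn fun i w => w i` says that
  `(z, w) ↦ Φ (l.map (· z)) (List.ofFn w)` is jointly continuous.  `D` is compact: for every `w₀` in `D` there are
  neighbourhoods `U` of `z₀` and `N` of `w₀` with `|F z w - F z₀ w₀| ≤ ε / 2` on `U × N`, hence
  `|F z w - F z₀ w| ≤ ε` on `U × N`; finitely many `N` cover `D` (`IsCompact.elim_nhds_subcover`), or use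
  `generalized_tube_lemma`, or the curried continuous map `ContinuousMap.curry`.
* `kap_Uo`: see the docstring of `Inj.lean`: with `Vc a m = if m.length = j + 1 then V a m else 0`
  (`InK_cut cls_JC`, `row_Uo`).  Support: `V a m = 0` unless `a ≠ []`, `a.length + m.length = n + 1`.
-/

open scoped Topology

namespace Pool.Agent.Helper87.BKF
open Pool.Agent.Helper11.BC (dl)
open Pool.Agent.Helper87.BCR
open Pool.Agent.Helper87.BK

variable {H G : Type} [Group H] [TopologicalSpace H] [Group G] [TopologicalSpace G]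

theorem cpt_near {Φ : List H → List G → ℝ} (hJ : InK JCc Φ) {r : ℕ} {D : Set (Fin r → G)}
    (hD : IsCompact D) {Z : Type} [TopologicalSpace Z] (l : List (Z → H))
    (hl : ∀ e ∈ l, Continuous e) (z₀ : Z) {ε : ℝ} (hε : 0 < ε) :
    ∀ᶠ z in 𝓝 z₀, ∀ w ∈ D,
      |Φ (l.map fun e => e z) (List.ofFn w) - Φ (l.map fun e => e z₀) (List.ofFn w)| ≤ ε := by
  have h := hJ Z (Fin r → G) l (List.ofFn fun i (w : Fin r → G) => w i) hl (by
    intro e he
    obtain ⟨i, rfl⟩ := (List.mem_ofFn' _ _).1 he
    exact continuous_apply i)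
  have e1 : ∀ w : Fin r → G, (List.ofFn fun i (w : Fin r → G) => w i).map (fun e => e w) =
      List.ofFn w := by
    intro w
    rw [List.map_ofFn]
    rfl
  have h1 : Continuous fun p : Z × (Fin r → G) => Φ (l.map fun e => e p.1) (List.ofFn p.2) := by
    have h2 : (fun p : Z × (Fin r → G) => Φ (l.map fun e => e p.1) (List.ofFn p.2)) =
        fun p : Z × (Fin r → G) => Φ (l.map fun e => e p.1)
          ((List.ofFn fun i (w : Fin r → G) => w i).map fun e => e p.2) := by
      funext p
      rw [e1]
    rw [h2]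
    exact h
  refine hD.eventually_forall_of_forall_eventually (P := fun z w =>
    |Φ (l.map fun e => e z) (List.ofFn w) - Φ (l.map fun e => e z₀) (List.ofFn w)| ≤ ε) ?_
  intro w _
  have h3 : Continuous fun p : Z × (Fin r → G) =>
      |Φ (l.map fun e => e p.1) (List.ofFn p.2) - Φ (l.map fun e => e z₀) (List.ofFn p.2)| :=
    (h1.sub (h1.comp (continuous_const.prodMk continuous_snd))).abs
  have h4 := h3.continuousAt (x := (z₀, w))
  have h5 : (fun p : Z × (Fin r → G) =>
      |Φ (l.map fun e => e p.1) (List.ofFn p.2) - Φ (l.map fun e => e z₀) (List.ofFn p.2)|)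
        (z₀, w) < ε := by
    change |Φ (l.map fun e => e z₀) (List.ofFn w) - Φ (l.map fun e => e z₀) (List.ofFn w)| < ε
    rw [sub_self, abs_zero]
    exact hε
  exact (h4.eventually_lt_const h5).mono fun p hp => hp.le

private theorem cpt_row (j n : ℕ) (V : List H → List G → ℝ) (hV : Vo (n + 1) V) (a : List H) :
    Uo (j + 1) (fun m => if m.length = j + 1 then V a m else 0) := by
  refine row_Uo (Φ := fun a m => if m.length = j + 1 then V a m else 0)
    (InK_cut cls_JC hV.reg (j + 1)) ?_ ?_ a
  · intro h g l m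
    simp only [List.length_map, hV.inv h g l m]
  · intro l m hm
    simp only [if_neg hm]

private theorem cpt_inv (j n : ℕ) (V : List H → List G → ℝ) (hV : Vo (n + 1) V) (h : H)
    (a : List H) :
    (fun m : List G => if m.length = j + 1 then V (a.map (h * ·)) m else 0) =
      fun m => if m.length = j + 1 then V a m else 0 := by
  funext m
  have h1 := hV.inv h 1 a m
  have h2 : m.map (fun x => (1 : G) * x) = m := by simp
  rw [h2] at h1
  rw [h1]

private theorem cpt_lam (D : FData G) (j : ℕ) (i : Fin (D.N j)) {φ ψ : List G → ℝ}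
    (hφ : Uo (j + 1) φ) (hψ : Uo (j + 1) ψ) {δ : ℝ} (hδ : 0 ≤ δ)
    (h : ∀ x ∈ D.D j, |φ (List.ofFn x) - ψ (List.ofFn x)| ≤ δ) :
    |D.lam j i φ - D.lam j i ψ| ≤ |D.C j| * δ := by
  have h1 := D.lam_lin j i φ ψ 1 (-1) hφ hψ
  have h2 := D.lam_bd j i (fun m => 1 * φ m + (-1) * ψ m) δ hδ (Uo_lin 1 (-1) hφ hψ) (by
    intro x hx
    have h3 := h x hx
    have h4 : 1 * φ (List.ofFn x) + (-1) * ψ (List.ofFn x) =
        φ (List.ofFn x) - ψ (List.ofFn x) := by ring
    rw [h4]
    exact h3)
  have h5 : D.lam j i φ - D.lam j i ψ = 1 * D.lam j i φ + (-1) * D.lam j i ψ := by ring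
  rw [h5, ← h1]
  exact h2.trans (mul_le_mul_of_nonneg_right (le_abs_self _) hδ)

theorem kap_Uo (D : FData G) {n j : ℕ} (V : List H → List G → ℝ) (hV : Vo (n + 1) V)
    (i : Fin (D.N j)) :
    Uo (n - j) (fun a => D.lam j i (fun m => if m.length = j + 1 then V a m else 0)) := by
  refine ⟨?_, ?_, ?_⟩
  · intro k
    rw [continuous_iff_continuousAt]
    intro v₀
    rw [ContinuousAt, Metric.tendsto_nhds]
    intro ε hε
    have hC : 0 < |D.C j| + 1 := by positivity
    have hδ : 0 < ε / (|D.C j| + 1) := div_pos hε hC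
    have h1 := cpt_near (InK_cut cls_JC hV.reg (j + 1)) (D.hD j)
      (List.ofFn fun i (v : Fin k → H) => v i) (by
        intro e he
        obtain ⟨i, rfl⟩ := (List.mem_ofFn' _ _).1 he
        exact continuous_apply i) v₀ hδ
    have e1 : ∀ v : Fin k → H, (List.ofFn fun i (v : Fin k → H) => v i).map (fun e => e v) =
        List.ofFn v := by
      intro v
      rw [List.map_ofFn]
      rfl
    refine h1.mono fun v hv => ?_
    rw [e1, e1] at hv
    rw [Real.dist_eq]
    have h2 := cpt_lam D j i (cpt_row j n V hV (List.ofFn v)) (cpt_row j n V hV (List.ofFn v₀))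
      hδ.le hv
    refine lt_of_le_of_lt h2 ?_
    rw [← mul_div_assoc, div_lt_iff₀ hC, mul_comm]
    exact mul_lt_mul_of_pos_left (lt_add_one _) hε
  · intro h a
    exact congrArg (D.lam j i) (cpt_inv j n V hV h a)
  · intro a ha
    have h1 : (fun m : List G => if m.length = j + 1 then V a m else 0) = fun _ => 0 := by
      funext m
      split_ifs with hm
      · apply hV.supp
        by_cases ha0 : a = []
        · exact Or.inl ha0
        · refine Or.inr (Or.inr ?_)
          omega
      · rfl
    change D.lam j i (fun m : List G => if m.length = j + 1 then V a m else 0) = 0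
    rw [h1]
    exact D.lam_zero j i

theorem kap_zero (D : FData G) {n j : ℕ} (hj : n ≤ j) (V : List H → List G → ℝ)
    (hV : Vo (n + 1) V) (i : Fin (D.N j)) (a : List H) :
    D.lam j i (fun m => if m.length = j + 1 then V a m else 0) = 0 := by
  have h1 : (fun m : List G => if m.length = j + 1 then V a m else 0) = fun _ => 0 := by
    funext m
    split_ifs with hm
    · apply hV.supp
      by_cases ha0 : a = []
      · exact Or.inl ha0
      · refine Or.inr (Or.inr ?_)
        have := List.length_pos_iff.2 ha0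
        omega
    · rfl
  rw [h1]
  exact D.lam_zero j i

end Pool.Agent.Helper87.BKF
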