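import Pool.Agent.Helper87.BKF.Basic

/-!
# Project BKF: cuts and products (piece BKF-CUT)

* `InK_cut`, `InK_ge`: `(m.map _).length = m.length`, so the family is either the old one or the zero family
  (`Cls.zero`); see `Ko_cut` in `Pool/Agent/Helper87/BK/Ko.lean`.
* `InK_sub`, `InK_smul`, `InK_sum`: `Cls.add`, `Cls.smul`, induction on the finite set.
* `InK_mul_LPU`: `fun z w => μ (l.map (· z)) * ε (m.map (· w))`: `μ (l.map (· z))` is continuous in `z`
  (`LC`; see `Ko_cont` in `BK/Ko.lean`), `ε` is continuous and bounded by `M`; choose the neighbourhood with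
  `|μ .. - μ ..| ≤ δ / (|M| + 1)`.  `InK_mul_PU`: the same with `μ` bounded (`Ko_mul` in `BK/Ko.lean`).
-/

open scoped Topology

namespace Pool.Agent.Helper87.BKF
open Pool.Agent.Helper11.BC (dl)
open Pool.Agent.Helper87.BCR
open Pool.Agent.Helper87.BK

section

variable {X Y : Type} [TopologicalSpace X] [TopologicalSpace Y]
  {P : ∀ (Z W : Type) [TopologicalSpace Z] [TopologicalSpace W], (Z → W → ℝ) → Prop}

theorem InK_cut (hP : Cls P) {Φ : List X → List Y → ℝ} (h : InK P Φ) (j : ℕ) :
    InK P (fun l m => if m.length = j then Φ l m else 0) := by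
  intro Z W _ _ l m hl hm
  by_cases hj : m.length = j
  · have h1 := h Z W l m hl hm
    convert h1 using 3
    beta_reduce
    rw [List.length_map, if_pos hj]
  · have h1 := hP.zero Z W
    convert h1 using 3
    beta_reduce
    rw [List.length_map, if_neg hj]

theorem InK_ge (hP : Cls P) {Φ : List X → List Y → ℝ} (h : InK P Φ) (j : ℕ) :
    InK P (fun l m => if j ≤ m.length then Φ l m else 0) := by
  intro Z W _ _ l m hl hm
  by_cases hj : j ≤ m.length
  · have h1 := h Z W l m hl hm
    convert h1 using 3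
    beta_reduce
    rw [List.length_map, if_pos hj]
  · have h1 := hP.zero Z W
    convert h1 using 3
    beta_reduce
    rw [List.length_map, if_neg hj]

theorem InK_zero (hP : Cls P) : InK P (fun (_ : List X) (_ : List Y) => (0 : ℝ)) := by
  intro Z W _ _ l m hl hm
  exact hP.zero Z W

theorem InK_smul (hP : Cls P) (c : ℝ) {Φ : List X → List Y → ℝ} (h : InK P Φ) :
    InK P (fun l m => c * Φ l m) := by
  intro Z W _ _ l m hl hm
  exact hP.smul Z W c _ (h Z W l m hl hm)

theorem InK_add (hP : Cls P) {Φ Ψ : List X → List Y → ℝ} (h : InK P Φ) (h' : InK P Ψ) :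
    InK P (fun l m => Φ l m + Ψ l m) := by
  intro Z W _ _ l m hl hm
  exact hP.add Z W _ _ (h Z W l m hl hm) (h' Z W l m hl hm)

theorem InK_sub (hP : Cls P) {Φ Ψ : List X → List Y → ℝ} (h : InK P Φ) (h' : InK P Ψ) :
    InK P (fun l m => Φ l m - Ψ l m) := by
  intro Z W _ _ l m hl hm
  have h1 := hP.add Z W _ _ (h Z W l m hl hm) (hP.smul Z W (-1) _ (h' Z W l m hl hm))
  convert h1 using 3
  ring

theorem InK_sum (hP : Cls P) {ι : Type} (s : Finset ι) {Φ : ι → List X → List Y → ℝ}
    (h : ∀ i, InK P (Φ i)) : InK P (fun l m => ∑ i ∈ s, Φ i l m) := by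
  classical
  induction s using Finset.induction_on with
  | empty =>
    simp only [Finset.sum_empty]
    exact InK_zero hP
  | insert a s ha ih =>
    simp only [Finset.sum_insert ha]
    exact InK_add hP (h a) ih

end

private theorem Cut_cont {A V : Type} [TopologicalSpace A] [TopologicalSpace V] {φ : List A → ℝ}
    (h : LC φ) (l : List (V → A)) (hl : ∀ e ∈ l, Continuous e) :
    Continuous fun v => φ (l.map fun e => e v) := by
  have h1 : (fun v => φ (l.map fun e => e v)) =
      fun v => (fun u : Fin l.length → A => φ (List.ofFn u)) (fun i => l.get i v) := by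
    funext v
    show φ _ = φ _
    congr 1
    apply List.ext_getElem
    · simp
    · intro i hi1 hi2
      simp
  rw [h1]
  exact (h l.length).comp (continuous_pi fun i => hl _ (List.get_mem l i))

variable {H G : Type} [Group H] [TopologicalSpace H] [Group G] [TopologicalSpace G]

theorem InK_mul_LPU {j : ℕ} {μ : List H → ℝ} {ε : List G → ℝ} (hμ : LC μ) (hε : Co j ε) :
    InK LPUc (fun l m => μ l * ε m) := by
  obtain ⟨M2, hM2⟩ := hε.bdd
  have hM2' : 0 ≤ M2 := (abs_nonneg _).trans (hM2 [])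
  intro Z W _ _ l m hl hm
  refine ⟨fun z => ⟨|μ (l.map fun e => e z)| * M2, fun w => ?_⟩, fun z => ?_, fun z₀ δ hδ => ?_⟩
  · rw [abs_mul]
    exact mul_le_mul_of_nonneg_left (hM2 _) (abs_nonneg _)
  · exact continuous_const.mul (Cut_cont hε.cont m hm)
  · have hc := (Cut_cont hμ l hl).continuousAt (x := z₀)
    have h1 : 0 < δ / (M2 + 1) := by positivity
    have h2 := Metric.continuousAt_iff'.1 hc (δ / (M2 + 1)) h1
    filter_upwards [h2] with z hz
    intro w
    rw [Real.dist_eq] at hz
    show |μ _ * ε _ - μ _ * ε _| ≤ δ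
    rw [← sub_mul, abs_mul]
    calc |μ (l.map fun e => e z) - μ (l.map fun e => e z₀)| * |ε (m.map fun e => e w)| ≤
        δ / (M2 + 1) * M2 := mul_le_mul hz.le (hM2 _) (abs_nonneg _) h1.le
      _ ≤ δ / (M2 + 1) * (M2 + 1) := by
          apply mul_le_mul_of_nonneg_left _ h1.le
          linarith
      _ = δ := div_mul_cancel₀ _ (by positivity)

theorem InK_mul_PU {j : ℕ} {μ : List H → ℝ} {ε : List G → ℝ} (hμ : LC μ)
    (hb : ∃ M : ℝ, ∀ l, |μ l| ≤ M) (hε : Co j ε) : InK PUc (fun l m => μ l * ε m) := by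
  obtain ⟨M1, hM1⟩ := hb
  obtain ⟨M2, hM2⟩ := hε.bdd
  have hM1' : 0 ≤ M1 := (abs_nonneg _).trans (hM1 [])
  intro Z W _ _ l m hl hm
  obtain ⟨-, h1, h2⟩ := InK_mul_LPU hμ hε Z W l m hl hm
  refine ⟨⟨M1 * M2, fun z w => ?_⟩, h1, h2⟩
  rw [abs_mul]
  exact mul_le_mul (hM1 _) (hM2 _) (abs_nonneg _) hM1'

theorem InK_mul_JC {μ : List H → ℝ} {ε : List G → ℝ} (hμ : LC μ) (hε : LC ε) :
    InK JCc (fun l m => μ l * ε m) := by
  intro Z W _ _ l m hl hm
  exact ((Cut_cont hμ l hl).comp continuous_fst).mul ((Cut_cont hε m hm).comp continuous_snd)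

end Pool.Agent.Helper87.BKF
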