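import Pool.Agent.Helper87.BKF.Norm

/-!
# Project BKF: from the double complex to the product group (piece BKF-DEC)

* `sh_Vo`: as `Cmp_sh_Vo` (private) in `Pool/Agent/Helper87/BK/Cmp.lean`: `LC_InC_JC`, `InC.sh cls_JC`, `sh_map`,
  `sh_nil_left`, `sh_nil_right`, `sh_congr` for the support.
* `aw_Vo`: as `aw_Ko` in `Pool/Agent/Helper87/BK/Kun.lean`: `InK.aw cls_JC`, `InC_JC_LC`, `aw_map`, `aw_congr`.
* `aw_one`: see `e2` in the proof of `kunneth` (`BK/Kun.lean`).
* `aw_sum`: induction with `aw_add`.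
* `aw_normal`: `aw_congr`, `aw_add`, `aw_dl` (`aw (DD Ψ) = dl (aw Ψ)`), `aw_one`, `aw_sum`.
* `fst_dl`, `fst_Co`, `fst_Uo`: see `Cmp_dl_map`, `Cmp_fst` in `BK/Cmp.lean` (private there).
* `aw_mul_dl`: for `ν [] = 0` and a cocycle `ε` with `ε [] = 0`: `aw (dl ν ⊗ ε) l = dl (aw (ν ⊗ ε)) l`: `aw_congr` with `DD_mul`,
  `aw_dl`.
-/

open scoped Topology

namespace Pool.Agent.Helper87.BKF
open Pool.Agent.Helper11.BC (dl)
open Pool.Agent.Helper87.BCR
open Pool.Agent.Helper87.BK

section

variable {X Y : Type}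

theorem aw_one (μ : List X → ℝ) (h0 : μ [] = 0) (l : List (X × Y)) :
    aw (fun (a : List X) (b : List Y) => if b.length = 1 then μ a else 0) l =
      μ (l.map Prod.fst) := by
  rcases l with _ | ⟨w, l⟩
  · rw [List.map_nil, h0]
    rfl
  · have h1 := aw_eq (fun (a : List X) (b : List Y) => if b.length = 1 then μ a else 0) 0
      (fun l m hm => if_neg hm) (w :: l) (by simp)
    rw [h1, if_pos]
    · rw [Nat.sub_zero, List.take_length]
    · rw [List.length_map, List.length_drop, List.length_cons]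
      omega

private theorem Dec_aw_zero (Φ : List X → List Y → ℝ) (l : List (X × Y))
    (h : ∀ a b, a ≠ [] → b ≠ [] → a.length + b.length = l.length + 1 → Φ a b = 0) :
    aw Φ l = 0 := by
  have h1 : aw Φ l = aw (fun a b => 0 * Φ a b) l := by
    refine aw_congr _ _ l fun a b ha hb hab => ?_
    rw [h a b ha hb hab, mul_zero]
  rw [h1, aw_smul, zero_mul]

private theorem Dec_sh_zero (f : List (X × Y) → ℝ) (l : List X) (m : List Y)
    (h : ∀ t : List (X × Y), t.length + 1 = l.length + m.length → f t = 0) :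
    sh f l m = 0 := by
  have h1 : sh f l m = sh (fun t => 0 * f t) l m := by
    refine sh_congr _ _ l m fun t ht => ?_
    rw [h t ht, mul_zero]
  rw [h1, sh_smul, zero_mul]

theorem aw_sum {ι : Type} (s : Finset ι) (Φ : ι → List X → List Y → ℝ) (l : List (X × Y)) :
    aw (fun a b => ∑ i ∈ s, Φ i a b) l = ∑ i ∈ s, aw (Φ i) l := by
  classical
  induction s using Finset.induction_on with
  | empty =>
    simp only [Finset.sum_empty]
    exact Dec_aw_zero _ l fun _ _ _ _ _ => rfl
  | insert i s hi ih =>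
    simp only [Finset.sum_insert hi]
    rw [aw_add (Φ i) (fun a b => ∑ i ∈ s, Φ i a b), ih]

theorem fst_dl (φ : List X → ℝ) (l : List (X × Y)) :
    dl (fun t : List (X × Y) => φ (t.map Prod.fst)) l = dl φ (l.map Prod.fst) := by
  unfold Helper11.BC.dl
  rw [List.length_map]
  refine Finset.sum_congr rfl fun i _ => ?_
  rw [List.eraseIdx_map]

theorem aw_mul_dl (ν : List X → ℝ) (ε : List Y → ℝ) (hν : ν [] = 0) (hε : ∀ m, dl ε m = 0)
    (h0 : ε [] = 0) (l : List (X × Y)) :
    aw (fun a b => dl ν a * ε b) l = dl (aw fun a b => ν a * ε b) l := by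
  rw [← aw_dl (fun a b => ν a * ε b) (fun m => by rw [hν, zero_mul])
    (fun l => by rw [h0, mul_zero])]
  refine aw_congr _ _ l fun a b ha hb _ => ?_
  have e1 : dl (fun a => ν a * ε b) a = ε b * dl ν a := by
    rw [← dl_smul]
    exact dl_congr _ _ a fun t _ => mul_comm _ _
  have e2 : dl (fun b => ν a * ε b) b = ν a * dl ε b := dl_smul _ _ _
  rw [DD_of_ne _ ha hb, e1]
  show _ = _ + _ * dl (fun b => ν a * ε b) b
  rw [e2, hε]
  ring

end

variable {H G : Type} [Group H] [TopologicalSpace H] [Group G] [TopologicalSpace G]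

theorem sh_Vo {n : ℕ} {u : List (H × G) → ℝ} (hu : Uo n u) : Vo (n + 1) (sh u) where
  reg := (LC_InC_JC hu.cont).sh cls_JC
  inv := by
    intro h g l m
    have hi : (fun t : List (H × G) => u (t.map fun e => (h * e.1, g * e.2))) = u :=
      funext fun t => hu.inv (h, g) t
    rw [← sh_map, hi]
  supp := by
    rintro l m (h | h | h)
    · rw [h, sh_nil_left]
    · rw [h, sh_nil_right]
    · exact Dec_sh_zero _ _ _ fun t ht => hu.supp t (by omega)

theorem aw_Vo {n : ℕ} {Ψ : List H → List G → ℝ} (h : Vo (n + 1) Ψ) : Uo n (aw Ψ) where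
  cont := InC_JC_LC (h.reg.aw cls_JC)
  inv := by
    intro g l
    have h3 := aw_map Ψ (g.1 * ·) (g.2 * ·) l
    have h4 : (fun (s : List H) (t : List G) => Ψ (s.map (g.1 * ·)) (t.map (g.2 * ·))) = Ψ := by
      funext s t
      exact h.inv g.1 g.2 s t
    rw [h4] at h3
    exact h3.symm
  supp := by
    intro l hl
    apply Dec_aw_zero
    intro a b _ _ hab
    exact h.supp a b (Or.inr (Or.inr (by omega)))

theorem fst_Uo {n : ℕ} {ν : List H → ℝ} (h : Uo n ν) :
    Uo n (fun l : List (H × G) => ν (l.map Prod.fst)) where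
  cont := by
    intro k
    have h1 : Continuous fun v : Fin k → H × G => fun i => (v i).1 :=
      continuous_pi fun i => continuous_fst.comp (continuous_apply i)
    refine ((h.cont k).comp h1).congr fun v => ?_
    show ν (List.ofFn fun i => (v i).1) = ν ((List.ofFn v).map Prod.fst)
    rw [List.map_ofFn]
    rfl
  inv := by
    intro g l
    have h1 : (l.map (g * ·)).map Prod.fst = (l.map Prod.fst).map (g.1 * ·) := by
      rw [List.map_map, List.map_map]
      rfl
    show ν ((l.map (g * ·)).map Prod.fst) = _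
    rw [h1, h.inv]
  supp := by
    intro l hl
    exact h.supp _ (by rwa [List.length_map])

theorem fst_Co {n : ℕ} {ν : List H → ℝ} (h : Co n ν) :
    Co n (fun l : List (H × G) => ν (l.map Prod.fst)) := by
  have h1 : Uo n (fun l : List (H × G) => ν (l.map Prod.fst)) :=
    fst_Uo ⟨h.cont, h.inv, h.supp⟩
  obtain ⟨M, hM⟩ := h.bdd
  exact ⟨h1.cont, ⟨M, fun l => hM _⟩, h1.inv, h1.supp⟩

theorem aw_normal (D : FData G) {n : ℕ} {Φ Ψ : List H → List G → ℝ} {μ₀ : List H → ℝ}
    {μ : (j : ℕ) → Fin (D.N j) → List H → ℝ} (h0 : μ₀ [] = 0)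
    (h1 : ∀ m, Ψ [] m = 0) (h2 : ∀ l, Ψ l [] = 0)
    (h : ∀ l m, Φ l m = DD Ψ l m + (if m.length = 1 then μ₀ l else 0) +
        ∑ j ∈ Finset.Icc 2 n, ∑ i, μ j i l * D.e j i m) (l : List (H × G)) :
    aw Φ l = dl (aw Ψ) l + μ₀ (l.map Prod.fst) +
      ∑ j ∈ Finset.Icc 2 n, ∑ i, aw (fun a b => μ j i a * D.e j i b) l := by
  have e0 : aw Φ l = aw (DD Ψ) l + aw (fun a b => if b.length = 1 then μ₀ a else 0) l +
      aw (fun a b => ∑ j ∈ Finset.Icc 2 n, ∑ i, μ j i a * D.e j i b) l := by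
    rw [← aw_add, ← aw_add]
    exact aw_congr _ _ l fun a b _ _ _ => h a b
  rw [e0, aw_dl Ψ h1 h2 l, aw_one μ₀ h0 l, aw_sum]
  congr 1
  refine Finset.sum_congr rfl fun j _ => ?_
  rw [aw_sum]

end Pool.Agent.Helper87.BKF
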