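import Pool.Agent.Helper87.BKF.Basic

/-!
# Project BKF: no continuous homomorphism from `SL(2, ℝ)` to `ℝ` (piece BKF-HOM)

`hom0`: a continuous invariant cocycle of degree one is `φ [g, h] = c (g⁻¹ * h)` with a homomorphism
`c : SL(2, ℝ) → ℝ` (additive); `SL(2, ℝ)` is perfect: every diagonal, upper and lower unipotent matrix is a
commutator `[diag(t, t⁻¹), u(x)] = u((t²-1) x)`, and `SL(2, ℝ)` is generated by upper and lower unipotents; or use
that `c` is invariant under conjugation and `u(x)`, `u(x)^4 = u(4 x)` are conjugate (`diag(2, 1/2)`), so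
`c (u x) = 4 c (u x) = 0`.
-/

open scoped MatrixGroups Topology

namespace Pool.Agent.Helper87.BKF
open Pool.Agent.Helper11.BC
open Pool.Agent.Helper87.BCR
open Pool.Agent.Helper87.BK

private noncomputable def hu (x : ℝ) : G := ⟨!![1, x; 0, 1], by simp [Matrix.det_fin_two]⟩

private noncomputable def hl (x : ℝ) : G := ⟨!![1, 0; x, 1], by simp [Matrix.det_fin_two]⟩

private noncomputable def hd2 : G := ⟨!![2, 0; 0, 1 / 2], by simp [Matrix.det_fin_two]⟩

private lemma hu_mul (x y : ℝ) : hu x * hu y = hu (x + y) := by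
  apply Subtype.ext
  simp [hu, Matrix.SpecialLinearGroup.coe_mul, add_comm]

private lemma hl_mul (x y : ℝ) : hl x * hl y = hl (x + y) := by
  apply Subtype.ext
  simp [hl, Matrix.SpecialLinearGroup.coe_mul]

private lemma hd_u (x : ℝ) : hd2 * hu x = hu (4 * x) * hd2 := by
  apply Subtype.ext
  simp [hu, hd2, Matrix.SpecialLinearGroup.coe_mul]
  ring

private lemma hd_l (x : ℝ) : hd2 * hl (4 * x) = hl x * hd2 := by
  apply Subtype.ext
  simp [hl, hd2, Matrix.SpecialLinearGroup.coe_mul]
  ring

private lemma hom_gen (c : G → ℝ) (hc : ∀ g h, c (g * h) = c g + c h) (g : G) : c g = 0 := by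
  have hu0 : ∀ x, c (hu x) = 0 := by
    intro x
    have h1 : c (hu (4 * x)) = 4 * c (hu x) := by
      have h2 : hu (4 * x) = hu x * hu x * (hu x * hu x) := by
        rw [hu_mul, hu_mul]
        congr 1
        ring
      rw [h2, hc, hc]
      ring
    have h3 := congrArg c (hd_u x)
    rw [hc, hc, h1] at h3
    linarith
  have hl0 : ∀ x, c (hl x) = 0 := by
    intro x
    have h1 : c (hl (4 * x)) = 4 * c (hl x) := by
      have h2 : hl (4 * x) = hl x * hl x * (hl x * hl x) := by
        rw [hl_mul, hl_mul]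
        congr 1
        ring
      rw [h2, hc, hc]
      ring
    have h3 := congrArg c (hd_l x)
    rw [hc, hc, h1] at h3
    linarith
  have key : ∀ g : G, g.1 1 0 ≠ 0 → c g = 0 := by
    intro g hg
    have hdet : g.1 0 0 * g.1 1 1 - g.1 0 1 * g.1 1 0 = 1 := by
      have := g.2
      rwa [Matrix.det_fin_two] at this
    have h1 : g = hu ((g.1 0 0 - 1) / g.1 1 0) * hl (g.1 1 0) * hu ((g.1 1 1 - 1) / g.1 1 0) := by
      apply Subtype.ext
      conv_lhs => rw [Matrix.eta_fin_two g.1]
      simp only [hu, hl, Matrix.SpecialLinearGroup.coe_mul, Matrix.mul_fin_two]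
      congr 1
      ext i j
      fin_cases i <;> fin_cases j
      · simp
        field_simp
        ring
      · simp
        field_simp
        linarith
      · simp
      · simp
        field_simp
        ring
    rw [h1, hc, hc, hu0, hl0, hu0]
    ring
  by_cases hg : g.1 1 0 = 0
  · have hdet : g.1 0 0 * g.1 1 1 - g.1 0 1 * g.1 1 0 = 1 := by
      have := g.2
      rwa [Matrix.det_fin_two] at this
    have h11 : g.1 1 1 ≠ 0 := by
      intro h
      rw [h, hg] at hdet
      simp at hdet
    have h1 : (g * hl 1).1 1 0 ≠ 0 := by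
      have h2 : (g * hl 1).1 1 0 = g.1 1 0 + g.1 1 1 := by
        rw [Matrix.SpecialLinearGroup.coe_mul, Matrix.mul_apply, Fin.sum_univ_two]
        simp [hl]
      rw [h2, hg, zero_add]
      exact h11
    have h3 := key _ h1
    rw [hc, hl0, add_zero] at h3
    exact h3
  · exact key g hg

theorem hom_SL2 (φ : List G → ℝ) (hφ : Uo 2 φ) (hd : ∀ m, dl φ m = 0) (m : List G) :
    φ m = 0 := by
  have hinv : ∀ a b : G, φ [a, b] = φ [1, a⁻¹ * b] := by
    intro a b
    have h := hφ.inv a [1, a⁻¹ * b]
    simp only [List.map_cons, List.map_nil, mul_one, mul_inv_cancel_left] at h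
    exact h
  have hcoc : ∀ a b c : G, φ [b, c] - φ [a, c] + φ [a, b] = 0 := by
    intro a b c
    have h := hd [a, b, c]
    simp [dl, Finset.sum_range_succ] at h
    linarith
  have hc : ∀ g h : G, φ [1, g * h] = φ [1, g] + φ [1, h] := by
    intro g h
    have h1 := hcoc 1 g (g * h)
    rw [hinv g (g * h), inv_mul_cancel_left] at h1
    linarith
  by_cases hm : m.length = 2
  · obtain ⟨a, b, rfl⟩ := List.length_eq_two.1 hm
    rw [hinv]
    exact hom_gen (fun g => φ [1, g]) hc _
  · exact hφ.supp m hm

end Pool.Agent.Helper87.BKF
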