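import Pool.Agent.Helper87.BKF.Dec
import Pool.Agent.Helper87.BKF.Cpt

/-!
# Project BKF: injectivity of the comparison map for a product (piece BKF-INJ)

The pattern is `cinj_prod` in `Pool/Agent/Helper87/BK/Cmp.lean`.
`kap_Uo` (`κ a = lam j i (V a cut to length j + 1)`): by the compactness lemma `cpt_near` (file `Cpt.lean`) for `D j` and
`lam_bd`, `lam_lin`, `κ` is continuous; invariance (`V (a.map (h * ·)) = V a`), support: `V a m = 0` for
`m.length = j + 1`, `a.length + (j + 1) ≠ n + 1`.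
`cinj_prodF`: `to_double` (`BK/Kun.lean`) gives `f'`, `r`, `r'`, `Ko (n + 2) (sh f')`, `DD (sh f') = 0`; `Kb_of_Ko`,
`normal_formF` with `β = True`: `Ψ`, `μ₀`, `μ`.  `f = dl u`, `u' = u - r` is `Uo n`, `f' = dl u'`;
`V = sh u' - Ψ` is `Vo (n + 1)` (`sh_Vo`, `Kl.toVo`) and `DD V l m = (if m.length = 1 then μ₀ l else 0) +
∑ j ∈ Icc 2 n, ∑ i, μ j i l * D.e j i m` (`sh_dl`, `u' [] = 0`).
For `2 ≤ j ≤ n` and `l ≠ []`: `lam_row_eq` with `F m = ∑ i', μ j i' l * D.e j i' m` (for `m.length = j + 1` only the term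
`j` of the sum survives, `he`, `Co.supp`) gives `dl κ l = lam j i F = μ j i l` (`lam_sum`, `lam_e`); for `l = []` both
are `0`.  If `j < n`: `Cy (n - j + 1) (μ j i)` and `Uo (n - j) κ`, so `CInj H (n - j)` gives `ν j i` with
`Co (n - j) (ν j i)`, `μ j i = dl (ν j i)`, `ν j i [] = 0` (support).  If `j = n`: `κ = 0` (`κ a ≠ 0` needs
`a.length = 0`, and `V [] = 0`, `lam_zero`), so `μ n i = 0`, `ν = 0`.
`V' l m = V l m - ∑ j, ∑ i, ν j i l * D.e j i m`, at `m = [1]`, `l ≠ []`: `DD V' l [1] = μ₀ l` (`DD_mul`, `D.he`), so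
`μ₀ l = dl (fun a => V' a [1]) l`, with `fun a => V' a [1]` in `Uo n`; `CInj H n` gives `ν₀`.
Finally `f = dl (aw Ψ + r' + r) + μ₀ ∘ fst + ∑ aw (μ j i ⊗ e)` (`aw_normal`), and
`aw (dl ν ⊗ e) = dl (aw (ν ⊗ e))` (`aw_mul_dl`), where `aw (ν ⊗ e)` is `Co n` (`Kl_mul`, `Ko_of_Kl`, `aw_Ko`).
-/

open scoped Topology

namespace Pool.Agent.Helper87.BKF
open Pool.Agent.Helper11.BC (dl)
open Pool.Agent.Helper87.BCR
open Pool.Agent.Helper87.BK

variable {H G : Type} [Group H] [TopologicalSpace H] [IsTopologicalGroup H]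
  [FirstCountableTopology H] [Group G] [TopologicalSpace G]
  [IsTopologicalGroup G] [FirstCountableTopology G]

omit [IsTopologicalGroup H] [FirstCountableTopology H] in
private theorem Inj_Co_add {n : ℕ} {A B : List H → ℝ} (hA : Co n A) (hB : Co n B) :
    Co n (fun l => A l + B l) where
  cont := fun k => (hA.cont k).add (hB.cont k)
  bdd := by
    obtain ⟨M, hM⟩ := hA.bdd
    obtain ⟨M', hM'⟩ := hB.bdd
    exact ⟨M + M', fun l => (abs_add_le _ _).trans (add_le_add (hM l) (hM' l))⟩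
  inv := fun g l => by
    show A (l.map (g * ·)) + B (l.map (g * ·)) = _
    rw [hA.inv, hB.inv]
  supp := fun l h => by
    show A l + B l = 0
    rw [hA.supp l h, hB.supp l h, add_zero]

omit [IsTopologicalGroup H] [FirstCountableTopology H] in
private theorem Inj_Co_zero (n : ℕ) : Co n (fun _ : List H => (0 : ℝ)) :=
  ⟨fun _ => continuous_const, ⟨0, fun _ => by simp⟩, fun _ _ => rfl, fun _ _ => rfl⟩

omit [IsTopologicalGroup H] [FirstCountableTopology H] in
private theorem Inj_Co_sum {n : ℕ} {ι : Type} (s : Finset ι) (A : ι → List H → ℝ)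
    (hA : ∀ i ∈ s, Co n (A i)) : Co n (fun l => ∑ i ∈ s, A i l) := by
  classical
  induction s using Finset.induction_on with
  | empty =>
    simp only [Finset.sum_empty]
    exact Inj_Co_zero n
  | insert a s ha ih =>
    have e : (fun l : List H => ∑ i ∈ insert a s, A i l) = fun l => A a l + ∑ i ∈ s, A i l := by
      funext l
      exact Finset.sum_insert ha
    rw [e]
    exact Inj_Co_add (hA a (Finset.mem_insert_self a s))
      (ih fun i hi => hA i (Finset.mem_insert_of_mem hi))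

omit [Group H] [TopologicalSpace H] [IsTopologicalGroup H] [FirstCountableTopology H] in
private theorem Inj_dl_sum {ι : Type} (s : Finset ι) (A : ι → List H → ℝ) (l : List H) :
    dl (fun t => ∑ i ∈ s, A i t) l = ∑ i ∈ s, dl (A i) l := by
  unfold Helper11.BC.dl
  rw [Finset.sum_comm]
  refine Finset.sum_congr rfl fun r _ => ?_
  rw [Finset.smul_sum]

omit [IsTopologicalGroup H] [FirstCountableTopology H] [IsTopologicalGroup G]
  [FirstCountableTopology G] in
private theorem Inj_one_Uo {n : ℕ} {V : List H → List G → ℝ} (hV : Vo (n + 1) V) :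
    Uo n (fun a => V a [1]) where
  cont := InK_JC_left hV.reg [1]
  inv := by
    intro h a
    have h1 := hV.inv h 1 a [1]
    simpa using h1
  supp := by
    intro a ha
    refine hV.supp a [1] ?_
    right; right
    show a.length + 1 ≠ n + 1
    omega

theorem cinj_prodF (D : FData G) {T : (H → ℝ) → H → ℝ} (hT : Smt T) {n : ℕ} (hn : 1 ≤ n)
    (h : ∀ j, 1 ≤ j → j ≤ n → CInj H j) : CInj (H × G) n := by
  rintro f hf ⟨u, hu, hfu⟩
  obtain ⟨f', r, hf', hr, hKo, hDD, hfr, r', hr', hfr'⟩ := to_double hT hn f hf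
  obtain ⟨Ψ, μ₀, μ, hΨ, hμ₀, hμ₀d, hμ, hμd, hμ0, hnf⟩ :=
    normal_formF D hn (sh f') (Kb_of_Ko hKo) hDD
  have hu' : Uo n (fun l => u l - r l) := by
    refine ⟨fun k => (hu.cont k).sub (hr.cont k), ?_, ?_⟩
    · intro g l
      rw [hu.inv, hr.inv]
    · intro l hl
      rw [hu.supp l hl, hr.supp l hl, sub_zero]
  have hfu' : f' = dl (fun l => u l - r l) := by
    funext l
    have e1 := hfr l
    rw [dl_sub, ← hfu l]
    linarith
  have hV1 := sh_Vo hu'
  have hV2 := hΨ.toVo
  obtain ⟨V, hVdef⟩ : ∃ V : List H → List G → ℝ,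
      V = fun a b => sh (fun l => u l - r l) a b - Ψ a b := ⟨_, rfl⟩
  have hV : Vo (n + 1) V := by
    rw [hVdef]
    refine ⟨InK_sub cls_JC hV1.reg hV2.reg, fun a b l m => ?_, fun l m hlm => ?_⟩
    · rw [hV1.inv, hV2.inv]
    · rw [hV1.supp l m hlm, hV2.supp l m hlm, sub_zero]
  have hDV : ∀ l m, DD V l m = (if m.length = 1 then μ₀ l else 0) +
      ∑ j ∈ Finset.Icc 2 n, ∑ i, μ j i l * D.e j i m := by
    intro l m
    have e1 := sh_dl (fun l => u l - r l) l m
    rw [← hfu', hu'.supp [] (by simp; omega), ite_self, add_zero] at e1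
    have e2 := hnf l m
    rw [hVdef, DD_sub, ← e1, e2]
    ring
  have hsupp : ∀ j (i : Fin (D.N j)) (m : List G), m.length ≠ j + 1 → D.e j i m = 0 :=
    fun j i m hm => (D.he j i).1.supp m hm
  -- the coefficients are coboundaries of continuous cochains
  have hκ : ∀ j ∈ Finset.Icc 2 n, ∀ (i : Fin (D.N j)) (l : List H), μ j i l =
      dl (fun a => D.lam j i (fun m => if m.length = j + 1 then V a m else 0)) l := by
    intro j hj i l
    rw [Finset.mem_Icc] at hj
    by_cases hl : l = []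
    · rw [hl, hμ0, dl_nil]
    · have hF : Uo (j + 1) (fun m => ∑ i', μ j i' l * D.e j i' m) :=
        Uo_sum Finset.univ (fun i' => μ j i' l) (fun i' => D.e j i')
          fun i' _ => Uo_of_Co (D.he j i').1
      have h1 := lam_row_eq D V hV.reg hV.inv _ hF i hl (fun m hm => by
        rw [hDV, if_neg (by omega), zero_add]
        rw [Finset.sum_eq_single j]
        · intro j' _ hj'
          refine Finset.sum_eq_zero fun i' _ => ?_
          rw [hsupp j' i' m (by omega), mul_zero]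
        · intro hj'
          exact absurd (Finset.mem_Icc.2 hj) hj')
      rw [h1, D.lam_sum j i Finset.univ (fun i' => μ j i' l) (fun i' => D.e j i')
        (fun i' _ => Uo_of_Co (D.he j i').1), Finset.sum_eq_single i]
      · rw [D.lam_e, if_pos rfl, mul_one]
      · intro i' _ hi'
        rw [D.lam_e, if_neg (Ne.symm hi'), mul_zero]
      · intro hi'
        exact absurd (Finset.mem_univ i) hi'
  have hν : ∀ j (i : Fin (D.N j)), ∃ ν : List H → ℝ, Co (n - j) ν ∧ ν [] = 0 ∧
      (j ∈ Finset.Icc 2 n → ∀ l, μ j i l = dl ν l) := by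
    intro j i
    by_cases hj : j ∈ Finset.Icc 2 n
    · have hj' := Finset.mem_Icc.1 hj
      by_cases hjn : j < n
      · have e : n + 1 - j = n - j + 1 := by omega
        have hcy : Cy (n - j + 1) (μ j i) := by
          rw [← e]
          exact ⟨⟨(hμ j i).cont, (hμ j i).bdd trivial, (hμ j i).inv, (hμ j i).supp⟩, hμd j i⟩
        obtain ⟨ν, hν1, hν2⟩ := h (n - j) (by omega) (by omega) (μ j i) hcy
          ⟨_, kap_Uo D V hV i, hκ j hj i⟩
        exact ⟨ν, hν1, hν1.supp [] (by simp; omega), fun _ => hν2⟩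
      · refine ⟨fun _ => 0, Inj_Co_zero _, rfl, fun _ l => ?_⟩
        rw [hκ j hj i l]
        have h2 : (fun a => D.lam j i (fun m => if m.length = j + 1 then V a m else 0)) =
            fun _ => 0 := funext fun a => kap_zero D (by omega) V hV i a
        rw [h2]
    · exact ⟨fun _ => 0, Inj_Co_zero _, rfl, fun h => absurd h hj⟩
  choose ν hν1 hν2 hν3 using hν
  obtain ⟨ν₀, hν₀, hν₀'⟩ := h n hn le_rfl μ₀
    ⟨⟨hμ₀.cont, hμ₀.bdd trivial, hμ₀.inv, hμ₀.supp⟩, hμ₀d⟩ ⟨_, Inj_one_Uo hV, by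
    intro l
    by_cases hl : l = []
    · rw [hl, dl_nil, hμ₀.supp [] (by simp)]
    · have e1 := hDV l [1]
      rw [DD_of_ne _ hl (by simp), dl_cons (V l), dl_nil, hV.supp l [] (Or.inr (Or.inl rfl)),
        sub_zero, mul_zero, add_zero] at e1
      rw [e1, if_pos (by rfl)]
      have e2 : ∑ j ∈ Finset.Icc 2 n, ∑ i, μ j i l * D.e j i [1] = 0 := by
        refine Finset.sum_eq_zero fun j hj => Finset.sum_eq_zero fun i _ => ?_
        rw [Finset.mem_Icc] at hj
        rw [hsupp j i [1] (by simp; omega), mul_zero]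
      rw [e2, add_zero]⟩
  refine ⟨fun l => (((aw Ψ l + r' l) + r l) + ν₀ (l.map Prod.fst)) +
    ∑ j ∈ Finset.Icc 2 n, ∑ i, aw (fun a b => ν j i a * D.e j i b) l, ?_, ?_⟩
  · refine Inj_Co_add (Inj_Co_add (Inj_Co_add (Inj_Co_add (aw_Ko (Ko_of_Kl hΨ)) hr') hr)
      (fst_Co hν₀)) (Inj_Co_sum _ _ fun j hj => Inj_Co_sum _ _ fun i _ => ?_)
    rw [Finset.mem_Icc] at hj
    have h1 : Cb True (n - j) (ν j i) :=
      ⟨(hν1 j i).cont, fun _ => (hν1 j i).bdd, (hν1 j i).inv, (hν1 j i).supp⟩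
    have h2 := Kl_mul h1 (hν2 j i) (D.he j i).1
    have e : n - j + (j + 1) = n + 1 := by omega
    rw [e] at h2
    exact aw_Ko (Ko_of_Kl h2)
  · intro l
    have e1 := aw_normal D (hμ₀.supp [] (by simp)) (fun m => hΨ.supp [] m (Or.inl rfl))
      (fun l => hΨ.supp l [] (Or.inr (Or.inl rfl))) hnf l
    have e2 : ∑ j ∈ Finset.Icc 2 n, ∑ i, aw (fun a b => μ j i a * D.e j i b) l =
        dl (fun l => ∑ j ∈ Finset.Icc 2 n, ∑ i, aw (fun a b => ν j i a * D.e j i b) l) l := by
      rw [Inj_dl_sum]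
      refine Finset.sum_congr rfl fun j hj => ?_
      rw [Inj_dl_sum]
      refine Finset.sum_congr rfl fun i _ => ?_
      rw [← aw_mul_dl (ν j i) (D.e j i) (hν2 j i) (D.he j i).2
        ((D.he j i).1.supp [] (by simp))]
      have e3 : μ j i = dl (ν j i) := funext (hν3 j i hj)
      rw [e3]
    rw [hfr, hfr', e1, e2,
      dl_add (fun l => ((aw Ψ l + r' l) + r l) + ν₀ (l.map Prod.fst)),
      dl_add (fun l => (aw Ψ l + r' l) + r l), dl_add (fun l => aw Ψ l + r' l), dl_add,
      fst_dl, hν₀']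
    ring

end Pool.Agent.Helper87.BKF
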