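import Pool.Agent.Helper87.BKF.UReg

/-!
# Project BKF: the operator `K` in the second variable (piece BKF-KREG)

For `1 ≤ a.length ≤ n + 1` the function `Φ a` is `Uo (j + 1)` and `K (Φ a)` is `Uo j`, `j = n + 1 - a.length` (`K_Uo`); for
all other `a` the function `Φ a` is zero (`Vo_row_zero`) and `K 0 = 0` (`UData.K_zero`).
* joint continuity (`InK JCc`): as `regJ` in `U_Kb` (`UReg.lean`): let `l : List (Z → H)`, `m : List (W → G)` with continuous
  entries, at `(z₀, w₀)`; the sign depends only on `l.length`.  If `l.length + m.length ≠ n + 1` or one of them is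
  empty, the family is zero.  Otherwise `r = m.length`, the point `x w = fun i : Fin r => m[i] w` of `Fin r → G` is
  continuous in `w`; let `E` be a compact neighbourhood of `x w₀`; `K_loc` gives `C`, `D`; `cpt_near` (with `D`, in
  `Fin (r + 1) → G`) gives, for `z` near `z₀`, `|Φ (l z) y - Φ (l z₀) y| ≤ ε` on `D`, so by linearity
  `|K (Φ (l z)) y - K (Φ (l z₀)) y| ≤ |C| * ε` for `y` in `E`; and `K (Φ (l z₀))` is continuous.
* invariance: `Φ (a.map (h * ·)) = Φ a` as functions; `K (Φ a)` is invariant.  Support: `K_Uo`, `K_nil`.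
-/

open scoped Topology

namespace Pool.Agent.Helper87.BKF
open Pool.Agent.Helper11.BC (dl)
open Pool.Agent.Helper87.BCR
open Pool.Agent.Helper87.BK

variable {H G : Type} [Group H] [TopologicalSpace H] [Group G] [TopologicalSpace G]

private theorem kr_row {n : ℕ} {Φ : List H → List G → ℝ} (h : Vo (n + 2) Φ) (a : List H)
    (r : ℕ) (ha : a.length ≤ n + 1) (hr : n + 1 - a.length = r) : Uo (r + 1) (Φ a) := by
  have h1 := Vo_row h a
  have h2 : n + 2 - a.length = r + 1 := by omega
  rwa [h2] at h1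

private theorem kr_zero {n : ℕ} {Φ : List H → List G → ℝ} (E : UData G) (h : Vo (n + 2) Φ)
    (a : List H) (ha : a = [] ∨ n + 2 ≤ a.length) (m : List G) : E.K (Φ a) m = 0 := by
  have h1 : Φ a = fun _ => 0 := by
    funext t
    exact Vo_row_zero h a ha t
  rw [h1]
  exact E.K_zero m

private theorem kr_diff (E : UData G) {r : ℕ} {φ ψ : List G → ℝ} (hφ : Uo (r + 1) φ)
    (hψ : Uo (r + 1) ψ) {C : ℝ} {D : Set (Fin (r + 1) → G)} {E0 : Set (Fin r → G)}
    (hloc : ∀ (φ : List G → ℝ) (M : ℝ), 0 ≤ M → Uo (r + 1) φ →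
      (∀ x ∈ D, |φ (List.ofFn x)| ≤ M) → ∀ x ∈ E0, |E.K φ (List.ofFn x)| ≤ C * M)
    {δ : ℝ} (hδ : 0 ≤ δ) (hD : ∀ x ∈ D, |φ (List.ofFn x) - ψ (List.ofFn x)| ≤ δ)
    (x : Fin r → G) (hx : x ∈ E0) :
    |E.K φ (List.ofFn x) - E.K ψ (List.ofFn x)| ≤ |C| * δ := by
  have h1 := E.K_lin (r + 1) φ ψ 1 (-1) hφ hψ (List.ofFn x)
  have h2 := hloc (fun m => 1 * φ m + (-1) * ψ m) δ hδ (Uo_lin 1 (-1) hφ hψ) (by
    intro y hy
    have h3 := hD y hy
    have h4 : 1 * φ (List.ofFn y) + (-1) * ψ (List.ofFn y) =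
        φ (List.ofFn y) - ψ (List.ofFn y) := by ring
    show |1 * φ (List.ofFn y) + (-1) * ψ (List.ofFn y)| ≤ δ
    rw [h4]
    exact h3) x hx
  have h5 : E.K φ (List.ofFn x) - E.K ψ (List.ofFn x) =
      1 * E.K φ (List.ofFn x) + (-1) * E.K ψ (List.ofFn x) := by ring
  rw [h5, ← h1]
  exact h2.trans (mul_le_mul_of_nonneg_right (le_abs_self _) hδ)

private theorem kr_cont [IsTopologicalGroup G] [LocallyCompactSpace G] (E : UData G) {n : ℕ}
    {Φ : List H → List G → ℝ} (h : Vo (n + 2) Φ) {Z W : Type} [TopologicalSpace Z]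
    [TopologicalSpace W] (l : List (Z → H)) (m : List (W → G)) (hl : ∀ e ∈ l, Continuous e)
    (hm : ∀ e ∈ m, Continuous e) (hn : l.length ≤ n + 1) (hr : n + 1 - l.length = m.length) :
    Continuous fun p : Z × W =>
      E.K (Φ (l.map fun e => e p.1)) (m.map fun e => e p.2) := by
  have hrow : ∀ z : Z, Uo (m.length + 1) (Φ (l.map fun e => e z)) := fun z =>
    kr_row h _ _ (by rw [List.length_map]; exact hn) (by rw [List.length_map]; exact hr)
  set x : W → (Fin m.length → G) := fun w i => (m.get i) w with hxdef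
  have hx : Continuous x := continuous_pi fun i => hm _ (m.get_mem i)
  have hmx : ∀ w, (m.map fun e => e w) = List.ofFn (x w) := by
    intro w
    conv_lhs => rw [← List.ofFn_get m]
    rw [List.map_ofFn]
    rfl
  rw [continuous_iff_continuousAt]
  rintro ⟨z₀, w₀⟩
  rw [ContinuousAt, Metric.tendsto_nhds]
  intro ε hε
  obtain ⟨E0, hE0, hE0n⟩ := exists_compact_mem_nhds (x w₀)
  obtain ⟨C, D, hD, hloc⟩ := E.K_loc m.length E0 hE0
  have hC : 0 < |C| + 1 := by positivity
  have hδ : 0 < ε / 2 / (|C| + 1) := by positivity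
  have h1 := cpt_near h.reg hD l hl z₀ hδ
  have h2 : Continuous fun w => E.K (Φ (l.map fun e => e z₀)) (List.ofFn (x w)) :=
    ((E.K_Uo _ _ (hrow z₀)).cont m.length).comp hx
  have h3 : ∀ᶠ w in 𝓝 w₀, dist (E.K (Φ (l.map fun e => e z₀)) (List.ofFn (x w)))
      (E.K (Φ (l.map fun e => e z₀)) (List.ofFn (x w₀))) < ε / 2 :=
    Metric.tendsto_nhds.1 h2.continuousAt _ (by positivity)
  have h4 : ∀ᶠ w in 𝓝 w₀, x w ∈ E0 := hx.continuousAt.eventually hE0n
  rw [nhds_prod_eq]
  refine (h1.prod_mk (h3.and h4)).mono ?_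
  rintro ⟨z, w⟩ ⟨hz, hw, hwE⟩
  simp only at hz hw hwE ⊢
  rw [hmx w, hmx w₀]
  have h5 := kr_diff E (hrow z) (hrow z₀) hloc hδ.le hz (x w) hwE
  have h6 : |C| * (ε / 2 / (|C| + 1)) < ε / 2 := by
    rw [← mul_div_assoc, div_lt_iff₀ hC, mul_comm]
    exact mul_lt_mul_of_pos_left (lt_add_one _) (by positivity)
  calc dist (E.K (Φ (l.map fun e => e z)) (List.ofFn (x w)))
        (E.K (Φ (l.map fun e => e z₀)) (List.ofFn (x w₀)))
      ≤ dist (E.K (Φ (l.map fun e => e z)) (List.ofFn (x w)))
          (E.K (Φ (l.map fun e => e z₀)) (List.ofFn (x w))) +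
        dist (E.K (Φ (l.map fun e => e z₀)) (List.ofFn (x w)))
          (E.K (Φ (l.map fun e => e z₀)) (List.ofFn (x w₀))) := dist_triangle _ _ _
    _ < ε / 2 + ε / 2 := by
        refine add_lt_add ?_ hw
        rw [Real.dist_eq]
        exact lt_of_le_of_lt h5 h6
    _ = ε := by ring

theorem K_Vo [IsTopologicalGroup G] [LocallyCompactSpace G] (E : UData G) {n : ℕ}
    {Φ : List H → List G → ℝ} (h : Vo (n + 2) Φ) :
    Vo (n + 1) (fun a b => (-1) ^ (a.length + 1) * E.K (Φ a) b) := by
  have hrow : ∀ a : List H, a.length ≤ n + 1 → Uo (n + 1 - a.length) (E.K (Φ a)) := fun a ha =>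
    E.K_Uo _ _ (kr_row h a _ ha rfl)
  refine ⟨?_, ?_, ?_⟩
  · intro Z W _ _ l m hl hm
    show Continuous fun p : Z × W => (-1 : ℝ) ^ ((l.map fun e => e p.1).length + 1) *
      E.K (Φ (l.map fun e => e p.1)) (m.map fun e => e p.2)
    simp only [List.length_map]
    refine continuous_const.mul ?_
    by_cases hn : l.length ≤ n + 1
    · by_cases hr : n + 1 - l.length = m.length
      · exact kr_cont E h l m hl hm hn hr
      · have h1 : (fun p : Z × W => E.K (Φ (l.map fun e => e p.1)) (m.map fun e => e p.2)) =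
            fun _ => 0 := by
          funext p
          refine (hrow (l.map fun e => e p.1) (by rw [List.length_map]; exact hn)).supp _ ?_
          rw [List.length_map, List.length_map]
          exact fun h2 => hr h2.symm
        rw [h1]
        exact continuous_const
    · have h1 : (fun p : Z × W => E.K (Φ (l.map fun e => e p.1)) (m.map fun e => e p.2)) =
          fun _ => 0 := by
        funext p
        exact kr_zero E h _ (Or.inr (by rw [List.length_map]; omega)) _
      rw [h1]
      exact continuous_const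
  · intro k g l m
    have h1 : Φ (l.map (k * ·)) = Φ l := by
      funext t
      have h2 := h.inv k 1 l t
      have h3 : t.map (fun x => (1 : G) * x) = t := by simp
      rw [h3] at h2
      exact h2
    show (-1 : ℝ) ^ ((l.map (k * ·)).length + 1) * E.K (Φ (l.map (k * ·))) (m.map (g * ·)) =
      (-1) ^ (l.length + 1) * E.K (Φ l) m
    rw [h1, List.length_map]
    congr 1
    by_cases hn : l.length ≤ n + 1
    · exact (hrow l hn).inv g m
    · rw [kr_zero E h l (Or.inr (by omega)), kr_zero E h l (Or.inr (by omega))]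
  · intro l m hlm
    show (-1 : ℝ) ^ (l.length + 1) * E.K (Φ l) m = 0
    have h1 : E.K (Φ l) m = 0 := by
      by_cases hl : l = []
      · exact kr_zero E h l (Or.inl hl) m
      · by_cases hm : m = []
        · rw [hm]
          exact E.K_nil _
        · have h2 : l.length + m.length ≠ n + 1 := by
            rcases hlm with h3 | h3 | h3
            · exact absurd h3 hl
            · exact absurd h3 hm
            · exact h3
          by_cases hn : l.length ≤ n + 1
          · exact (hrow l hn).supp m (by omega)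
          · exact kr_zero E h l (Or.inr (by omega)) m
    rw [h1, mul_zero]

end Pool.Agent.Helper87.BKF
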