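import Pool.Agent.Helper87.BKF.Reg
import Pool.Agent.Helper87.BKF.Cut

/-!
# Project BKF: the cochains of the double complex (piece BKF-KB)

* `Kl.toKb`: `InK_LPU_JC`, `InK_ge`.  `Kb.sub`: `InK_sub` (for `regL` split the `if`: `if c then a - b else 0 =
  (if c then a else 0) - (if c then b else 0)`).  `Kl.DD`: `InK.DD` with `cls_LPU`, `cls_PU`; invariance and
  support as in `Ko.DD` (`Pool/Agent/Helper87/BK/Ko.lean`).
* `Kl_mul`: `InK_mul_LPU`, `InK_mul_PU`; support as in `Ko_mul`.
* `Kl_sum`: `InK_sum`.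
* `Kb_of_Ko`: `InK_PU_JC`, `InK_PU_LPU`, `InK_ge`.  `Ko_of_Kl`: `regP trivial`.
* `DD_mul_zero`: `DD_mul`; if one of the lists is empty, `DD` is `0` by definition.
-/

open scoped Topology

namespace Pool.Agent.Helper87.BKF
open Pool.Agent.Helper11.BC (dl)
open Pool.Agent.Helper87.BCR
open Pool.Agent.Helper87.BK

variable {H G : Type} [Group H] [TopologicalSpace H] [Group G] [TopologicalSpace G]

private theorem Kb_dl_map {A B : Type} (φ : List B → ℝ) (f : A → B) (l : List A) :
    dl φ (l.map f) = dl (fun t => φ (t.map f)) l := by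
  unfold Helper11.BC.dl
  rw [List.length_map]
  refine Finset.sum_congr rfl fun i _ => ?_
  rw [List.eraseIdx_map]

theorem Kl.toKb {β : Prop} {k : ℕ} {Φ : List H → List G → ℝ} (h : Kl β k Φ) : Kb β k Φ := by
  refine ⟨InK_LPU_JC h.regL, InK_ge cls_LPU h.regL 3, h.regP, h.inv, h.supp⟩

theorem Kb_of_Ko {k : ℕ} {Φ : List H → List G → ℝ} (h : Ko k Φ) : Kb True k Φ := by
  exact ⟨InK_PU_JC h.reg, InK_ge cls_LPU (InK_PU_LPU h.reg) 3, fun _ => h.reg, h.inv, h.supp⟩

theorem Ko_of_Kl {k : ℕ} {Φ : List H → List G → ℝ} (h : Kl True k Φ) : Ko k Φ := by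
  exact ⟨h.regP trivial, h.inv, h.supp⟩

theorem Kl.toVo {β : Prop} {k : ℕ} {Φ : List H → List G → ℝ} (h : Kl β k Φ) : Vo k Φ := by
  exact ⟨InK_LPU_JC h.regL, h.inv, h.supp⟩

theorem Kb.sub {β : Prop} {k : ℕ} {Φ Ψ : List H → List G → ℝ} (h : Kb β k Φ) (h' : Kb β k Ψ) :
    Kb β k (fun a b => Φ a b - Ψ a b) := by
  refine ⟨InK_sub cls_JC h.regJ h'.regJ, ?_, fun hb => InK_sub cls_PU (h.regP hb) (h'.regP hb),
    ?_, ?_⟩
  · have h1 := InK_sub cls_LPU h.regL h'.regL
    have h2 : (fun (l : List H) (m : List G) => if 3 ≤ m.length then Φ l m - Ψ l m else 0) =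
        fun l m => (if 3 ≤ m.length then Φ l m else 0) - (if 3 ≤ m.length then Ψ l m else 0) := by
      funext l m
      split_ifs
      · rfl
      · rw [sub_zero]
    rw [h2]
    exact h1
  · intro a b l m
    show Φ _ _ - Ψ _ _ = Φ _ _ - Ψ _ _
    rw [h.inv, h'.inv]
  · intro l m hlm
    show Φ _ _ - Ψ _ _ = 0
    rw [h.supp l m hlm, h'.supp l m hlm, sub_zero]

theorem Kl.add {β : Prop} {k : ℕ} {Φ Ψ : List H → List G → ℝ} (h : Kl β k Φ) (h' : Kl β k Ψ) :
    Kl β k (fun a b => Φ a b + Ψ a b) := by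
  refine ⟨InK_add cls_LPU h.regL h'.regL, fun hb => InK_add cls_PU (h.regP hb) (h'.regP hb),
    ?_, ?_⟩
  · intro a b l m
    show Φ _ _ + Ψ _ _ = Φ _ _ + Ψ _ _
    rw [h.inv, h'.inv]
  · intro l m hlm
    show Φ _ _ + Ψ _ _ = 0
    rw [h.supp l m hlm, h'.supp l m hlm, add_zero]

theorem Kl_zero (β : Prop) (k : ℕ) : Kl β k (fun (_ : List H) (_ : List G) => (0 : ℝ)) := by
  exact ⟨InK_zero cls_LPU, fun _ => InK_zero cls_PU, fun _ _ _ _ => rfl, fun _ _ _ => rfl⟩

theorem Kl_sum {β : Prop} {k : ℕ} {ι : Type} (s : Finset ι) {Φ : ι → List H → List G → ℝ}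
    (h : ∀ i ∈ s, Kl β k (Φ i)) : Kl β k (fun a b => ∑ i ∈ s, Φ i a b) := by
  classical
  induction s using Finset.induction_on with
  | empty =>
    have h1 : (fun (a : List H) (b : List G) => ∑ i ∈ (∅ : Finset ι), Φ i a b) =
        fun _ _ => 0 := by
      funext a b
      exact Finset.sum_empty
    rw [h1]
    exact Kl_zero β k
  | insert i s hi ih =>
    have h1 := (h i (Finset.mem_insert_self i s)).add
      (ih fun j hj => h j (Finset.mem_insert_of_mem hj))
    have h2 : (fun (a : List H) (b : List G) => ∑ j ∈ insert i s, Φ j a b) =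
        fun a b => Φ i a b + ∑ j ∈ s, Φ j a b := by
      funext a b
      exact Finset.sum_insert hi
    rw [h2]
    exact h1

theorem Kl.DD {β : Prop} {k : ℕ} {Φ : List H → List G → ℝ} (h : Kl β k Φ) :
    Kl β (k + 1) (BK.DD Φ) := by
  refine ⟨InK.DD cls_LPU h.regL, fun hb => InK.DD cls_PU (h.regP hb), ?_, ?_⟩
  · intro a b l m
    by_cases hlm : l = [] ∨ m = []
    · unfold BK.DD
      rw [if_pos hlm, if_pos (by simpa using hlm)]
    · unfold BK.DD
      rw [if_neg hlm, if_neg (by simpa using hlm), Kb_dl_map, Kb_dl_map, List.length_map]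
      congr 2
      · funext t
        exact h.inv a b t m
      · congr 1
        funext t
        exact h.inv a b l t
  · intro l m hlm
    by_cases hlm' : l = [] ∨ m = []
    · unfold BK.DD
      rw [if_pos hlm']
    · have hl : l ≠ [] := fun h => hlm' (Or.inl h)
      have hm : m ≠ [] := fun h => hlm' (Or.inr h)
      have hne : l.length + m.length ≠ k + 1 := by
        rcases hlm with h | h | h
        · exact absurd h hl
        · exact absurd h hm
        · exact h
      have e1 : dl (fun a => Φ a m) l = 0 := by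
        unfold Helper11.BC.dl
        refine Finset.sum_eq_zero fun i hi => ?_
        beta_reduce
        rw [h.supp (l.eraseIdx i) m, smul_zero]
        right; right
        rw [List.length_eraseIdx_of_lt (Finset.mem_range.1 hi)]
        have := List.length_pos_iff.2 hl
        omega
      have e2 : dl (Φ l) m = 0 := by
        unfold Helper11.BC.dl
        refine Finset.sum_eq_zero fun i hi => ?_
        rw [h.supp l (m.eraseIdx i), smul_zero]
        right; right
        rw [List.length_eraseIdx_of_lt (Finset.mem_range.1 hi)]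
        have := List.length_pos_iff.2 hm
        omega
      rw [DD_of_ne Φ hl hm, e1, e2, mul_zero, add_zero]

theorem Kl_mul {β : Prop} {p j : ℕ} {μ : List H → ℝ} {ε : List G → ℝ} (hμ : Cb β p μ)
    (hμ0 : μ [] = 0) (hε : Co (j + 1) ε) : Kl β (p + (j + 1)) (fun l m => μ l * ε m) := by
  refine ⟨InK_mul_LPU hμ.cont hε, fun hb => InK_mul_PU hμ.cont (hμ.bdd hb) hε, ?_, ?_⟩
  · intro a b l m
    show μ _ * ε _ = μ _ * ε _
    rw [hμ.inv, hε.inv]
  · intro l m hlm
    show μ l * ε m = 0
    by_cases h1 : l.length = p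
    · by_cases h2 : m.length = j + 1
      · rcases hlm with h | h | h
        · rw [h, hμ0, zero_mul]
        · rw [h] at h2
          simp at h2
        · exact absurd (by rw [h1, h2]) h
      · rw [hε.supp m h2, mul_zero]
    · rw [hμ.supp l h1, zero_mul]

theorem DD_mul_zero {μ : List H → ℝ} {ε : List G → ℝ} (hμ : ∀ l, dl μ l = 0)
    (hε : ∀ m, dl ε m = 0) (l : List H) (m : List G) : DD (fun a b => μ a * ε b) l m = 0 := by
  by_cases hl : l = []
  · unfold BK.DD
    rw [if_pos (Or.inl hl)]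
  · by_cases hm : m = []
    · unfold BK.DD
      rw [if_pos (Or.inr hm)]
    · rw [DD_mul hl hm, hμ, hε, zero_mul, mul_zero, mul_zero, add_zero]

theorem DD_sum {ι : Type} (s : Finset ι) (Φ : ι → List H → List G → ℝ) (l : List H)
    (m : List G) : DD (fun a b => ∑ i ∈ s, Φ i a b) l m = ∑ i ∈ s, DD (Φ i) l m := by
  classical
  induction s using Finset.induction_on with
  | empty =>
    have h1 : (fun (a : List H) (b : List G) => ∑ i ∈ (∅ : Finset ι), Φ i a b) =
        fun _ _ => (0 : ℝ) * 0 := by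
      funext a b
      rw [Finset.sum_empty, mul_zero]
    have h2 := DD_smul 0 (fun (_ : List H) (_ : List G) => (0 : ℝ)) l m
    rw [h1, Finset.sum_empty, h2, zero_mul]
  | insert i s hi ih =>
    have h2 : (fun (a : List H) (b : List G) => ∑ j ∈ insert i s, Φ j a b) =
        fun a b => Φ i a b + ∑ j ∈ s, Φ j a b := by
      funext a b
      exact Finset.sum_insert hi
    rw [h2, DD_add (Φ i) (fun a b => ∑ j ∈ s, Φ j a b), ih, Finset.sum_insert hi]

theorem DD_sub (Φ Ψ : List H → List G → ℝ) (l : List H) (m : List G) :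
    DD (fun a b => Φ a b - Ψ a b) l m = DD Φ l m - DD Ψ l m := by
  have h1 : (fun a b => Φ a b - Ψ a b) = fun a b => Φ a b + (-1) * Ψ a b := by
    funext a b
    ring
  rw [h1, DD_add Φ (fun a b => (-1) * Ψ a b), DD_smul]
  ring

end Pool.Agent.Helper87.BKF
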