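import Pool.Agent.Helper87.BKF.Mu
import Pool.Agent.Helper87.BKF.Cut

/-!
# Project BKF: the coefficients are cocycles (piece BKF-MUC)

Put `Φ₁ a m = Φ a m` if `m.length = k + 1`, `0` otherwise, and `Φ₀ a m = Φ a m` if `m.length = k`, `0` otherwise.
All `Φ₁ a` are `Uo (k + 1)`, all `Φ₀ a` are `Uo k` (`row_Uo`, `InK_cut cls_JC`).  For `l = []` `dl_nil`.  For `l ≠ []`:
by `lam_row` the left side is `lam (fun m => dl (fun a => Φ₁ a m) l)`, and for all `m`
`dl (fun a => Φ₁ a m) l = - (-1)^(l.length + 1) * dl (Φ₀ l) m`: for `m.length = k + 1` (so `m ≠ []`) this is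
`DD Φ l m = 0` (`DD_of_ne`) together with `dl (Φ l) m = dl (Φ₀ l) m` (`dl_congr`, the faces have length `k`); for
`m.length ≠ k + 1` both sides are zero (the faces of `m` have length `≠ k`: `dl_congr` with the zero
function).  Now `lam_smul` and `lam_dl`.
-/

open scoped Topology

namespace Pool.Agent.Helper87.BKF
open Pool.Agent.Helper11.BC (dl)
open Pool.Agent.Helper87.BCR
open Pool.Agent.Helper87.BK

variable {H G : Type} [Group H] [TopologicalSpace H] [Group G] [TopologicalSpace G]

/-- More generally `Φ` need not be a cocycle in the component of length `k + 1`. -/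
theorem lam_row_eq (D : FData G) {k : ℕ} (Φ : List H → List G → ℝ)
    (hJ : InK JCc Φ)
    (hinv : ∀ (h : H) (g : G) l m, Φ (l.map (h * ·)) (m.map (g * ·)) = Φ l m)
    (F : List G → ℝ) (hF : Uo (k + 1) F) (i : Fin (D.N k)) {l : List H} (hl : l ≠ [])
    (hD : ∀ m : List G, m.length = k + 1 → DD Φ l m = F m) :
    dl (fun a => D.lam k i (fun m => if m.length = k + 1 then Φ a m else 0)) l =
      D.lam k i F := by
  have hcut : ∀ (j : ℕ) (a : List H), Uo j (fun m => if m.length = j then Φ a m else 0) := by
    intro j a
    refine row_Uo (Φ := fun a m => if m.length = j then Φ a m else 0) (InK_cut cls_JC hJ j)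
      ?_ ?_ a
    · intro h g l m
      simp only [List.length_map]
      rw [hinv h g l m]
    · intro l m hm
      exact if_neg hm
  rw [← D.lam_row k i (fun a m => if m.length = k + 1 then Φ a m else 0)
    (fun a => hcut (k + 1) a) l]
  have key : (fun m => dl (fun a => (fun a m => if m.length = k + 1 then Φ a m else 0) a m) l) =
      fun m => 1 * F m + (-(-1) ^ (l.length + 1)) *
        dl (fun t : List G => if t.length = k then Φ l t else 0) m := by
    funext m
    by_cases hm : m.length = k + 1
    · have hm0 : m ≠ [] := by
        rintro rfl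
        simp at hm
      have h1 := hD m hm
      rw [DD_of_ne Φ hl hm0] at h1
      have h2 : dl (fun t : List G => if t.length = k then Φ l t else 0) m = dl (Φ l) m := by
        refine dl_congr _ _ m fun t ht => ?_
        rw [if_pos (by omega)]
      have h3 : dl (fun a => (fun a m => if m.length = k + 1 then Φ a m else 0) a m) l =
          dl (fun a => Φ a m) l := by
        refine dl_congr _ _ l fun t _ => ?_
        exact if_pos hm
      rw [h2, h3]
      linarith
    · have h2 : dl (fun t : List G => if t.length = k then Φ l t else 0) m = 0 := by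
        have : dl (fun t : List G => if t.length = k then Φ l t else 0) m =
            dl (fun _ : List G => (0 : ℝ)) m := by
          refine dl_congr _ _ m fun t ht => ?_
          exact if_neg (by omega)
        rw [this]
        simp [dl]
      have h3 : dl (fun a => (fun a m => if m.length = k + 1 then Φ a m else 0) a m) l = 0 := by
        have : dl (fun a => (fun a m => if m.length = k + 1 then Φ a m else 0) a m) l =
            dl (fun _ : List H => (0 : ℝ)) l := by
          refine dl_congr _ _ l fun t _ => ?_
          exact if_neg hm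
        rw [this]
        simp [dl]
      rw [h2, h3, hF.supp m hm]
      ring
  rw [key, D.lam_lin k i _ _ _ _ hF (Uo_dl (hcut k l)), D.lam_dl k i _ (hcut k l)]
  ring

theorem mu_dl (D : FData G) {k : ℕ} (Φ : List H → List G → ℝ)
    (hJ : InK JCc Φ)
    (hinv : ∀ (h : H) (g : G) l m, Φ (l.map (h * ·)) (m.map (g * ·)) = Φ l m)
    (hD : ∀ l m, DD Φ l m = 0) (i : Fin (D.N k)) (l : List H) :
    dl (fun a => D.lam k i (fun m => if m.length = k + 1 then Φ a m else 0)) l = 0 := by
  by_cases hl : l = []
  · subst hl
    exact dl_nil _
  · rw [lam_row_eq D Φ hJ hinv (fun _ => 0) (Uo_zero (k + 1)) i hl fun m _ => hD l m]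
    exact D.lam_zero k i

end Pool.Agent.Helper87.BKF
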