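import Pool.Agent.Helper87.BKF.Kb
import Pool.Agent.Helper87.BKF.Mu

/-!
# Project BKF: the components of length one and two (piece BKF-TAIL)

Compare `Pool/Agent/Helper87/BK/Chase3.lean` (`chase_zero`).
* For `m.length = 2`: `Φ₂ l m = Φ l m` if `m.length = 2`, `0` otherwise; `Φ₂ l` is `Uo 2` (`row_Uo`, `InK_cut`), and
  `dl (Φ₂ l) m = 0`: for `m.length = 3` and `l ≠ []` from `DD Φ l m = 0` (`DD_of_ne`), where the first sum vanishes
  because `Φ a m = 0` for `m.length = 3`; for `l = []` support; for `m.length ≠ 3` the faces have length `≠ 2`.  So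
  `Φ₂ l m = 0` by `D.hom0`.
* `μ₀ l = Φ l [1]`.  `Φ l [γ] = μ₀ l`: invariance with `g = γ`, `h = 1`.  `Cb`: continuity from `regJ`
  (`InK_JC_left`), bounded if `β` (`regP`, `InK_PU_left`; only lists `l` of length `n + 1` matter), support.
  `dl μ₀ l = 0`: `l = []` trivial, otherwise `DD Φ l [1] = 0` with `dl (Φ l) [1] = Φ l [] = 0`.
-/

open scoped Topology

namespace Pool.Agent.Helper87.BKF
open Pool.Agent.Helper11.BC (dl)
open Pool.Agent.Helper87.BCR
open Pool.Agent.Helper87.BK

variable {H G : Type} [Group H] [TopologicalSpace H] [Group G] [TopologicalSpace G]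

private theorem dl_zero_tl {X : Type} (l : List X) : dl (fun _ : List X => (0 : ℝ)) l = 0 := by
  have h := dl_smul (0 : ℝ) (fun _ : List X => (0 : ℝ)) l
  simpa using h

private theorem row_closed_tl {β : Prop} {n j : ℕ} {Φ : List H → List G → ℝ}
    (hΦ : Kb β (n + 2) Φ) (hD : ∀ l m, DD Φ l m = 0)
    (htop : ∀ l m, m.length = j + 1 → Φ l m = 0) (l : List H)
    (m : List G) (hm : m.length = j + 1) : dl (Φ l) m = 0 := by
  have hm0 : m ≠ [] := by
    rintro rfl
    simp at hm
  by_cases hl : l = []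
  · subst hl
    rw [dl_congr (Φ []) (fun _ => 0) m (fun t _ => hΦ.supp [] t (Or.inl rfl)), dl_zero_tl]
  · have h := hD l m
    rw [DD_of_ne Φ hl hm0] at h
    have h1 : (fun a => Φ a m) = fun _ => 0 := by
      funext a
      exact htop a m hm
    rw [h1, dl_zero_tl, zero_add] at h
    rcases mul_eq_zero.1 h with h | h
    · exact absurd h (pow_ne_zero _ (by norm_num))
    · exact h

private theorem two_zero_tl (D : FData G) {β : Prop} {n : ℕ} (Φ : List H → List G → ℝ)
    (hΦ : Kb β (n + 2) Φ) (hD : ∀ l m, DD Φ l m = 0) (htop : ∀ l m, 2 < m.length → Φ l m = 0)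
    (l : List H) (m : List G) (hm : m.length = 2) : Φ l m = 0 := by
  have hU : Uo 2 ((fun (l : List H) (m : List G) => if m.length = 2 then Φ l m else 0) l) := by
    refine row_Uo (InK_cut cls_JC hΦ.regJ 2) (fun h g l m => ?_) (fun l m h => if_neg h) l
    simp only [List.length_map, hΦ.inv]
  have hcl : ∀ m' : List G,
      dl ((fun (l : List H) (m : List G) => if m.length = 2 then Φ l m else 0) l) m' = 0 := by
    intro m'
    by_cases h3 : m'.length = 3
    · rw [dl_congr _ (Φ l) m' (fun t ht => if_pos (by omega))]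
      exact row_closed_tl hΦ hD (fun l m hm => htop l m (by omega)) l m' h3
    · rw [dl_congr _ (fun _ => 0) m' (fun t ht => if_neg (by omega)), dl_zero_tl]
  have h := D.hom0 _ hU hcl m
  simpa only [if_pos hm] using h

theorem chase_tail (D : FData G) {β : Prop} {n : ℕ} (Φ : List H → List G → ℝ)
    (hΦ : Kb β (n + 2) Φ) (hD : ∀ l m, DD Φ l m = 0) (htop : ∀ l m, 2 < m.length → Φ l m = 0) :
    ∃ μ₀ : List H → ℝ, Cb β (n + 1) μ₀ ∧ (∀ l, dl μ₀ l = 0) ∧
      ∀ l m, Φ l m = if m.length = 1 then μ₀ l else 0 := by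
  have h2 := two_zero_tl D Φ hΦ hD htop
  have h1 : ∀ l (γ γ' : G), Φ l [γ'] = Φ l [γ] := by
    intro l γ γ'
    have h := row_closed_tl (j := 1) hΦ hD (fun l m hm => h2 l m hm) l [γ, γ'] rfl
    rw [dl_cons, dl_cons, dl_nil] at h
    linarith
  refine ⟨fun l => Φ l [1], ⟨InK_JC_left hΦ.regJ [1], ?_, ?_, ?_⟩, ?_, ?_⟩
  · intro hβ
    obtain ⟨M, hM⟩ := (InK_PU_left (hΦ.regP hβ) [1]).2 (n + 1)
    refine ⟨|M|, fun l => ?_⟩
    by_cases hl : l.length = n + 1
    · exact (hM l hl).trans (le_abs_self M)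
    · show |Φ l [1]| ≤ |M|
      rw [hΦ.supp l [1] (Or.inr (Or.inr (by simpa using hl))), abs_zero]
      exact abs_nonneg M
  · intro h l
    have := hΦ.inv h 1 l [1]
    simpa using this
  · intro l hl
    exact hΦ.supp l [1] (Or.inr (Or.inr (by simpa using hl)))
  · intro l
    by_cases hl : l = []
    · subst hl
      exact dl_nil _
    · have h := hD l [1]
      rw [DD_of_ne Φ hl (by simp)] at h
      rw [dl_cons (Φ l), dl_nil, hΦ.supp l [] (Or.inr (Or.inl rfl))] at h
      simpa using h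
  · intro l m
    rcases lt_trichotomy m.length 1 with h | h | h
    · have h0 : m = [] := List.length_eq_zero_iff.1 (by omega)
      rw [if_neg (by omega)]
      exact hΦ.supp l m (Or.inr (Or.inl h0))
    · rw [if_pos h]
      obtain ⟨γ, rfl⟩ := List.length_eq_one_iff.1 h
      exact h1 l 1 γ
    · rw [if_neg (by omega)]
      rcases Nat.lt_or_ge 2 m.length with h' | h'
      · exact htop l m h'
      · exact h2 l m (by omega)

end Pool.Agent.Helper87.BKF
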