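import Pool.Agent.Helper87.BKF.Step
import Pool.Agent.Helper87.BKF.Tail

/-!
# Project BKF: the normal form (piece BKF-NORM)

Compare `chase_aux` in `Pool/Agent/Helper87/BK/Chase1.lean` and `normal_form` in `Chase3.lean`.
`normal_aux`: induction on `d`.  `d = 0`: `Φ l m = 0` for `k < m.length` (`n + 1 ≤ k`, support), take zeros.  Step: from
the statement for `k + 1` get `Ψ`, `μ`; `Φ' = Φ - DD Ψ - ∑ j ∈ Icc 2 n, ∑ i, μ j i ⊗ e j i` is `Kb β (n + 2)`
(`Kb.sub`, `Kl.DD`, `Kl_sum`, `Kl_mul` with `n + 1 - j + (j + 1) = n + 2` for `j ≤ n`, `Kl.toKb`), `DD Φ' = 0` (`DD_sub`,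
`DD_sum`, `DD_mul_zero`, `DD_DD`), `Φ' l m = 0` for `k + 1 < m.length`.  Apply `chase_stepF` (with `k ≥ 2`) to `Φ'`:
`Ψ'`, `μ'`.  New `Ψ + Ψ'` and new `μ j = if j = k then μ' else μ j` (`Function.update`, or a dependent `if`); since
`μ j i = 0` for `j < k + 1`, the sum over `j` increases by the term `j = k` if `k ≤ n`; if `n < k` then `μ' i = 0`
(`Cb β 0`, `μ' i [] = 0`), keep `μ`.
`normal_formF`: `normal_aux` with `k = 2`, `d = n`, then `chase_tail` for `Φ - DD Ψ - ∑ ..`, which vanishes for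
`2 < m.length`.
-/

open scoped Topology

namespace Pool.Agent.Helper87.BKF
open Pool.Agent.Helper11.BC (dl)
open Pool.Agent.Helper87.BCR
open Pool.Agent.Helper87.BK

variable {H G : Type} [Group H] [TopologicalSpace H] [Group G] [TopologicalSpace G]
  [IsTopologicalGroup G]

private theorem nrm_dl_zero {X : Type} (l : List X) : dl (fun _ : List X => (0 : ℝ)) l = 0 := by
  have h := dl_smul (0 : ℝ) (fun _ : List X => (0 : ℝ)) l
  simpa using h

private theorem nrm_DD_zero {X Y : Type} (l : List X) (m : List Y) :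
    DD (fun _ _ => (0 : ℝ)) l m = 0 := by
  have h := DD_smul (0 : ℝ) (fun (_ : List X) (_ : List Y) => (0 : ℝ)) l m
  simpa using h

private theorem nrm_Cb_zero {H : Type} [Group H] [TopologicalSpace H] (β : Prop) (k : ℕ) :
    Cb β k (fun _ : List H => (0 : ℝ)) where
  cont := fun _ => continuous_const
  bdd := fun _ => ⟨0, fun _ => by simp⟩
  inv := fun _ _ => rfl
  supp := fun _ _ => rfl

private theorem nrm_T {H G : Type} [Group H] [TopologicalSpace H] [Group G] [TopologicalSpace G]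
    (D : FData G) {β : Prop} {n : ℕ} (Ψ : List H → List G → ℝ)
    (μ : (j : ℕ) → Fin (D.N j) → List H → ℝ) (hΨ : Kl β (n + 1) Ψ)
    (hμ : ∀ j i, Cb β (n + 1 - j) (μ j i)) (hd : ∀ j i l, dl (μ j i) l = 0)
    (h0 : ∀ j i, μ j i [] = 0) :
    Kl β (n + 2) (fun l m => DD Ψ l m + ∑ j ∈ Finset.Icc 2 n, ∑ i, μ j i l * D.e j i m) ∧
      ∀ l m, DD (fun l m => DD Ψ l m + ∑ j ∈ Finset.Icc 2 n, ∑ i, μ j i l * D.e j i m) l m = 0 := by
  constructor
  · refine Kl.add hΨ.DD (Kl_sum (Φ := fun j (l : List H) (m : List G) =>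
      ∑ i, μ j i l * D.e j i m) _ fun j hj => ?_)
    refine Kl_sum (Φ := fun i (l : List H) (m : List G) => μ j i l * D.e j i m) _ fun i _ => ?_
    have h := Kl_mul (j := j) (hμ j i) (h0 j i) (D.he j i).1
    have e : n + 1 - j + (j + 1) = n + 2 := by
      have := (Finset.mem_Icc.mp hj).2
      omega
    rwa [e] at h
  · intro l m
    rw [DD_add (DD Ψ) (fun l m => ∑ j ∈ Finset.Icc 2 n, ∑ i, μ j i l * D.e j i m) l m,
      DD_DD Ψ (fun m => hΨ.supp [] m (Or.inl rfl)) (fun l => hΨ.supp l [] (Or.inr (Or.inl rfl))),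
      zero_add,
      DD_sum (Finset.Icc 2 n) (fun j (l : List H) (m : List G) => ∑ i, μ j i l * D.e j i m) l m]
    refine Finset.sum_eq_zero fun j _ => ?_
    rw [DD_sum Finset.univ (fun i (l : List H) (m : List G) => μ j i l * D.e j i m) l m]
    exact Finset.sum_eq_zero fun i _ => DD_mul_zero (hd j i) (D.he j i).2 l m

theorem normal_aux (D : FData G) {β : Prop} {n : ℕ} (Φ : List H → List G → ℝ)
    (hΦ : Kb β (n + 2) Φ) (hD : ∀ l m, DD Φ l m = 0) (d : ℕ) : ∀ k, n + 1 ≤ k + d → 2 ≤ k →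
    ∃ (Ψ : List H → List G → ℝ) (μ : (j : ℕ) → Fin (D.N j) → List H → ℝ), Kl β (n + 1) Ψ ∧
      (∀ j i, Cb β (n + 1 - j) (μ j i)) ∧ (∀ j i l, dl (μ j i) l = 0) ∧
      (∀ j i, μ j i [] = 0) ∧ (∀ j, j < k → ∀ i l, μ j i l = 0) ∧
      ∀ l m, k < m.length →
        Φ l m = DD Ψ l m + ∑ j ∈ Finset.Icc 2 n, ∑ i, μ j i l * D.e j i m := by
  induction d with
  | zero =>
    intro k hk _
    refine ⟨fun _ _ => 0, fun _ _ _ => 0, Kl_zero _ _, fun _ _ => nrm_Cb_zero _ _,
      fun _ _ l => nrm_dl_zero l, fun _ _ => rfl, fun _ _ _ _ => rfl, ?_⟩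
    intro l m hm
    rw [nrm_DD_zero]
    have h1 : Φ l m = 0 := by
      by_cases hl : l = []
      · exact hΦ.supp l m (Or.inl hl)
      · have : 0 < l.length := List.length_pos_iff.mpr hl
        exact hΦ.supp l m (Or.inr (Or.inr (by omega)))
    rw [h1]
    simp
  | succ d ih =>
    intro k hk hk2
    obtain ⟨Ψ, μ, hΨ, hμ, hμd, hμ0, hμk, hΦΨ⟩ := ih (k + 1) (by omega) (by omega)
    obtain ⟨hT, hTD⟩ := nrm_T D Ψ μ hΨ hμ hμd hμ0
    obtain ⟨Ψ', μ', hΨ', hμ', hμd', hμ0', hst⟩ := chase_stepF D hk2 _ (hΦ.sub hT.toKb)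
      (fun l m => by rw [DD_sub, hD, hTD, sub_zero])
      (fun l m hm => by rw [hΦΨ l m hm, sub_self])
    rcases Nat.lt_or_ge n k with hnk | hnk
    · refine ⟨fun a b => Ψ a b + Ψ' a b, μ, hΨ.add hΨ', hμ, hμd, hμ0,
        fun j hj => hμk j (by omega), ?_⟩
      intro l m hm
      have h1 := hst l m hm
      have h2 : ∑ i, μ' i l * D.e k i m = 0 := by
        refine Finset.sum_eq_zero fun i _ => ?_
        have h3 : μ' i l = 0 := by
          by_cases hl : l = []
          · rw [hl]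
            exact hμ0' i
          · refine (hμ' i).supp l ?_
            have : 0 < l.length := List.length_pos_iff.mpr hl
            omega
        rw [h3, zero_mul]
      rw [h2, add_zero] at h1
      rw [DD_add]
      linarith
    · refine ⟨fun a b => Ψ a b + Ψ' a b, Function.update μ k μ', hΨ.add hΨ', ?_, ?_, ?_, ?_, ?_⟩
      · intro j i
        by_cases hj : j = k
        · subst hj
          rw [Function.update_self]
          exact hμ' i
        · rw [Function.update_of_ne hj]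
          exact hμ j i
      · intro j i l
        by_cases hj : j = k
        · subst hj
          rw [Function.update_self]
          exact hμd' i l
        · rw [Function.update_of_ne hj]
          exact hμd j i l
      · intro j i
        by_cases hj : j = k
        · subst hj
          rw [Function.update_self]
          exact hμ0' i
        · rw [Function.update_of_ne hj]
          exact hμ0 j i
      · intro j hj i l
        rw [Function.update_of_ne (by omega)]
        exact hμk j (by omega) i l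
      · intro l m hm
        have h1 := hst l m hm
        have h2 : ∑ j ∈ Finset.Icc 2 n, ∑ i, Function.update μ k μ' j i l * D.e j i m =
            ∑ j ∈ Finset.Icc 2 n, (∑ i, μ j i l * D.e j i m +
              if j = k then ∑ i, μ' i l * D.e k i m else 0) := by
          refine Finset.sum_congr rfl fun j _ => ?_
          by_cases hj : j = k
          · subst hj
            rw [if_pos rfl, Function.update_self]
            have h3 : ∑ i, μ j i l * D.e j i m = 0 :=
              Finset.sum_eq_zero fun i _ => by rw [hμk j (by omega) i l, zero_mul]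
            rw [h3, zero_add]
          · rw [if_neg hj, Function.update_of_ne hj, add_zero]
        rw [h2, Finset.sum_add_distrib, Finset.sum_ite_eq',
          if_pos (Finset.mem_Icc.mpr ⟨hk2, hnk⟩), DD_add]
        linarith

theorem normal_formF (D : FData G) {β : Prop} {n : ℕ} (hn : 1 ≤ n) (Φ : List H → List G → ℝ)
    (hΦ : Kb β (n + 2) Φ) (hD : ∀ l m, DD Φ l m = 0) :
    ∃ (Ψ : List H → List G → ℝ) (μ₀ : List H → ℝ) (μ : (j : ℕ) → Fin (D.N j) → List H → ℝ),
      Kl β (n + 1) Ψ ∧ Cb β (n + 1) μ₀ ∧ (∀ l, dl μ₀ l = 0) ∧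
      (∀ j i, Cb β (n + 1 - j) (μ j i)) ∧ (∀ j i l, dl (μ j i) l = 0) ∧
      (∀ j i, μ j i [] = 0) ∧
      ∀ l m, Φ l m = DD Ψ l m + (if m.length = 1 then μ₀ l else 0) +
        ∑ j ∈ Finset.Icc 2 n, ∑ i, μ j i l * D.e j i m := by
  obtain ⟨Ψ, μ, hΨ, hμ, hμd, hμ0, -, hΦΨ⟩ := normal_aux D Φ hΦ hD n 2 (by omega) le_rfl
  obtain ⟨hT, hTD⟩ := nrm_T D Ψ μ hΨ hμ hμd hμ0
  obtain ⟨μ₀, hμ₀, hμ₀d, h⟩ := chase_tail D _ (hΦ.sub hT.toKb)
    (fun l m => by rw [DD_sub, hD, hTD, sub_zero])
    (fun l m hm => by rw [hΦΨ l m hm, sub_self])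
  refine ⟨Ψ, μ₀, μ, hΨ, hμ₀, hμ₀d, hμ, hμd, hμ0, fun l m => ?_⟩
  have := h l m
  linarith

end Pool.Agent.Helper87.BKF
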