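import Pool.Agent.Helper87.BKF.Reg
import Pool.Agent.Helper87.BK.Param

/-!
# Project BKF: continuous primitives with parameters (piece BKF-PARAM)

The same proof as `sel_param` in `Pool/Agent/Helper87/BK/Param.lean`: `Ψ l m = s (Φ l) m` if `l.length = p`, `0`
otherwise.  Two conclusions on the regularity: `LPU` implies `LPU` (the bound of `Φ (l.map (· z))` depends on `z`;
use `InK_LPU_right` instead of `InK_PU_right`) and `PU` implies `PU` (this part is literally the old proof; it
can also be obtained from the theorem `sel_param` only if the function `Ψ` is the same, so repeat the argument).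
-/

open scoped Topology

namespace Pool.Agent.Helper87.BKF
open Pool.Agent.Helper11.BC (dl)
open Pool.Agent.Helper87.BCR
open Pool.Agent.Helper87.BK

variable {H G : Type} [Group H] [TopologicalSpace H] [Group G] [TopologicalSpace G]

private lemma paramF_ofFn {W X : Type} (m : List (W → X)) (w : W) :
    List.ofFn (fun i : Fin m.length => m.get i w) = m.map fun e => e w := by
  have h : List.ofFn (fun i : Fin m.length => m.get i w) =
      (List.ofFn m.get).map fun e => e w := by
    rw [List.map_ofFn]
    rfl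
  rw [h, List.ofFn_get]

private lemma paramF_exists {A : Type} {k : ℕ} (l : List A) (hl : l.length = k) :
    ∃ v : Fin k → A, l = List.ofFn v := by
  subst hl
  exact ⟨l.get, (List.ofFn_get l).symm⟩

private lemma paramF_cy (k p : ℕ) (Φ : List H → List G → ℝ) (hreg : InK LPUc Φ)
    (hinv : ∀ (h : H) (g : G) l m, Φ (l.map (h * ·)) (m.map (g * ·)) = Φ l m)
    (hsupp : ∀ (l : List H) (m : List G), l.length ≠ p ∨ m.length ≠ k + 1 → Φ l m = 0)
    (hcoc : ∀ l m, dl (Φ l) m = 0) (l : List H) : Cy (k + 1) (Φ l) := by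
  obtain ⟨h1, h2⟩ := InK_LPU_right hreg l
  refine ⟨⟨h1, ?_, ?_, ?_⟩, hcoc l⟩
  · obtain ⟨M, hM⟩ := h2 (k + 1)
    refine ⟨|M|, fun m => ?_⟩
    by_cases hm : m.length = k + 1
    · exact (hM m hm).trans (le_abs_self M)
    · rw [hsupp l m (Or.inr hm), abs_zero]
      exact abs_nonneg M
  · intro g m
    have h3 := hinv 1 g l m
    have h4 : l.map ((1 : H) * ·) = l := by simp
    rwa [h4] at h3
  · intro m hm
    exact hsupp l m (Or.inr hm)

theorem sel_paramF (k p : ℕ) {ι : Type} (lam : ι → (List G → ℝ) → ℝ)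
    (s : (List G → ℝ) → List G → ℝ) (C : ℝ) (hC : 0 ≤ C)
    (hs : ∀ φ, Cy (k + 1) φ → (∀ i, lam i φ = 0) → Co k (s φ) ∧ (∀ m, φ m = dl (s φ) m) ∧
      (∀ M : ℝ, (∀ m, |φ m| ≤ M) → ∀ m, |s φ m| ≤ C * (M + 1)) ∧
      ∀ ε > 0, ∃ δ > 0, ∀ φ', Cy (k + 1) φ' → (∀ i, lam i φ' = 0) →
        (∀ m, |φ m - φ' m| ≤ δ) → ∀ m, |s φ m - s φ' m| ≤ ε)
    (Φ : List H → List G → ℝ) (hreg : InK LPUc Φ)
    (hinv : ∀ (h : H) (g : G) l m, Φ (l.map (h * ·)) (m.map (g * ·)) = Φ l m)
    (hsupp : ∀ (l : List H) (m : List G), l.length ≠ p ∨ m.length ≠ k + 1 → Φ l m = 0)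
    (hcoc : ∀ l m, dl (Φ l) m = 0) (hlam : ∀ l i, lam i (Φ l) = 0) :
    ∃ Ψ : List H → List G → ℝ, InK LPUc Ψ ∧ (InK PUc Φ → InK PUc Ψ) ∧
      (∀ (h : H) (g : G) l m, Ψ (l.map (h * ·)) (m.map (g * ·)) = Ψ l m) ∧
      (∀ (l : List H) (m : List G), l.length ≠ p ∨ m.length ≠ k → Ψ l m = 0) ∧
      ∀ l m, Φ l m = dl (Ψ l) m := by
  have hcy : ∀ l, Cy (k + 1) (Φ l) := paramF_cy k p Φ hreg hinv hsupp hcoc
  -- continuity of the values of `s` along a list of continuous functions
  have hcont : ∀ (φ : List G → ℝ), Cy (k + 1) φ → (∀ i, lam i φ = 0) → ∀ (W : Type)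
      [TopologicalSpace W] (m : List (W → G)), (∀ e ∈ m, Continuous e) →
      Continuous fun w => s φ (m.map fun e => e w) := by
    intro φ hφ hlφ W _ m hm
    have h1 := (hs φ hφ hlφ).1.cont m.length
    have h2 : Continuous fun w : W => (fun i : Fin m.length => m.get i w) :=
      continuous_pi fun i => hm _ (List.get_mem m i)
    have h3 := h1.comp h2
    refine h3.congr fun w => ?_
    simp only [Function.comp_apply]
    rw [paramF_ofFn]
  -- the family of the values of `Φ` on the lists of length `k + 1`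
  have hcoord : ∀ e ∈ (List.ofFn fun (i : Fin (k + 1)) (w' : Fin (k + 1) → G) => w' i),
      Continuous e := by
    intro e he
    obtain ⟨i, rfl⟩ := List.mem_ofFn.mp he
    exact continuous_apply i
  have e1 : ∀ w' : Fin (k + 1) → G,
      ((List.ofFn fun (i : Fin (k + 1)) (w' : Fin (k + 1) → G) => w' i).map fun e => e w') =
        List.ofFn w' := by
    intro w'
    rw [List.map_ofFn]
    rfl
  -- uniform continuity in the first parameter
  have hunif : ∀ (Z : Type) [TopologicalSpace Z] (l : List (Z → H)),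
      (∀ z₀ : Z, ∀ ε > 0, ∀ᶠ z in 𝓝 z₀, ∀ w' : Fin (k + 1) → G,
        |Φ (l.map fun e => e z) (List.ofFn w') - Φ (l.map fun e => e z₀) (List.ofFn w')| ≤ ε) →
      ∀ z₀ : Z, ∀ ε > 0, ∀ᶠ z in 𝓝 z₀, ∀ m' : List G,
        |s (Φ (l.map fun e => e z)) m' - s (Φ (l.map fun e => e z₀)) m'| ≤ ε := by
    intro Z _ l hU z₀ ε hε
    obtain ⟨δ, hδ, h1⟩ := (hs (Φ (l.map fun e => e z₀)) (hcy _) (hlam _)).2.2.2 ε hε
    filter_upwards [hU z₀ δ hδ] with z hz m'
    rw [abs_sub_comm]
    apply h1 (Φ (l.map fun e => e z)) (hcy _) (hlam _)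
    intro m''
    by_cases hm' : m''.length = k + 1
    · obtain ⟨v, rfl⟩ := paramF_exists m'' hm'
      rw [abs_sub_comm]
      exact hz v
    · rw [(hcy (l.map fun e => e z)).1.supp m'' hm', (hcy (l.map fun e => e z₀)).1.supp m'' hm',
        sub_zero, abs_zero]
      exact hδ.le
  -- bounds
  have hbd : ∀ (l : List H) (M : ℝ), (∀ w' : Fin (k + 1) → G, |Φ l (List.ofFn w')| ≤ M) →
      ∀ m', |s (Φ l) m'| ≤ C * (|M| + 1) := by
    intro l M hM
    refine (hs (Φ l) (hcy l) (hlam l)).2.2.1 |M| ?_
    intro m'
    by_cases hm' : m'.length = k + 1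
    · obtain ⟨v, rfl⟩ := paramF_exists m' hm'
      exact (hM v).trans (le_abs_self M)
    · rw [(hcy l).1.supp m' hm', abs_zero]
      exact abs_nonneg M
  refine ⟨fun l m => if l.length = p then s (Φ l) m else 0, ?_, ?_, ?_, ?_, ?_⟩
  · intro Z W _ _ l m hl hm
    by_cases hp : l.length = p
    · have hPU := hreg Z (Fin (k + 1) → G) l (List.ofFn fun i w' => w' i) hl hcoord
      obtain ⟨hM, -, hU⟩ := hPU
      simp only [e1] at hM hU
      have key : (fun z w => if (l.map fun e => e z).length = p then
          s (Φ (l.map fun e => e z)) (m.map fun e => e w) else 0) =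
          fun z w => s (Φ (l.map fun e => e z)) (m.map fun e => e w) := by
        funext z w
        rw [if_pos (by rw [List.length_map]; exact hp)]
      change LPU (fun z w => if (l.map fun e => e z).length = p then
          s (Φ (l.map fun e => e z)) (m.map fun e => e w) else 0)
      rw [key]
      refine ⟨fun z => ?_, fun z => hcont _ (hcy _) (hlam _) W m hm, fun z₀ ε hε => ?_⟩
      · obtain ⟨M, hM⟩ := hM z
        exact ⟨C * (|M| + 1), fun w => hbd _ M hM _⟩
      · filter_upwards [hunif Z l hU z₀ ε hε] with z hz w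
        exact hz _
    · have key : (fun (z : Z) (w : W) => if (l.map fun e => e z).length = p then
          s (Φ (l.map fun e => e z)) (m.map fun e => e w) else 0) = fun _ _ => 0 := by
        funext z w
        rw [if_neg (by rw [List.length_map]; exact hp)]
      change LPU (fun z w => if (l.map fun e => e z).length = p then
          s (Φ (l.map fun e => e z)) (m.map fun e => e w) else 0)
      rw [key]
      exact cls_LPU.zero Z W
  · intro hregP Z W _ _ l m hl hm
    by_cases hp : l.length = p
    · have hPU := hregP Z (Fin (k + 1) → G) l (List.ofFn fun i w' => w' i) hl hcoord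
      obtain ⟨⟨M, hM⟩, -, hU⟩ := hPU
      simp only [e1] at hM hU
      have key : (fun z w => if (l.map fun e => e z).length = p then
          s (Φ (l.map fun e => e z)) (m.map fun e => e w) else 0) =
          fun z w => s (Φ (l.map fun e => e z)) (m.map fun e => e w) := by
        funext z w
        rw [if_pos (by rw [List.length_map]; exact hp)]
      change PU (fun z w => if (l.map fun e => e z).length = p then
          s (Φ (l.map fun e => e z)) (m.map fun e => e w) else 0)
      rw [key]
      refine ⟨⟨C * (|M| + 1), fun z w => hbd _ M (hM z) _⟩,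
        fun z => hcont _ (hcy _) (hlam _) W m hm, fun z₀ ε hε => ?_⟩
      filter_upwards [hunif Z l hU z₀ ε hε] with z hz w
      exact hz _
    · have key : (fun (z : Z) (w : W) => if (l.map fun e => e z).length = p then
          s (Φ (l.map fun e => e z)) (m.map fun e => e w) else 0) = fun _ _ => 0 := by
        funext z w
        rw [if_neg (by rw [List.length_map]; exact hp)]
      change PU (fun z w => if (l.map fun e => e z).length = p then
          s (Φ (l.map fun e => e z)) (m.map fun e => e w) else 0)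
      rw [key]
      exact cls_PU.zero Z W
  · intro h g l m
    have h1 : Φ (l.map (h * ·)) = Φ l := by
      funext m'
      have h3 := hinv h 1 l m'
      have h4 : m'.map ((1 : G) * ·) = m' := by simp
      rwa [h4] at h3
    simp only [List.length_map, h1]
    by_cases hp : l.length = p
    · rw [if_pos hp, if_pos hp]
      exact (hs (Φ l) (hcy l) (hlam l)).1.inv g m
    · rw [if_neg hp, if_neg hp]
  · intro l m h
    by_cases hp : l.length = p
    · simp only [if_pos hp]
      exact (hs (Φ l) (hcy l) (hlam l)).1.supp m (h.resolve_left (fun h' => h' hp))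
    · simp only [if_neg hp]
  · intro l m
    by_cases hp : l.length = p
    · simp only [if_pos hp]
      exact (hs (Φ l) (hcy l) (hlam l)).2.1 m
    · simp only [if_neg hp]
      rw [hsupp l m (Or.inl hp)]
      simp [dl]

end Pool.Agent.Helper87.BKF
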