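import Pool.Agent.Helper87.BKF.Basic

/-!
# Project BKF: the class `LPU` (piece BKF-REG)

Compare `Pool/Agent/Helper87/BK/Reg3.lean` (where the same is done for `PU`; the proofs are the same, only
the uniform bound is replaced by a bound for every `z`; some auxiliary lemmas there are private, copy them
with a new name if needed).
* `LPU_joint`: `|F z w - F z₀ w₀| ≤ |F z w - F z₀ w| + |F z₀ w - F z₀ w₀|`.
* `InK_LPU_right`: take `Z = Unit`, `W = Fin k → Y`, constant functions for the entries of `l` and the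
  coordinate functions for `m`.
-/

open scoped Topology

namespace Pool.Agent.Helper87.BKF
open Pool.Agent.Helper11.BC (dl)
open Pool.Agent.Helper87.BCR
open Pool.Agent.Helper87.BK

theorem cls_LPU : Cls LPUc where
  zero Z W _ _ := by
    refine ⟨fun _ => ⟨0, fun _ => by simp⟩, fun _ => continuous_const, fun z₀ ε hε => ?_⟩
    exact Filter.Eventually.of_forall fun z w => by simpa using hε.le
  add Z W _ _ F F' hF hF' := by
    obtain ⟨hb, hc, hu⟩ := hF
    obtain ⟨hb', hc', hu'⟩ := hF'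
    refine ⟨fun z => ?_, fun z => (hc z).add (hc' z), fun z₀ ε hε => ?_⟩
    · obtain ⟨M, hM⟩ := hb z
      obtain ⟨M', hM'⟩ := hb' z
      exact ⟨M + M', fun w => (abs_add_le _ _).trans (add_le_add (hM w) (hM' w))⟩
    filter_upwards [hu z₀ (ε / 2) (half_pos hε), hu' z₀ (ε / 2) (half_pos hε)] with z h1 h2 w
    calc |F z w + F' z w - (F z₀ w + F' z₀ w)| = |(F z w - F z₀ w) + (F' z w - F' z₀ w)| := by
          congr 1; ring
      _ ≤ |F z w - F z₀ w| + |F' z w - F' z₀ w| := abs_add_le _ _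
      _ ≤ ε / 2 + ε / 2 := add_le_add (h1 w) (h2 w)
      _ = ε := add_halves ε
  smul Z W _ _ c F hF := by
    obtain ⟨hb, hc, hu⟩ := hF
    refine ⟨fun z => ?_, fun z => continuous_const.mul (hc z), fun z₀ ε hε => ?_⟩
    · obtain ⟨M, hM⟩ := hb z
      refine ⟨|c| * M, fun w => ?_⟩
      rw [abs_mul]
      exact mul_le_mul_of_nonneg_left (hM w) (abs_nonneg c)
    · by_cases h0 : c = 0
      · exact Filter.Eventually.of_forall fun z w => by simpa [h0] using hε.le
      · have hc0 : 0 < |c| := abs_pos.2 h0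
        filter_upwards [hu z₀ (ε / |c|) (div_pos hε hc0)] with z h1 w
        rw [← mul_sub, abs_mul]
        calc |c| * |F z w - F z₀ w| ≤ |c| * (ε / |c|) :=
              mul_le_mul_of_nonneg_left (h1 w) (abs_nonneg c)
          _ = ε := mul_div_cancel₀ ε hc0.ne'

theorem PU_LPU {Z W : Type} [TopologicalSpace Z] [TopologicalSpace W] {F : Z → W → ℝ}
    (hF : PU F) : LPU F := by
  obtain ⟨⟨M, hM⟩, hc, hu⟩ := hF
  exact ⟨fun z => ⟨M, hM z⟩, hc, hu⟩

theorem LPU_joint {Z W : Type} [TopologicalSpace Z] [TopologicalSpace W] {F : Z → W → ℝ}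
    (hF : LPU F) : Continuous fun p : Z × W => F p.1 p.2 := by
  obtain ⟨-, hc, hu⟩ := hF
  rw [continuous_iff_continuousAt]
  rintro ⟨z₀, w₀⟩
  rw [ContinuousAt, Metric.tendsto_nhds]
  intro ε hε
  have h1 : ∀ᶠ p : Z × W in 𝓝 (z₀, w₀), ∀ w, |F p.1 w - F z₀ w| ≤ ε / 2 := by
    rw [nhds_prod_eq]
    exact Filter.Eventually.prod_inl (hu z₀ (ε / 2) (half_pos hε)) _
  have h2 : ∀ᶠ p : Z × W in 𝓝 (z₀, w₀), |F z₀ p.2 - F z₀ w₀| < ε / 2 := by
    have h := (Metric.tendsto_nhds.1 ((hc z₀).continuousAt (x := w₀))) (ε / 2) (half_pos hε)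
    rw [nhds_prod_eq]
    exact Filter.Eventually.prod_inr h _
  filter_upwards [h1, h2] with p hp1 hp2
  rw [Real.dist_eq]
  calc |F p.1 p.2 - F z₀ w₀| = |(F p.1 p.2 - F z₀ p.2) + (F z₀ p.2 - F z₀ w₀)| := by
        congr 1; ring
    _ ≤ |F p.1 p.2 - F z₀ p.2| + |F z₀ p.2 - F z₀ w₀| := abs_add_le _ _
    _ < ε / 2 + ε / 2 := add_lt_add_of_le_of_lt (hp1 p.2) hp2
    _ = ε := add_halves ε

variable {X Y : Type} [TopologicalSpace X] [TopologicalSpace Y]

/-- the coordinates form a list -/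
private theorem lreg_one (k : ℕ) (z : Fin k → X) :
    (List.ofFn fun i : Fin k => fun z : Fin k → X => z i).map (fun e => e z) = List.ofFn z := by
  rw [List.map_ofFn]
  rfl

/-- lists of constant functions -/
private theorem lreg_const {Z : Type} (l : List X) (z : Z) :
    (l.map fun x => fun _ : Z => x).map (fun e => e z) = l := by
  rw [List.map_map]
  exact List.map_id l

private theorem lreg_constc {Z : Type} [TopologicalSpace Z] (l : List X) :
    ∀ e ∈ (l.map fun x => fun _ : Z => x), Continuous e := by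
  intro e he
  obtain ⟨x, -, rfl⟩ := List.mem_map.1 he
  exact continuous_const

private theorem lreg_onec (k : ℕ) :
    ∀ e ∈ (List.ofFn fun i : Fin k => fun z : Fin k → X => z i), Continuous e := by
  intro e he
  obtain ⟨i, rfl⟩ := (List.mem_ofFn' _ _).1 he
  exact continuous_apply i

/-- every list of length `k` is a list of values -/
private theorem lreg_exists {A : Type} {k : ℕ} (l : List A) (hl : l.length = k) :
    ∃ v : Fin k → A, List.ofFn v = l := by
  subst hl
  exact ⟨l.get, List.ofFn_get l⟩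

theorem InK_PU_LPU {Φ : List X → List Y → ℝ} (h : InK PUc Φ) : InK LPUc Φ :=
  fun Z W _ _ l m hl hm => PU_LPU (h Z W l m hl hm)

theorem InK_LPU_JC {Φ : List X → List Y → ℝ} (h : InK LPUc Φ) : InK JCc Φ :=
  fun Z W _ _ l m hl hm => LPU_joint (h Z W l m hl hm)

theorem InK_JC_right {Φ : List X → List Y → ℝ} (h : InK JCc Φ) (l : List X) : LC (Φ l) := by
  intro k
  have h1 := h Unit (Fin k → Y) (l.map fun x => fun _ : Unit => x) _ (lreg_constc l) (lreg_onec k)
  have h2 : Continuous fun p : Unit × (Fin k → Y) => Φ l (List.ofFn p.2) := by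
    refine (show Continuous _ from h1).congr fun p => ?_
    beta_reduce
    rw [lreg_one, lreg_const]
  exact h2.comp (Continuous.prodMk_right ())

theorem InK_LPU_right {Φ : List X → List Y → ℝ} (h : InK LPUc Φ) (l : List X) :
    LC (Φ l) ∧ LB (Φ l) := by
  refine ⟨InK_JC_right (InK_LPU_JC h) l, fun k => ?_⟩
  obtain ⟨hb, -⟩ :=
    h Unit (Fin k → Y) (l.map fun x => fun _ : Unit => x) _ (lreg_constc l) (lreg_onec k)
  obtain ⟨M, hM⟩ := hb ()
  refine ⟨M, fun m hm => ?_⟩
  obtain ⟨v, rfl⟩ := lreg_exists m hm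
  have h1 := hM v
  beta_reduce at h1
  rwa [lreg_one, lreg_const] at h1

end Pool.Agent.Helper87.BKF
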