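import Pool.Agent.Helper87.BKF.FD
import Pool.Agent.Helper87.BKF.Hom
import Pool.Agent.Helper87.BK.Final

/-!
# Project BKF: the data of `SL(2, ℝ)` (piece BKF-SLD)

`exists_gdata van_G` gives `D₀ : GData G` and either `e = 0` or a 2-cycle `v` with `cev v e = 1`.
If `e = 0`: `N j = 0` for all `j`; `prim 2` is `D₀.prim2` with `e = 0`, `prim j` for `j ≥ 3` is `van_G`.
Otherwise `N j = if j = 2 then 1 else 0`, `e 2 0 = D₀.e`, `lam 2 0 = cev v`, `C 2 = ∑ p ∈ v.support, |v p|`,
`D 2 = {x | ∃ p ∈ v.support, x = ![1, p.1, p.1 * p.2]}` (finite, so compact), `D j = ∅` otherwise.  `lam_dl`: `IsCyc`.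
`prim 2`: `D₀.prim2`: `φ = dl ψ + D₀.lam φ * D₀.e`, so `0 = cev v φ = D₀.lam φ * 1` (linearity, `IsCyc`).
To define the families without casts: `e j _ = if j = 2 then D₀.e else 0` and `lam j _ = if j = 2 then cev v else 0`
(`Fin (N j)` is empty for `j ≠ 2`, so all statements for `j ≠ 2` are vacuous in `i`).
`hom0`: `hom_SL2` (file `Hom.lean`).
-/

open scoped MatrixGroups Topology

namespace Pool.Agent.Helper87.BKF
open Pool.Agent.Helper11.BC
open Pool.Agent.Helper87.BCR
open Pool.Agent.Helper87.BK

private theorem SLData_cev_lin (v : G × G →₀ ℝ) (φ ψ : List G → ℝ) (a b : ℝ) :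
    cev v (fun m => a * φ m + b * ψ m) = a * cev v φ + b * cev v ψ := by
  unfold cev Finsupp.sum
  rw [Finset.mul_sum, Finset.mul_sum, ← Finset.sum_add_distrib]
  refine Finset.sum_congr rfl fun p _ => ?_
  ring

private theorem SLData_cev_bd (v : G × G →₀ ℝ) (φ : List G → ℝ) (M : ℝ)
    (h : ∀ p ∈ v.support, |φ [1, p.1, p.1 * p.2]| ≤ M) :
    |cev v φ| ≤ (∑ p ∈ v.support, |v p|) * M := by
  unfold cev Finsupp.sum
  refine (Finset.abs_sum_le_sum_abs _ _).trans ?_
  rw [Finset.sum_mul]
  refine Finset.sum_le_sum fun p hp => ?_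
  rw [abs_mul]
  exact mul_le_mul_of_nonneg_left (h p hp) (abs_nonneg _)

private theorem SLData_fin {j : ℕ} (i i' : Fin (if j = 2 then 1 else 0)) : i = i' := by
  have h1 := i.2
  have h2 := i'.2
  apply Fin.ext
  split_ifs at h1 h2 <;> omega

private theorem SLData_two {j : ℕ} (i : Fin (if j = 2 then 1 else 0)) : j = 2 := by
  by_contra h
  have h1 : ∀ n : ℕ, n < (if j = 2 then 1 else 0) → False := by
    intro n hn
    rw [if_neg h] at hn
    omega
  exact h1 _ i.2

theorem exists_fdata_SL2 : Nonempty (FData G) := by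
  obtain ⟨D₀, h⟩ := exists_gdata van_G
  rcases h with h0 | ⟨v, hv, hve⟩
  · refine ⟨{ N := fun _ => 0
              e := fun _ i => i.elim0
              lam := fun _ i => i.elim0
              C := fun _ => 0
              D := fun _ => ∅
              hD := fun _ => isCompact_empty
              he := fun _ i => i.elim0
              lam_lin := fun _ i => i.elim0
              lam_bd := fun _ i => i.elim0
              lam_dl := fun _ i => i.elim0
              lam_e := fun _ i => i.elim0
              prim := ?_
              hom0 := hom_SL2 }⟩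
    intro j hj φ hφ _
    rcases Nat.lt_or_ge 2 j with h3 | h3
    · exact van_G j h3 φ hφ
    · have h2 : j = 2 := by omega
      subst h2
      obtain ⟨ψ, hψ, h⟩ := D₀.prim2 φ hφ
      exact ⟨ψ, hψ, fun m => by rw [h m, h0, mul_zero, add_zero]⟩
  · refine ⟨{ N := fun j => if j = 2 then 1 else 0
              e := fun _ _ => D₀.e
              lam := fun _ _ => cev v
              C := fun _ => ∑ p ∈ v.support, |v p|
              D := fun j => (fun (p : G × G) (i : Fin (j + 1)) =>
                ([1, p.1, p.1 * p.2] : List G).getD i 1) '' (v.support : Set (G × G))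
              hD := fun j => (v.support.finite_toSet.image _).isCompact
              he := ?_
              lam_lin := fun _ _ φ ψ a b _ _ => SLData_cev_lin v φ ψ a b
              lam_bd := ?_
              lam_dl := fun _ _ ψ hψ => hv ψ hψ.inv
              lam_e := ?_
              prim := ?_
              hom0 := hom_SL2 }⟩
    · intro j i
      have h2 := SLData_two i
      subst h2
      exact D₀.he
    · intro j i φ M _ _ hM
      have h2 := SLData_two i
      subst h2
      refine SLData_cev_bd v φ M fun p hp => ?_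
      exact hM _ ⟨p, hp, rfl⟩
    · intro j i i'
      rw [if_pos (SLData_fin i i')]
      exact hve
    · intro j hj φ hφ hl
      rcases Nat.lt_or_ge 2 j with h3 | h3
      · exact van_G j h3 φ hφ
      · have h2 : j = 2 := by omega
        subst h2
        obtain ⟨ψ, hψ, h⟩ := D₀.prim2 φ hφ
        have h4 : cev v φ = 0 := hl ⟨0, by simp⟩
        have h5 : φ = fun m => 1 * dl ψ m + D₀.lam φ * D₀.e m := by
          funext m
          rw [h m]
          ring
        have h6 : D₀.lam φ = 0 := by
          have h7 := SLData_cev_lin v (dl ψ) D₀.e 1 (D₀.lam φ)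
          rw [← h5, h4, hv ψ hψ.inv, hve] at h7
          linarith
        exact ⟨ψ, hψ, fun m => by rw [h m, h6, zero_mul, add_zero]⟩

end Pool.Agent.Helper87.BKF
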