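import Pool.Agent.Helper87.BKF.Basic
import Pool.Agent.Helper87.BK.Sel

/-!
# Project BKF: continuous primitives of cocycles on `G` (piece BKF-SEL)

The same proof as `exists_sel` in `Pool/Agent/Helper87/BK/Sel.lean` (copy it, with new names for the private
lemmas): only the condition `lam φ = 0` is replaced by `∀ i, lam i φ = 0` and the bound `|lam φ| ≤ M` by
`|lam i φ| ≤ C₀ * M` for `0 ≤ M`.  (Closedness of `F`: if `φ` is in the closure and `lam i φ ≠ 0`, take `ψ` in `F`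
with `‖φ - ψ‖ < |lam i φ| / (|C₀| + 1)`.)
-/

open scoped Topology

namespace Pool.Agent.Helper87.BKF
open Pool.Agent.Helper11.BC (dl)
open Pool.Agent.Helper87.BCR
open Pool.Agent.Helper87.BK

section selF

set_option linter.unusedSectionVars false

variable {G : Type} [Group G] [TopologicalSpace G]

private lemma SelF_dl_add {X : Type} (Φ Ψ : List X → ℝ) (l : List X) :
    dl (fun m => Φ m + Ψ m) l = dl Φ l + dl Ψ l := by
  unfold dl
  rw [← Finset.sum_add_distrib]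
  refine Finset.sum_congr rfl fun i _ => ?_
  simp only [smul_eq_mul]
  ring

private lemma SelF_dl_smul {X : Type} (c : ℝ) (Φ : List X → ℝ) (l : List X) :
    dl (fun m => c * Φ m) l = c * dl Φ l := by
  unfold dl
  rw [Finset.mul_sum]
  refine Finset.sum_congr rfl fun i _ => ?_
  simp only [smul_eq_mul]
  ring

private lemma SelF_dl_dl {X : Type} (l : List X) : ∀ Φ : List X → ℝ, dl (dl Φ) l = 0 := by
  induction l with
  | nil => intro Φ; exact dl_nil _
  | cons x l ih =>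
    intro Φ
    rw [dl_cons]
    have h1 : (fun m => dl Φ (x :: m)) = fun m => Φ m - dl (fun t => Φ (x :: t)) m := by
      funext m
      exact dl_cons Φ x m
    rw [h1, dl_sub Φ (dl fun t => Φ (x :: t)) l, ih (fun t => Φ (x :: t))]
    ring

private lemma SelF_dl_abs {X : Type} (Φ : List X → ℝ) (M : ℝ) (h : ∀ m, |Φ m| ≤ M) (l : List X) :
    |dl Φ l| ≤ l.length * M := by
  unfold dl
  calc |∑ i ∈ Finset.range l.length, (-1 : ℝ) ^ i • Φ (l.eraseIdx i)|
      ≤ ∑ i ∈ Finset.range l.length, |(-1 : ℝ) ^ i • Φ (l.eraseIdx i)| :=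
        Finset.abs_sum_le_sum_abs _ _
    _ ≤ ∑ i ∈ Finset.range l.length, M := by
        refine Finset.sum_le_sum fun i _ => ?_
        rw [smul_eq_mul, abs_mul, abs_pow, abs_neg, abs_one, one_pow, one_mul]
        exact h _
    _ = l.length * M := by rw [Finset.sum_const, Finset.card_range, nsmul_eq_mul]

private lemma SelF_erase {n : ℕ} (x : Fin (n + 1) → G) (i : Fin (n + 1)) :
    (List.ofFn x).eraseIdx i = List.ofFn fun j : Fin n => x (Fin.succAbove i j) := by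
  apply List.ext_getElem
  · rw [List.length_eraseIdx_of_lt (by rw [List.length_ofFn]; exact i.2), List.length_ofFn,
      List.length_ofFn]
    simp
  · intro m h1 h2
    rw [List.length_ofFn] at h2
    rw [List.getElem_eraseIdx]
    by_cases hm : m < (i : ℕ)
    · rw [dif_pos hm, List.getElem_ofFn, List.getElem_ofFn]
      congr 1
      rw [Fin.succAbove_of_castSucc_lt _ _ (by simpa [Fin.lt_def] using hm)]
      rfl
    · rw [dif_neg hm, List.getElem_ofFn, List.getElem_ofFn]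
      congr 1
      rw [Fin.succAbove_of_le_castSucc _ _ (by simpa [Fin.le_def] using hm)]
      rfl

private lemma SelF_LC_dl {Φ : List G → ℝ} (h : LC Φ) : LC (dl Φ) := by
  intro n
  rcases n with _ | n
  · have : (fun v : Fin 0 → G => dl Φ (List.ofFn v)) = fun _ => 0 := by
      funext v
      rw [List.ofFn_zero, dl_nil]
    rw [this]
    exact continuous_const
  · have : (fun v : Fin (n + 1) → G => dl Φ (List.ofFn v)) = fun v =>
        ∑ i : Fin (n + 1), (-1 : ℝ) ^ (i : ℕ) *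
          Φ (List.ofFn fun j : Fin n => v (Fin.succAbove i j)) := by
      funext v
      unfold dl
      rw [List.length_ofFn, Finset.sum_range]
      refine Finset.sum_congr rfl fun i _ => ?_
      rw [SelF_erase, smul_eq_mul]
    rw [this]
    refine continuous_finsetSum _ fun i _ => continuous_const.mul ?_
    exact (h n).comp (continuous_pi fun j => continuous_apply _)

private lemma SelF_Cy_dl (k : ℕ) {Φ : List G → ℝ} (h : Co k Φ) : Cy (k + 1) (dl Φ) := by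
  obtain ⟨M, hM⟩ := h.bdd
  have hsupp : ∀ l : List G, l.length ≠ k + 1 → dl Φ l = 0 := by
    intro l hl
    unfold dl
    refine Finset.sum_eq_zero fun i hi => ?_
    rw [Finset.mem_range] at hi
    rw [h.supp, smul_zero]
    rw [List.length_eraseIdx_of_lt hi]
    omega
  refine ⟨⟨SelF_LC_dl h.cont, ⟨(k + 1) * |M|, fun l => ?_⟩, fun g l => ?_, hsupp⟩,
    fun l => SelF_dl_dl l Φ⟩
  · by_cases hl : l.length = k + 1
    · have := SelF_dl_abs Φ |M| (fun m => (hM m).trans (le_abs_self M)) l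
      rw [hl] at this
      push_cast at this
      exact this
    · rw [hsupp l hl, abs_zero]
      positivity
  · unfold dl
    rw [List.length_map]
    refine Finset.sum_congr rfl fun i _ => ?_
    rw [List.eraseIdx_map, h.inv]

private lemma SelF_Co_add (k : ℕ) {Φ Ψ : List G → ℝ} (h : Co k Φ) (h' : Co k Ψ) :
    Co k (fun l => Φ l + Ψ l) := by
  obtain ⟨M, hM⟩ := h.bdd
  obtain ⟨M', hM'⟩ := h'.bdd
  refine ⟨fun n => (h.cont n).add (h'.cont n),
    ⟨M + M', fun l => (abs_add_le _ _).trans (add_le_add (hM l) (hM' l))⟩, fun g l => ?_,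
    fun l hl => ?_⟩
  · simp only [h.inv, h'.inv]
  · simp only [h.supp l hl, h'.supp l hl, add_zero]

private lemma SelF_Co_smul (k : ℕ) (c : ℝ) {Φ : List G → ℝ} (h : Co k Φ) :
    Co k (fun l => c * Φ l) := by
  obtain ⟨M, hM⟩ := h.bdd
  refine ⟨fun n => continuous_const.mul (h.cont n), ⟨|c| * M, fun l => ?_⟩, fun g l => ?_,
    fun l hl => ?_⟩
  · rw [abs_mul]
    exact mul_le_mul_of_nonneg_left (hM l) (abs_nonneg c)
  · simp only [h.inv]
  · simp only [h.supp l hl, mul_zero]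

private lemma SelF_Co_zero (k : ℕ) : Co k (fun _ : List G => (0 : ℝ)) :=
  ⟨fun _ => continuous_const, ⟨0, fun _ => by simp⟩, fun _ _ => rfl, fun _ _ => rfl⟩

private lemma SelF_Co_lim (k : ℕ) {Φ : List G → ℝ}
    (h : ∀ ε > 0, ∃ Ψ : List G → ℝ, Co k Ψ ∧ ∀ l, |Φ l - Ψ l| ≤ ε) : Co k Φ := by
  refine ⟨fun n => ?_, ?_, fun g l => ?_, fun l hl => ?_⟩
  · refine continuous_of_uniform_approx_of_continuous fun u hu => ?_
    obtain ⟨ε, hε, hu'⟩ := Metric.mem_uniformity_dist.1 hu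
    obtain ⟨Ψ, hΨ, h1⟩ := h (ε / 2) (half_pos hε)
    refine ⟨_, hΨ.cont n, fun y => hu' ?_⟩
    rw [Real.dist_eq]
    exact (h1 _).trans_lt (half_lt_self hε)
  · obtain ⟨Ψ, hΨ, h1⟩ := h 1 one_pos
    obtain ⟨M, hM⟩ := hΨ.bdd
    refine ⟨1 + M, fun l => ?_⟩
    have h2 : Φ l = (Φ l - Ψ l) + Ψ l := by ring
    rw [h2]
    exact (abs_add_le _ _).trans (add_le_add (h1 l) (hM l))
  · by_contra hne
    have hpos : 0 < |Φ (l.map (g * ·)) - Φ l| := abs_pos.2 (sub_ne_zero.2 hne)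
    obtain ⟨Ψ, hΨ, h1⟩ := h (|Φ (l.map (g * ·)) - Φ l| / 3) (by positivity)
    have h2 := h1 (l.map (g * ·))
    have h3 := h1 l
    rw [hΨ.inv] at h2
    have h4 : Φ (l.map (g * ·)) - Φ l = (Φ (l.map (g * ·)) - Ψ l) - (Φ l - Ψ l) := by ring
    have h5 : |Φ (l.map (g * ·)) - Φ l| ≤
        |Φ (l.map (g * ·)) - Ψ l| + |Φ l - Ψ l| := by
      conv_lhs => rw [h4]
      exact abs_sub _ _
    linarith
  · by_contra hne
    have hpos : 0 < |Φ l| := abs_pos.2 hne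
    obtain ⟨Ψ, hΨ, h1⟩ := h (|Φ l| / 2) (by positivity)
    have h3 := h1 l
    rw [hΨ.supp l hl, sub_zero] at h3
    linarith

private lemma SelF_dl_lim {Φ : List G → ℝ}
    (h : ∀ ε > 0, ∃ Ψ : List G → ℝ, (∀ l, dl Ψ l = 0) ∧ ∀ l, |Φ l - Ψ l| ≤ ε) (l : List G) :
    dl Φ l = 0 := by
  by_contra hne
  have hpos : 0 < |dl Φ l| := abs_pos.2 hne
  obtain ⟨Ψ, hΨ, h1⟩ := h (|dl Φ l| / (l.length + 1)) (by positivity)
  have h2 := SelF_dl_abs (fun m => Φ m - Ψ m) _ h1 l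
  rw [dl_sub, hΨ, sub_zero] at h2
  have h3 : (l.length : ℝ) * (|dl Φ l| / (l.length + 1)) < |dl Φ l| := by
    rw [mul_div_assoc', div_lt_iff₀ (by positivity)]
    nlinarith
  linarith

end selF

theorem exists_selF {G : Type} [Group G] [TopologicalSpace G] [IsTopologicalGroup G] (k : ℕ)
    {ι : Type} (lam : ι → (List G → ℝ) → ℝ) (C₀ : ℝ)
    (hlin : ∀ i (φ ψ : List G → ℝ) (a b : ℝ), Cy (k + 1) φ → Cy (k + 1) ψ →
      lam i (fun m => a * φ m + b * ψ m) = a * lam i φ + b * lam i ψ)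
    (hbd : ∀ i (φ : List G → ℝ) (M : ℝ), 0 ≤ M → Cy (k + 1) φ → (∀ m, |φ m| ≤ M) →
      |lam i φ| ≤ C₀ * M)
    (hdl : ∀ i (ψ : List G → ℝ), Co k ψ → lam i (dl ψ) = 0)
    (hex : ∀ φ : List G → ℝ, Cy (k + 1) φ → (∀ i, lam i φ = 0) →
      ∃ ψ, Co k ψ ∧ ∀ m, φ m = dl ψ m) :
    ∃ (s : (List G → ℝ) → List G → ℝ) (C : ℝ), 0 ≤ C ∧
      ∀ φ, Cy (k + 1) φ → (∀ i, lam i φ = 0) → Co k (s φ) ∧ (∀ m, φ m = dl (s φ) m) ∧
      (∀ M : ℝ, (∀ m, |φ m| ≤ M) → ∀ m, |s φ m| ≤ C * (M + 1)) ∧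
      ∀ ε > 0, ∃ δ > 0, ∀ φ', Cy (k + 1) φ' → (∀ i, lam i φ' = 0) →
        (∀ m, |φ m - φ' m| ≤ δ) → ∀ m, |s φ m - s φ' m| ≤ ε := by
  classical
  set L := lp (fun _ : List G => ℝ) ⊤ with hL
  have hmem : ∀ φ : List G → ℝ, (∃ M : ℝ, ∀ l, |φ l| ≤ M) → Memℓp (E := fun _ : List G => ℝ) φ ⊤ := by
    rintro φ ⟨M, hM⟩
    refine memℓp_infty ⟨M, ?_⟩
    rintro _ ⟨l, rfl⟩
    exact hM l
  have hap : ∀ (φ : L) (l : List G), |φ l| ≤ ‖φ‖ := fun φ l =>
    lp.norm_apply_le_norm ENNReal.top_ne_zero φ l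
  have hle : ∀ (φ : L) (M : ℝ), (∀ l, |φ l| ≤ M) → ‖φ‖ ≤ M := fun φ M h =>
    lp.norm_le_of_forall_le' M h
  have lam0 : ∀ i, lam i (fun _ => 0) = 0 := by
    intro i
    have h0 : Cy (k + 1) (fun _ : List G => (0 : ℝ)) :=
      ⟨SelF_Co_zero (k + 1), fun l => by simp [dl]⟩
    have := hlin i _ _ 0 0 h0 h0
    simpa using this
  have Cyadd : ∀ φ ψ : List G → ℝ, Cy (k + 1) φ → Cy (k + 1) ψ →
      Cy (k + 1) (fun l => φ l + ψ l) := fun φ ψ h h' =>
    ⟨SelF_Co_add _ h.1 h'.1, fun l => by rw [SelF_dl_add, h.2, h'.2, add_zero]⟩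
  have Cysmul : ∀ (c : ℝ) (φ : List G → ℝ), Cy (k + 1) φ →
      Cy (k + 1) (fun l => c * φ l) := fun c φ h =>
    ⟨SelF_Co_smul _ c h.1, fun l => by rw [SelF_dl_smul, h.2, mul_zero]⟩
  let E : Submodule ℝ L :=
    { carrier := {φ | Co k φ}
      add_mem' := fun {a b} ha hb => SelF_Co_add k ha hb
      zero_mem' := SelF_Co_zero k
      smul_mem' := fun c a ha => SelF_Co_smul k c ha }
  let F : Submodule ℝ L :=
    { carrier := {φ | Cy (k + 1) φ ∧ ∀ i, lam i φ = 0}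
      add_mem' := fun {a b} ha hb => by
        refine ⟨Cyadd _ _ ha.1 hb.1, fun i => ?_⟩
        have := hlin i a b 1 1 ha.1 hb.1
        simp only [one_mul] at this
        have h2 : lam i (fun m => a m + b m) = 0 := by rw [this, ha.2, hb.2, add_zero]
        exact h2
      zero_mem' := ⟨⟨SelF_Co_zero (k + 1), fun l => by simp [dl]⟩, lam0⟩
      smul_mem' := fun c a ha => by
        refine ⟨Cysmul c _ ha.1, fun i => ?_⟩
        have := hlin i a a c 0 ha.1 ha.1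
        simp only [zero_mul, add_zero] at this
        have h2 : lam i (fun m => c * a m) = 0 := by rw [this, ha.2, mul_zero]
        exact h2 }
  have hEc : IsClosed (E : Set L) := by
    refine isClosed_of_closure_subset fun φ hφ => ?_
    refine SelF_Co_lim k fun ε hε => ?_
    obtain ⟨ψ, hψ, hd⟩ := Metric.mem_closure_iff.1 hφ ε hε
    refine ⟨ψ, hψ, fun l => ?_⟩
    rw [dist_eq_norm] at hd
    exact (hap (φ - ψ) l).trans hd.le
  have hFc : IsClosed (F : Set L) := by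
    refine isClosed_of_closure_subset fun φ hφ => ?_
    have h1 : Cy (k + 1) φ := by
      refine ⟨SelF_Co_lim (k + 1) fun ε hε => ?_, SelF_dl_lim fun ε hε => ?_⟩
      · obtain ⟨ψ, hψ, hd⟩ := Metric.mem_closure_iff.1 hφ ε hε
        refine ⟨ψ, hψ.1.1, fun l => ?_⟩
        rw [dist_eq_norm] at hd
        exact (hap (φ - ψ) l).trans hd.le
      · obtain ⟨ψ, hψ, hd⟩ := Metric.mem_closure_iff.1 hφ ε hε
        refine ⟨ψ, hψ.1.2, fun l => ?_⟩
        rw [dist_eq_norm] at hd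
        exact (hap (φ - ψ) l).trans hd.le
    refine ⟨h1, fun i => ?_⟩
    by_contra hne
    have hpos : 0 < |lam i φ| := abs_pos.2 hne
    obtain ⟨ψ, hψ, hd⟩ := Metric.mem_closure_iff.1 hφ (|lam i φ| / (|C₀| + 1))
      (div_pos hpos (by positivity))
    have h2 := hlin i φ ψ 1 (-1) h1 hψ.1
    rw [hψ.2, mul_zero, add_zero, one_mul] at h2
    have h3 := hbd i (fun m => 1 * φ m + -1 * ψ m) ‖φ - ψ‖ (norm_nonneg _)
      (Cyadd _ _ (Cysmul 1 _ h1) (Cysmul (-1) _ hψ.1)) (fun m => by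
        have h4 : 1 * φ m + -1 * ψ m = (φ - ψ) m := by
          rw [lp.coeFn_sub, Pi.sub_apply]
          ring
        rw [h4]
        exact hap (φ - ψ) m)
    rw [h2, ← dist_eq_norm] at h3
    have h5 : C₀ * dist φ ψ ≤ |C₀| * dist φ ψ :=
      mul_le_mul_of_nonneg_right (le_abs_self C₀) dist_nonneg
    have h6 : dist φ ψ * (|C₀| + 1) < |lam i φ| := by
      rw [lt_div_iff₀ (by positivity)] at hd
      exact hd
    have h7 : (0 : ℝ) ≤ dist φ ψ := dist_nonneg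
    nlinarith
  have : CompleteSpace E := hEc.completeSpace_coe
  have : CompleteSpace F := hFc.completeSpace_coe
  let dlin : E →ₗ[ℝ] F :=
    { toFun := fun ψ => ⟨⟨dl (ψ : L), hmem _ (SelF_Cy_dl k ψ.2).1.bdd⟩,
        SelF_Cy_dl k ψ.2, fun i => hdl i _ ψ.2⟩
      map_add' := fun a b => by
        apply Subtype.ext
        apply Subtype.ext
        funext l
        exact SelF_dl_add _ _ l
      map_smul' := fun c a => by
        apply Subtype.ext
        apply Subtype.ext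
        funext l
        exact SelF_dl_smul c _ l }
  have dval : ∀ (ψ : E) (l : List G), ((dlin ψ : F) : L) l = dl (ψ : L) l := fun ψ l => rfl
  have dbd : ∀ ψ : E, ‖dlin ψ‖ ≤ (k + 1) * ‖ψ‖ := by
    intro ψ
    refine hle ((dlin ψ : F) : L) _ fun l => ?_
    rw [dval]
    by_cases hl : l.length = k + 1
    · have := SelF_dl_abs _ ‖(ψ : L)‖ (hap (ψ : L)) l
      rw [hl] at this
      push_cast at this
      exact this
    · rw [(SelF_Cy_dl k ψ.2).1.supp l hl, abs_zero]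
      positivity
  let d : E →L[ℝ] F := dlin.mkContinuous (k + 1) dbd
  have dsurj : Function.Surjective d := by
    intro φ
    obtain ⟨ψ, hψ, h1⟩ := hex _ φ.2.1 φ.2.2
    refine ⟨⟨⟨ψ, hmem _ hψ.bdd⟩, hψ⟩, ?_⟩
    apply Subtype.ext
    apply Subtype.ext
    funext l
    exact (h1 l).symm
  obtain ⟨s₀, C, hC, hcont, hright, hbound⟩ := bartle_graves d dsurj
  let mk : ∀ φ : List G → ℝ, (Cy (k + 1) φ ∧ ∀ i, lam i φ = 0) → F := fun φ h =>
    ⟨⟨φ, hmem _ h.1.1.bdd⟩, h⟩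
  let s : (List G → ℝ) → List G → ℝ := fun φ =>
    if h : (Cy (k + 1) φ ∧ ∀ i, lam i φ = 0) then ⇑(s₀ (mk φ h) : L) else fun _ => 0
  have sval : ∀ φ (h : (Cy (k + 1) φ ∧ ∀ i, lam i φ = 0)), s φ = ⇑(s₀ (mk φ h) : L) := fun φ h =>
    dif_pos h
  refine ⟨s, C, hC, fun φ h1 h2 => ?_⟩
  rw [sval φ ⟨h1, h2⟩]
  refine ⟨(s₀ (mk φ ⟨h1, h2⟩)).2, fun m => ?_, fun M hM m => ?_, fun ε hε => ?_⟩
  · have h3 := congrArg (fun y : F => (y : L) m) (hright (mk φ ⟨h1, h2⟩))
    exact h3.symm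
  · have hM' : ‖mk φ ⟨h1, h2⟩‖ ≤ M := hle ((mk φ ⟨h1, h2⟩ : F) : L) M hM
    calc |(s₀ (mk φ ⟨h1, h2⟩) : L) m| ≤ ‖s₀ (mk φ ⟨h1, h2⟩)‖ := hap _ m
      _ ≤ C * (‖mk φ ⟨h1, h2⟩‖ + 1) := hbound _
      _ ≤ C * (M + 1) := by gcongr
  · obtain ⟨δ, hδ, h3⟩ := Metric.continuous_iff.1 hcont (mk φ ⟨h1, h2⟩) ε hε
    refine ⟨δ / 2, half_pos hδ, fun φ' h1' h2' hclose m => ?_⟩
    rw [sval φ' ⟨h1', h2'⟩]
    have h4 : dist (mk φ' ⟨h1', h2'⟩) (mk φ ⟨h1, h2⟩) < δ := by
      rw [dist_eq_norm]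
      refine lt_of_le_of_lt (hle ((mk φ' ⟨h1', h2'⟩ - mk φ ⟨h1, h2⟩ : F) : L) (δ / 2)
        fun l => ?_) (half_lt_self hδ)
      have := hclose l
      rw [abs_sub_comm] at this
      exact this
    have h5 := h3 _ h4
    rw [dist_comm, dist_eq_norm] at h5
    exact (hap ((s₀ (mk φ ⟨h1, h2⟩) - s₀ (mk φ' ⟨h1', h2'⟩) : E) : L) m).trans h5.le

end Pool.Agent.Helper87.BKF
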