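import Pool.Agent.Helper87.BKF.Kb
import Pool.Agent.Helper87.BKF.Sel
import Pool.Agent.Helper87.BKF.Param
import Pool.Agent.Helper87.BKF.MuC

/-!
# Project BKF: one step of the chase (piece BKF-STEP)

Compare `Pool/Agent/Helper87/BK/Chase1.lean` (`chase_step`, without classes) and `Chase2.lean`.
If `n + 2 ≤ k + 1` then `Φ l m = 0` for `k < m.length` (support: `1 ≤ l.length`): take `Ψ = 0`, `μ = 0`.
Otherwise let `p = n + 1 - k`, so `1 ≤ p`, `p + (k + 1) = n + 2`, `Φ₁ l m = Φ l m` if `m.length = k + 1`, `0` otherwise.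
`InK LPUc Φ₁`: it is the cut of `fun l m => if 3 ≤ m.length then Φ l m else 0` (`hΦ.regL`, `InK_cut`, `3 ≤ k + 1`), and
`β → InK PUc Φ₁`.  `Φ₁` is supported on `l.length = p`, `m.length = k + 1`.
* `μ i l = D.lam k i (Φ₁ l)`: `mu_Cb`, `mu_dl`; `μ i [] = 0` (`Φ₁ [] = 0`, `lam_zero`).
* `dl (Φ₁ l) m = 0`: only for `m.length = k + 2` is there something to prove; `DD Φ l m = 0` and `Φ a m = 0` for
  `m.length = k + 2` (see `hcoc` in `Chase1.lean`).
* `Φ₄ l m = Φ₁ l m - ∑ i, μ i l * D.e k i m`: `InK_sub`, `InK_sum`, `InK_mul_LPU`, `InK_mul_PU` (for `β`), supported on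
  `l.length = p`, `m.length = k + 1` (`he`, `Co.supp`), `dl (Φ₄ l) m = 0`, `lam k i' (Φ₄ l) = μ i' l - ∑ i, μ i l *
  lam k i' (e k i) = 0` (`lam_lin`, `lam_sum`, `lam_e`).
* `exists_selF k (D.lam k) (D.C k)` (`hlin`: `Uo_of_Co`; `hbd`: `lam_bd`; `hdl`: `lam_dl`; `hex`: `D.prim k hk`) and
  `sel_paramF` give `Ψ₁` with `Φ₄ l m = dl (Ψ₁ l) m`, supported on `l.length = p`, `m.length = k`.
* `Ψ l m = (-1)^(p+1) * Ψ₁ l m` is `Kl β (n + 1)`.  For `k < m.length` (and `l ≠ []`): `DD Ψ l m =
  dl (fun a => Ψ a m) l + (-1)^(|l|+1) * dl (Ψ l) m`; the first sum is zero (`m.length ≠ k`); the second one is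
  `(-1)^(|l|+1) * (-1)^(p+1) * Φ₄ l m = Φ₄ l m` (`Φ₄ l m = 0` if `|l| ≠ p`).  For `m.length > k + 1` everything is `0`.
-/

open scoped Topology

namespace Pool.Agent.Helper87.BKF
open Pool.Agent.Helper11.BC (dl)
open Pool.Agent.Helper87.BCR
open Pool.Agent.Helper87.BK

variable {H G : Type} [Group H] [TopologicalSpace H] [Group G] [TopologicalSpace G]
  [IsTopologicalGroup G]

private theorem step_dl_zero_of {X : Type} (φ : List X → ℝ) (l : List X)
    (h : ∀ t : List X, t.length + 1 = l.length → φ t = 0) : dl φ l = 0 := by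
  rw [dl_congr φ (fun _ => 0) l h]
  simp [dl]

private theorem step_dl_sum {X : Type} {ι : Type} (s : Finset ι) (c : ι → ℝ)
    (φ : ι → List X → ℝ) (m : List X) :
    dl (fun t => ∑ i ∈ s, c i * φ i t) m = ∑ i ∈ s, c i * dl (φ i) m := by
  unfold dl
  simp only [smul_eq_mul, Finset.mul_sum]
  rw [Finset.sum_comm]
  refine Finset.sum_congr rfl fun i _ => Finset.sum_congr rfl fun r _ => ?_
  ring

private theorem step_dl_sub {X : Type} (φ ψ : List X → ℝ) (m : List X) :
    dl (fun t => φ t - ψ t) m = dl φ m - dl ψ m := by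
  unfold dl
  rw [← Finset.sum_sub_distrib]
  refine Finset.sum_congr rfl fun r _ => ?_
  simp only [smul_eq_mul]
  ring

omit [IsTopologicalGroup G] in
private theorem Cb_zero (β : Prop) (k : ℕ) : Cb β k (fun _ : List H => (0 : ℝ)) := by
  refine ⟨fun r => continuous_const, fun _ => ⟨0, fun l => by simp⟩, fun g l => rfl, fun l hl => rfl⟩

theorem chase_stepF (D : FData G) {β : Prop} {n k : ℕ} (hk : 2 ≤ k) (Φ : List H → List G → ℝ)
    (hΦ : Kb β (n + 2) Φ) (hD : ∀ l m, DD Φ l m = 0)
    (htop : ∀ l m, k + 1 < m.length → Φ l m = 0) :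
    ∃ (Ψ : List H → List G → ℝ) (μ : Fin (D.N k) → List H → ℝ), Kl β (n + 1) Ψ ∧
      (∀ i, Cb β (n + 1 - k) (μ i)) ∧ (∀ i l, dl (μ i) l = 0) ∧ (∀ i, μ i [] = 0) ∧
      ∀ l m, k < m.length → Φ l m = DD Ψ l m + ∑ i, μ i l * D.e k i m := by
  rcases Nat.lt_or_ge (k + 1) (n + 2) with hkn | hkn
  swap
  · refine ⟨fun _ _ => 0, fun _ _ => 0, Kl_zero β (n + 1), fun i => Cb_zero β _, fun i l => ?_,
      fun i => rfl, fun l m hm => ?_⟩
    · exact step_dl_zero_of _ _ fun _ _ => rfl
    · have h1 : Φ l m = 0 := by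
        by_cases hl : l = []
        · exact hΦ.supp l m (Or.inl hl)
        · have : 0 < l.length := List.length_pos_iff.mpr hl
          exact hΦ.supp l m (Or.inr (Or.inr (by omega)))
      have h2 : DD (fun (_ : List H) (_ : List G) => (0 : ℝ)) l m = 0 := by
        unfold DD
        split_ifs
        · rfl
        · rw [step_dl_zero_of _ _ (fun _ _ => rfl), step_dl_zero_of _ _ (fun _ _ => rfl)]
          ring
      rw [h1, h2]
      simp
  · obtain ⟨p, hp⟩ : ∃ p, p = n + 1 - k := ⟨_, rfl⟩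
    have hp1 : 1 ≤ p := by omega
    rw [← hp]
    set Φ₁ : List H → List G → ℝ := fun l m => if m.length = k + 1 then Φ l m else 0 with hΦ₁
    have e1 : ∀ l m, m.length = k + 1 → Φ₁ l m = Φ l m := fun l m hm => if_pos hm
    have z1 : ∀ l m, m.length ≠ k + 1 → Φ₁ l m = 0 := fun l m hm => if_neg hm
    have hL₁ : InK LPUc Φ₁ := by
      have h := InK_cut cls_LPU hΦ.regL (k + 1)
      have h' : (fun (l : List H) (m : List G) => if m.length = k + 1 then
          (if 3 ≤ m.length then Φ l m else 0) else 0) = Φ₁ := by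
        funext l m
        by_cases hm : m.length = k + 1
        · rw [if_pos hm, if_pos (by omega), e1 l m hm]
        · rw [if_neg hm, z1 l m hm]
      rw [h'] at h
      exact h
    have hP₁ : β → InK PUc Φ₁ := fun hβ => InK_cut cls_PU (hΦ.regP hβ) (k + 1)
    have hinv₁ : ∀ (h : H) (g : G) l m, Φ₁ (l.map (h * ·)) (m.map (g * ·)) = Φ₁ l m := by
      intro h g l m
      show (if (m.map (g * ·)).length = k + 1 then Φ (l.map (h * ·)) (m.map (g * ·)) else 0) =
        if m.length = k + 1 then Φ l m else 0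
      rw [List.length_map, hΦ.inv]
    have hsupp₁ : ∀ (l : List H) (m : List G), l.length ≠ p ∨ m.length ≠ k + 1 →
        Φ₁ l m = 0 := by
      intro l m h
      by_cases hm : m.length = k + 1
      · have hl : l.length ≠ p := by
          rcases h with h | h
          · exact h
          · exact absurd hm h
        rw [e1 l m hm]
        exact hΦ.supp l m (Or.inr (Or.inr (by omega)))
      · exact z1 l m hm
    have hcoc₁ : ∀ l m, dl (Φ₁ l) m = 0 := by
      intro l m
      by_cases hm : m.length = k + 2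
      · by_cases hl : l = []
        · exact step_dl_zero_of _ _ fun t ht => by
            rw [e1 l t (by omega)]
            exact hΦ.supp l t (Or.inl hl)
        · have hm0 : m ≠ [] := by
            rintro rfl
            simp at hm
          have h1 := hD l m
          rw [DD_of_ne Φ hl hm0] at h1
          have h2 : dl (fun a => Φ a m) l = 0 :=
            step_dl_zero_of _ _ fun t _ => htop t m (by omega)
          rw [h2, zero_add] at h1
          have h3 : dl (Φ l) m = 0 := by
            rcases mul_eq_zero.mp h1 with h | h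
            · exact absurd h (pow_ne_zero _ (by norm_num))
            · exact h
          rw [dl_congr (Φ₁ l) (Φ l) m, h3]
          intro t ht
          exact e1 l t (by omega)
      · exact step_dl_zero_of _ _ fun t ht => hsupp₁ l t (Or.inr (by omega))
    have hUo : ∀ l, Uo (k + 1) (Φ₁ l) := fun l =>
      row_Uo (InK_LPU_JC hL₁) hinv₁ (fun l m hm => z1 l m hm) l
    obtain ⟨μ, hμ⟩ : ∃ μ : Fin (D.N k) → List H → ℝ, μ = fun i l => D.lam k i (Φ₁ l) := ⟨_, rfl⟩
    have eμ : ∀ i l, μ i l = D.lam k i (Φ₁ l) := fun i l => by rw [hμ]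
    have Cμ : ∀ i, Cb β p (μ i) := by
      intro i
      have h := mu_Cb D (β := β) (k := k) (p := p) Φ₁ hL₁ hP₁ hinv₁ hsupp₁ i
      rw [hμ]
      exact h
    have dμ : ∀ i l, dl (μ i) l = 0 := by
      intro i l
      have h := mu_dl D (k := k) Φ hΦ.regJ hΦ.inv hD i l
      rw [hμ]
      exact h
    have μ0 : ∀ i, μ i [] = 0 := fun i => (Cμ i).supp [] (by simp; omega)
    set Φ₄ : List H → List G → ℝ := fun l m => Φ₁ l m - ∑ i, μ i l * D.e k i m with hΦ₄
    have hL₄ : InK LPUc Φ₄ := InK_sub cls_LPU hL₁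
      (InK_sum cls_LPU Finset.univ fun i => InK_mul_LPU (Cμ i).cont (D.he k i).1)
    have hP₄ : β → InK PUc Φ₄ := fun hβ => InK_sub cls_PU (hP₁ hβ)
      (InK_sum cls_PU Finset.univ fun i => InK_mul_PU (Cμ i).cont ((Cμ i).bdd hβ) (D.he k i).1)
    have hinv₄ : ∀ (h : H) (g : G) l m, Φ₄ (l.map (h * ·)) (m.map (g * ·)) = Φ₄ l m := by
      intro h g l m
      show Φ₁ (l.map (h * ·)) (m.map (g * ·)) -
        ∑ i, μ i (l.map (h * ·)) * D.e k i (m.map (g * ·)) = Φ₁ l m - ∑ i, μ i l * D.e k i m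
      rw [hinv₁]
      congr 1
      refine Finset.sum_congr rfl fun i _ => ?_
      rw [(Cμ i).inv, (D.he k i).1.inv]
    have hsupp₄ : ∀ (l : List H) (m : List G), l.length ≠ p ∨ m.length ≠ k + 1 →
        Φ₄ l m = 0 := by
      intro l m h
      show Φ₁ l m - ∑ i, μ i l * D.e k i m = 0
      rw [hsupp₁ l m h, Finset.sum_eq_zero, sub_zero]
      intro i _
      rcases h with h | h
      · rw [(Cμ i).supp l h, zero_mul]
      · rw [(D.he k i).1.supp m h, mul_zero]
    have hcoc₄ : ∀ l m, dl (Φ₄ l) m = 0 := by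
      intro l m
      have h : dl (Φ₄ l) m = dl (Φ₁ l) m - dl (fun t => ∑ i, μ i l * D.e k i t) m :=
        step_dl_sub (Φ₁ l) (fun t => ∑ i, μ i l * D.e k i t) m
      rw [h, hcoc₁, step_dl_sum, Finset.sum_eq_zero, sub_zero]
      intro i _
      rw [(D.he k i).2 m, mul_zero]
    have hlam₄ : ∀ l i', D.lam k i' (Φ₄ l) = 0 := by
      intro l i'
      have hUe : ∀ i ∈ (Finset.univ : Finset (Fin (D.N k))), Uo (k + 1) (D.e k i) :=
        fun i _ => Uo_of_Co (D.he k i).1
      have h1 : Φ₄ l = fun m => 1 * Φ₁ l m + (-1) * (∑ i, μ i l * D.e k i m) := by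
        funext m
        show Φ₁ l m - ∑ i, μ i l * D.e k i m = _
        ring
      rw [h1, D.lam_lin k i' _ _ _ _ (hUo l) (Uo_sum _ _ _ hUe),
        D.lam_sum k i' Finset.univ (fun i => μ i l) (fun i => D.e k i) hUe, ← eμ]
      have h2 : ∑ i, μ i l * D.lam k i' (D.e k i) = μ i' l := by
        rw [Finset.sum_eq_single i']
        · rw [D.lam_e, if_pos rfl, mul_one]
        · intro b _ hb
          rw [D.lam_e, if_neg (fun h => hb h.symm), mul_zero]
        · intro h
          exact absurd (Finset.mem_univ _) h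
      rw [h2]
      ring
    obtain ⟨s, C, hC, hs⟩ := exists_selF k (D.lam k) (D.C k)
      (fun i φ ψ a b hφ hψ => D.lam_lin k i φ ψ a b (Uo_of_Co hφ.1) (Uo_of_Co hψ.1))
      (fun i φ M hM hφ hb => D.lam_bd k i φ M hM (Uo_of_Co hφ.1) fun x _ => hb _)
      (fun i ψ hψ => D.lam_dl k i ψ (Uo_of_Co hψ))
      (fun φ hφ h => D.prim k hk φ hφ h)
    obtain ⟨Ψ₁, hreg, hregP, hinv, hsup, hdl⟩ := sel_paramF (H := H) k p (D.lam k) s C hC hs Φ₄
      hL₄ hinv₄ hsupp₄ hcoc₄ hlam₄
    refine ⟨fun l m => (-1) ^ (p + 1) * Ψ₁ l m, μ, ?_, Cμ, dμ, μ0, ?_⟩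
    · refine ⟨InK_smul cls_LPU _ hreg, fun hβ => InK_smul cls_PU _ (hregP (hP₄ hβ)), ?_, ?_⟩
      · intro h g l m
        simp only [hinv]
      · intro l m h
        have : l.length ≠ p ∨ m.length ≠ k := by
          rcases h with rfl | rfl | h
          · left
            simp only [List.length_nil]
            omega
          · right
            simp only [List.length_nil]
            omega
          · by_contra hcon
            push Not at hcon
            omega
        simp only [hsup l m this, mul_zero]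
    · intro l m hm
      have hm0 : m ≠ [] := by
        rintro rfl
        simp at hm
      have hΦΦ₁ : Φ l m = Φ₁ l m := by
        by_cases hmk : m.length = k + 1
        · rw [e1 l m hmk]
        · rw [htop l m (by omega), z1 l m hmk]
      by_cases hl : l = []
      · subst hl
        rw [hΦ.supp [] m (Or.inl rfl)]
        unfold DD
        rw [if_pos (Or.inl rfl)]
        simp [μ0]
      · rw [DD_of_ne _ hl hm0, hΦΦ₁]
        have h1 : dl (fun a => (-1 : ℝ) ^ (p + 1) * Ψ₁ a m) l = 0 :=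
          step_dl_zero_of _ _ fun t _ => by
            rw [hsup t m (Or.inr (by omega)), mul_zero]
        have h2 : dl (fun t => (-1 : ℝ) ^ (p + 1) * Ψ₁ l t) m = (-1) ^ (p + 1) * Φ₄ l m := by
          rw [dl_smul, hdl]
        rw [h1, h2, zero_add]
        have h3 : (-1 : ℝ) ^ (l.length + 1) * ((-1) ^ (p + 1) * Φ₄ l m) = Φ₄ l m := by
          by_cases hlp : l.length = p
          · rw [hlp, ← mul_assoc, ← mul_pow]
            norm_num
          · rw [hsupp₄ l m (Or.inl hlp)]
            simp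
        rw [h3]
        show Φ₁ l m = Φ₁ l m - ∑ i, μ i l * D.e k i m + ∑ i, μ i l * D.e k i m
        ring

end Pool.Agent.Helper87.BKF
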