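import Pool.Agent.Helper87.BKF.Cpt
import Pool.Agent.Helper87.BKF.Kb

/-!
# Project BKF: the operators `U`, `K` in the second variable (piece BKF-UREG)

For `Φ` in `Vo (n + 2)` and a list `a`: `Φ a` is `Uo (n + 2 - a.length)` if `1 ≤ a.length ≤ n + 2`, and the zero
function otherwise (`U 0 = 0`, `K 0 = 0` from linearity with `a = b = 0`).  `U_sub`, `K_sub`: linearity.
* `U_Kb`: `regJ`: joint continuity of `(z, w) ↦ U (Φ (l z)) (m w)` at `(z₀, w₀)`: `w ↦ m w` (as a point of
  `Fin r → G`, `r = m.length`) is continuous; take a compact neighbourhood `E` of its value at `w₀`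
  (`Fin r → G` is locally compact); `U_loc` gives `C`, `D`; `cpt_near` gives for `z` near `z₀`
  `|Φ (l z) x - Φ (l z₀) x| ≤ ε` on `D`, so `|U (Φ (l z)) x - U (Φ (l z₀)) x| ≤ |C| * ε` on `E`; and
  `U (Φ (l z₀))` is continuous (`U_Uo`).  If `l.length = 0` or `l.length + m.length ≠ n + 2` the family is zero.
  `regL`: the same with `U_bd` in place of `U_loc` (uniform in `w`; for `m.length ≥ 3`; `|m| = j = n + 2 - |l|`),
  boundedness for fixed `z`: `Φ (l z)` is bounded on the compact set `D` (`IsCompact.exists_bound_of_continuousOn`).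
  `regP`: `β = False`.  Invariance: `U (Φ (a.map (h * ·))) = U (Φ a)`, and `U (Φ a)` is invariant (`U_Uo`).
  Support: `U_Uo`, `U 0 = 0`; for `m = []` note that `U (Φ a)` is `Uo (n + 2 - a.length)`; if `a.length = n + 2`
  then `Φ a` is supported on `[]` where it vanishes, so `Φ a = 0`.
-/

open scoped Topology

namespace Pool.Agent.Helper87.BKF
open Pool.Agent.Helper11.BC (dl)
open Pool.Agent.Helper87.BCR
open Pool.Agent.Helper87.BK

variable {H G : Type} [Group H] [TopologicalSpace H] [Group G] [TopologicalSpace G]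

private theorem UReg_map_one {X : Type} [Group X] (l : List X) : l.map ((1 : X) * ·) = l := by
  simp

private theorem UReg_Uo_zero (j : ℕ) : Uo j (fun _ : List G => (0 : ℝ)) :=
  ⟨fun _ => continuous_const, fun _ _ => rfl, fun _ _ => rfl⟩

private theorem UReg_Uo_sub {j : ℕ} {φ ψ : List G → ℝ} (hφ : Uo j φ) (hψ : Uo j ψ) :
    Uo j (fun t => φ t - ψ t) := by
  refine ⟨fun r => (hφ.cont r).sub (hψ.cont r), fun g l => ?_, fun l hl => ?_⟩
  · show φ _ - ψ _ = _
    rw [hφ.inv, hψ.inv]
  · show φ l - ψ l = 0
    rw [hφ.supp l hl, hψ.supp l hl, sub_zero]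

theorem Vo_row {k : ℕ} {Φ : List H → List G → ℝ} (h : Vo k Φ) (a : List H) :
    Uo (k - a.length) (Φ a) := by
  refine ⟨InK_JC_right h.reg a, fun g l => ?_, fun l hl => ?_⟩
  · have h1 := h.inv 1 g a l
    rwa [UReg_map_one] at h1
  · exact h.supp a l (Or.inr (Or.inr (by omega)))

theorem Vo_row_zero {k : ℕ} {Φ : List H → List G → ℝ} (h : Vo k Φ) (a : List H)
    (ha : a = [] ∨ k ≤ a.length) (m : List G) : Φ a m = 0 := by
  rcases ha with ha | ha
  · exact h.supp a m (Or.inl ha)
  · by_cases hm : m = []
    · exact h.supp a m (Or.inr (Or.inl hm))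
    · have : 0 < m.length := List.length_pos_iff.mpr hm
      exact h.supp a m (Or.inr (Or.inr (by omega)))

theorem UData.U_zero (E : UData G) (m : List G) : E.U (fun _ => 0) m = 0 := by
  have h := E.U_lin 0 (fun _ => 0) (fun _ => 0) 0 0 (UReg_Uo_zero 0) (UReg_Uo_zero 0) m
  simpa using h

theorem UData.K_zero (E : UData G) (m : List G) : E.K (fun _ => 0) m = 0 := by
  have h := E.K_lin 0 (fun _ => 0) (fun _ => 0) 0 0 (UReg_Uo_zero 0) (UReg_Uo_zero 0) m
  simpa using h

theorem UData.U_sub (E : UData G) {j : ℕ} {φ ψ : List G → ℝ} (hφ : Uo j φ) (hψ : Uo j ψ)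
    (m : List G) : E.U (fun t => φ t - ψ t) m = E.U φ m - E.U ψ m := by
  have h := E.U_lin j φ ψ 1 (-1) hφ hψ m
  have e : (fun t => 1 * φ t + -1 * ψ t) = fun t => φ t - ψ t := by
    funext t
    ring
  rw [e] at h
  rw [h]
  ring

theorem UData.K_sub (E : UData G) {j : ℕ} {φ ψ : List G → ℝ} (hφ : Uo j φ) (hψ : Uo j ψ)
    (m : List G) : E.K (fun t => φ t - ψ t) m = E.K φ m - E.K ψ m := by
  have h := E.K_lin j φ ψ 1 (-1) hφ hψ m
  have e : (fun t => 1 * φ t + -1 * ψ t) = fun t => φ t - ψ t := by
    funext t
    ring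
  rw [e] at h
  rw [h]
  ring

private theorem UReg_zero (E : UData G) {n : ℕ} {Φ : List H → List G → ℝ} (h : Vo (n + 2) Φ)
    (a : List H) (ha : a = [] ∨ n + 2 ≤ a.length) (m : List G) : E.U (Φ a) m = 0 := by
  have e : Φ a = fun _ => 0 := funext fun t => Vo_row_zero h a ha t
  rw [e, E.U_zero]

private theorem UReg_supp (E : UData G) {n : ℕ} {Φ : List H → List G → ℝ} (h : Vo (n + 2) Φ)
    (a : List H) (m : List G) (ham : a = [] ∨ m = [] ∨ a.length + m.length ≠ n + 2) :
    E.U (Φ a) m = 0 := by
  by_cases ha : a = [] ∨ n + 2 ≤ a.length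
  · exact UReg_zero E h a ha m
  · push Not at ha
    have hU := E.U_Uo _ _ (Vo_row h a)
    apply hU.supp
    rcases ham with ham | ham | ham
    · exact absurd ham ha.1
    · rw [ham, List.length_nil]
      omega
    · omega

/-- the point of a list of functions -/
private def UReg_pt {W : Type} (m : List (W → G)) (w : W) : Fin m.length → G := fun i => m[i] w

private theorem UReg_ofFn {W : Type} (m : List (W → G)) (w : W) :
    List.ofFn (UReg_pt m w) = m.map fun e => e w := by
  apply List.ext_getElem
  · simp
  · intro i h1 h2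
    simp [UReg_pt]

private theorem UReg_pt_cont {W : Type} [TopologicalSpace W] {m : List (W → G)}
    (hm : ∀ e ∈ m, Continuous e) : Continuous (UReg_pt m) :=
  continuous_pi fun i => hm _ (List.getElem_mem _)

private theorem UReg_diff (E : UData G) {n : ℕ} {Φ : List H → List G → ℝ} (h : Vo (n + 2) Φ)
    {Z : Type} (l : List (Z → H)) (z z₀ : Z) (m : List G) :
    E.U (fun t => Φ (l.map fun e => e z) t - Φ (l.map fun e => e z₀) t) m =
      E.U (Φ (l.map fun e => e z)) m - E.U (Φ (l.map fun e => e z₀)) m := by
  have h1 := Vo_row h (l.map fun e => e z)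
  have h2 := Vo_row h (l.map fun e => e z₀)
  rw [List.length_map] at h1 h2
  exact E.U_sub h1 h2 m

theorem U_Kb [IsTopologicalGroup G] [LocallyCompactSpace G] (E : UData G) {n : ℕ}
    {Φ : List H → List G → ℝ} (h : Vo (n + 2) Φ) :
    Kb False (n + 2) (fun a b => E.U (Φ a) b) := by
  have hrow : ∀ {Z : Type} (l : List (Z → H)) (z : Z),
      Uo (n + 2 - l.length) (Φ (l.map fun e => e z)) := by
    intro Z l z
    have h1 := Vo_row h (l.map fun e => e z)
    rwa [List.length_map] at h1
  refine ⟨?_, ?_, fun hf => hf.elim, ?_, fun l m hlm => UReg_supp E h l m hlm⟩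
  · -- joint continuity
    intro Z W _ _ l m hl hm
    show Continuous fun p : Z × W => E.U (Φ (l.map fun e => e p.1)) (m.map fun e => e p.2)
    by_cases hlm : l = [] ∨ m = [] ∨ l.length + m.length ≠ n + 2
    · have e : (fun p : Z × W => E.U (Φ (l.map fun e => e p.1)) (m.map fun e => e p.2)) =
          fun _ => 0 := by
        funext p
        apply UReg_supp E h
        simpa using hlm
      rw [e]
      exact continuous_const
    · push Not at hlm
      obtain ⟨hl0, hm0, hlm⟩ := hlm
      have hj : n + 2 - l.length = m.length := by omega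
      rw [continuous_iff_continuousAt]
      rintro ⟨z₀, w₀⟩
      rw [Metric.continuousAt_iff']
      intro ε hε
      obtain ⟨K, hK, hKn⟩ := exists_compact_mem_nhds (UReg_pt m w₀)
      obtain ⟨C, D, hD, hC⟩ := E.U_loc m.length K hK
      have hδ : 0 < ε / (2 * (|C| + 1)) := by positivity
      have e1 := cpt_near h.reg hD l hl z₀ hδ
      have hcw : Continuous fun w => E.U (Φ (l.map fun e => e z₀)) (m.map fun e => e w) := by
        have h2 := (E.U_Uo _ _ (hrow l z₀)).cont m.length
        have h3 := h2.comp (UReg_pt_cont hm)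
        refine h3.congr fun w => ?_
        show E.U _ (List.ofFn (UReg_pt m w)) = _
        rw [UReg_ofFn]
      have e2 : ∀ᶠ w in 𝓝 w₀, |E.U (Φ (l.map fun e => e z₀)) (m.map fun e => e w) -
          E.U (Φ (l.map fun e => e z₀)) (m.map fun e => e w₀)| < ε / 2 := by
        have h4 := (Metric.continuousAt_iff'.1 (hcw.continuousAt (x := w₀))) (ε / 2)
          (by positivity)
        simpa [Real.dist_eq] using h4
      have e3 : ∀ᶠ w in 𝓝 w₀, UReg_pt m w ∈ K := (UReg_pt_cont hm).continuousAt hKn
      have e4 := (e1.prod_nhds (e2.and e3))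
      filter_upwards [e4] with p hp
      obtain ⟨hp1, hp2, hp3⟩ := hp
      have h5 := hC (fun t => Φ (l.map fun e => e p.1) t - Φ (l.map fun e => e z₀) t)
        (ε / (2 * (|C| + 1))) hδ.le
        (by
          rw [← hj]
          exact UReg_Uo_sub (hrow l p.1) (hrow l z₀)) hp1 _ hp3
      rw [UReg_ofFn, UReg_diff E h] at h5
      have h6 : C * (ε / (2 * (|C| + 1))) ≤ ε / 2 := by
        have h7 : C * (ε / (2 * (|C| + 1))) ≤ (|C| + 1) * (ε / (2 * (|C| + 1))) :=
          mul_le_mul_of_nonneg_right (by linarith [le_abs_self C]) hδ.le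
        have h8 : (|C| + 1) * (ε / (2 * (|C| + 1))) = ε / 2 := by
          have : |C| + 1 ≠ 0 := by positivity
          field_simp
        linarith
      rw [Real.dist_eq]
      show |E.U (Φ (l.map fun e => e p.1)) (m.map fun e => e p.2) -
        E.U (Φ (l.map fun e => e z₀)) (m.map fun e => e w₀)| < ε
      have h9 := abs_sub_le (E.U (Φ (l.map fun e => e p.1)) (m.map fun e => e p.2))
        (E.U (Φ (l.map fun e => e z₀)) (m.map fun e => e p.2))
        (E.U (Φ (l.map fun e => e z₀)) (m.map fun e => e w₀))
      linarith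
  · -- uniform continuity for length at least three
    intro Z W _ _ l m hl hm
    show LPU fun z w => if 3 ≤ (m.map fun e => e w).length then
      E.U (Φ (l.map fun e => e z)) (m.map fun e => e w) else 0
    have hz : LPU fun (_ : Z) (_ : W) => (0 : ℝ) := cls_LPU.zero Z W
    by_cases h3 : 3 ≤ m.length
    · have e : (fun z w => if 3 ≤ (m.map fun e => e w).length then
          E.U (Φ (l.map fun e => e z)) (m.map fun e => e w) else 0) =
          fun (z : Z) (w : W) => E.U (Φ (l.map fun e => e z)) (m.map fun e => e w) := by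
        funext z w
        rw [if_pos (by rw [List.length_map]; exact h3)]
      rw [e]
      by_cases hlm : l = [] ∨ m = [] ∨ l.length + m.length ≠ n + 2
      · have e : (fun (z : Z) (w : W) => E.U (Φ (l.map fun e => e z)) (m.map fun e => e w)) =
            fun _ _ => 0 := by
          funext z w
          apply UReg_supp E h
          simpa using hlm
        rw [e]
        exact hz
      · push Not at hlm
        obtain ⟨hl0, hm0, hlm⟩ := hlm
        have hj : n + 2 - l.length = m.length := by omega
        obtain ⟨C, D, hD, hC⟩ := E.U_bd m.length h3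
        refine ⟨fun z => ?_, fun z => ?_, fun z₀ ε hε => ?_⟩
        · have h4 : ContinuousOn (fun x : Fin m.length → G =>
              Φ (l.map fun e => e z) (List.ofFn x)) D :=
            ((hrow l z).cont m.length).continuousOn
          obtain ⟨M, hM⟩ := hD.exists_bound_of_continuousOn h4
          refine ⟨C * max M 0, fun w => ?_⟩
          refine hC _ _ (le_max_right _ _) (by rw [← hj]; exact hrow l z) ?_ _
          intro x hx
          exact (hM x hx).trans (le_max_left _ _)
        · have h2 := (E.U_Uo _ _ (hrow l z)).cont m.length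
          have h3 := h2.comp (UReg_pt_cont hm)
          refine h3.congr fun w => ?_
          show E.U _ (List.ofFn (UReg_pt m w)) = _
          rw [UReg_ofFn]
        · have hδ : 0 < ε / (|C| + 1) := by positivity
          filter_upwards [cpt_near h.reg hD l hl z₀ hδ] with z hz w
          have h5 := hC (fun t => Φ (l.map fun e => e z) t - Φ (l.map fun e => e z₀) t)
            (ε / (|C| + 1)) hδ.le
            (by
              rw [← hj]
              exact UReg_Uo_sub (hrow l z) (hrow l z₀)) hz (m.map fun e => e w)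
          rw [UReg_diff E h] at h5
          refine h5.trans ?_
          have h7 : C * (ε / (|C| + 1)) ≤ (|C| + 1) * (ε / (|C| + 1)) :=
            mul_le_mul_of_nonneg_right (by linarith [le_abs_self C]) hδ.le
          have h8 : (|C| + 1) * (ε / (|C| + 1)) = ε := by
            have : |C| + 1 ≠ 0 := by positivity
            field_simp
          linarith
    · have e : (fun z w => if 3 ≤ (m.map fun e => e w).length then
          E.U (Φ (l.map fun e => e z)) (m.map fun e => e w) else 0) =
          fun (_ : Z) (_ : W) => (0 : ℝ) := by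
        funext z w
        rw [if_neg (by rw [List.length_map]; exact h3)]
      rw [e]
      exact hz
  · intro x g l m
    have e : Φ (l.map (x * ·)) = Φ l := by
      funext t
      have h1 := h.inv x 1 l t
      rwa [UReg_map_one] at h1
    show E.U (Φ (l.map (x * ·))) (m.map (g * ·)) = E.U (Φ l) m
    rw [e]
    exact (E.U_Uo _ _ (Vo_row h l)).inv g m

end Pool.Agent.Helper87.BKF
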